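import Pool.Agent.X208.BR.Perm

/-!
# The first two layers
-/

set_option autoImplicit false

open Module

namespace Pool.Agent.X208.BR.Pk

variable {p : ℕ} {K M : Fld}

/-- The first two layers: the constant is `p + 1`. -/
theorem perm_law_12 {V : Type} [AddCommGroup V] {f : Fld → V} (hp : p.Prime)
    (h : IsElementary p K M) (hf : Respects K M f) (hne : ∀ n : ℕ, 0 < n → n • f K ≠ 0) :
    (layer K M p).ncard * (layer K M (p ^ 2)).ncard ≤
      (layer K M p).ncard * (bad K M f (p ^ 2)).ncard +
        (p + 1) * (layer K M (p ^ 2)).ncard * (bad K M f p).ncard := by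
  haveI : Fact p.Prime := ⟨hp⟩
  have h' := (elem_iff p K M).1 h
  obtain ⟨A, _, _, _, ⟨m⟩⟩ := exists_model h'
  obtain ⟨N, hN, h1⟩ := perm_law hp h hf hne (j := 1) (k := 2) (by norm_num)
  rw [pow_one] at h1 hN
  rcases (layer K M (p ^ 2)).eq_empty_or_nonempty with h0 | ⟨L, hL⟩
  · rw [h0, Set.ncard_empty]
    simp
  · have h2 := hN L hL
    have h3 : layer K M (p ^ 2) = phi m '' codim p A 2 := m.layer_eq h' 2
    have hL' := hL
    rw [h3] at hL'
    obtain ⟨W, hW, rfl⟩ := hL'
    have h4 : layer K (phi m W) (p ^ 1) = phi m '' aboveJ W 1 := layer_fld m h' W 1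
    rw [pow_one] at h4
    have hinj : Function.Injective (phi m) := m.fld_injective h'
    have h5 : aboveJ W 1 = above W := by
      have hW' : finrank (ZMod p) W + 2 = finrank (ZMod p) A := hW
      ext U
      constructor
      · rintro ⟨h6, h7⟩
        have h8 : finrank (ZMod p) U + 1 = finrank (ZMod p) A := h7
        exact ⟨h6, by omega⟩
      · rintro ⟨h6, h7⟩
        refine ⟨h6, ?_⟩
        change finrank (ZMod p) U + 1 = finrank (ZMod p) A
        omega
    rw [h4, Set.ncard_image_of_injective _ hinj, h5, above_card W hW] at h2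
    rw [← h2] at h1
    exact h1

/-- From the inequality to the alternative. -/
theorem alt_of_ineq {a b x y N : ℕ} (h : a * b ≤ a * y + N * b * x) :
    a ≤ (N + 1) * x ∨ b ≤ (N + 1) * y := by
  by_contra hcon
  push Not at hcon
  obtain ⟨h1, h2⟩ := hcon
  have ha : 0 < a := by omega
  have hb : 0 < b := by omega
  have h3 : (N + 1) * (a * b) ≤ a * ((N + 1) * y) + N * b * ((N + 1) * x) := by
    calc (N + 1) * (a * b) ≤ (N + 1) * (a * y + N * b * x) := Nat.mul_le_mul_left _ h
      _ = _ := by ring
  have h4 : a * ((N + 1) * y) < a * b := Nat.mul_lt_mul_of_pos_left h2 ha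
  have h5 : N * b * ((N + 1) * x) ≤ N * b * a := Nat.mul_le_mul_left _ h1.le
  have h6 : (N + 1) * (a * b) = a * b + N * b * a := by ring
  omega

end Pool.Agent.X208.BR.Pk
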