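import Pool.Agent.X208.BR.PermDefs

/-!
# Selmer ranks and orders of vanishing for the base changes of a Hilbert modular form
-/

set_option autoImplicit false

namespace Pool.Agent.X208.BR.Pk

/-- `K` is totally real: all the embeddings of `K` in `ℂ` are real. -/
def IsTotReal (K : Fld) : Prop :=
  ∀ (e : (show IntermediateField ℚ (AlgebraicClosure ℚ) from K) →+* ℂ) (x), (e x).im = 0

/-- **The Selmer ranks and the orders of vanishing of the base changes of a Hilbert newform `g`** over the
totally real field `F` (of weights `k_i` even, `w = 2`, with trivial central character), for a fixed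
`λ`: `sel K' = dim H¹_f(K', V_{g,λ})`, `ord K' = ord_{s=0} L(V_{g,λ}|K', s)` for the fields `K'` between
`F` and a totally real elementary abelian extension `M` of `F`. Both respect Brauer relations: the first by
Galois descent `H¹_f(K', V) = H¹_f(M, V)^{Gal(M/K')}`, the second by Artin's formalism. -/
structure HilbertRanks (F : Fld) where
  sel : Fld → ℕ
  ord : Fld → ℕ
  descent : ∀ (p : ℕ) (M : Fld), p.Prime → IsElementary p F M → IsTotReal M →
    Respects F M fun K' => (sel K' : ℤ)
  artin : ∀ (p : ℕ) (M : Fld), p.Prime → IsElementary p F M → IsTotReal M →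
    Respects F M fun K' => (ord K' : ℤ)

/-- The fields of the layer for which the rank formula of Bloch and Kato fails. -/
def HilbertRanks.failing {F : Fld} (g : HilbertRanks F) (M : Fld) (m : ℕ) : Set Fld :=
  {K' | K' ∈ layer F M m ∧ g.sel K' ≠ g.ord K'}

end Pool.Agent.X208.BR.Pk
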