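import Pool.Agent.X208.BR.Gal

/-!
# Artin characters: sums, and induction of restrictions
-/

set_option autoImplicit false

open Module

namespace Pool.Agent.X208.BR

variable {K : IntermediateField ℚ Qb}

theorem IsArtinChar.zero : IsArtinChar K 0 :=
  ⟨Empty, inferInstance, inferInstance, 1, ⟨⊥, inferInstance, fun _ _ => rfl⟩, fun g => by
    simp [Matrix.trace]⟩

theorem IsArtinChar.add {χ ψ : GK K → ℂ} (h₁ : IsArtinChar K χ) (h₂ : IsArtinChar K ψ) :
    IsArtinChar K (χ + ψ) := by
  obtain ⟨ι, _, _, ρ, ⟨L, hL, hρ⟩, hχ⟩ := h₁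
  obtain ⟨κ, _, _, τ, ⟨L', hL', hτ⟩, hψ⟩ := h₂
  refine ⟨ι ⊕ κ, inferInstance, inferInstance,
    { toFun := fun g => Matrix.fromBlocks (ρ g) 0 0 (τ g)
      map_one' := by rw [map_one, map_one, Matrix.fromBlocks_one]
      map_mul' := fun g h => by
        rw [map_mul, map_mul, Matrix.fromBlocks_multiply]
        simp }, ⟨L ⊔ L', IntermediateField.finiteDimensional_sup L L', fun g hg => ?_⟩, fun g => ?_⟩
  · have h3 := hρ g (IntermediateField.fixingSubgroup_antitone le_sup_left hg)
    have h4 := hτ g (IntermediateField.fixingSubgroup_antitone le_sup_right hg)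
    simp only [MonoidHom.coe_mk, OneHom.coe_mk, h3, h4, Matrix.fromBlocks_one]
  · simp [Matrix.trace, Fintype.sum_sum_type, hχ g, hψ g]

theorem IsArtinChar.sum {ι : Type} (s : Finset ι) (f : ι → GK K → ℂ)
    (h : ∀ i ∈ s, IsArtinChar K (f i)) : IsArtinChar K (∑ i ∈ s, f i) := by
  classical
  induction s using Finset.induction_on with
  | empty => simpa using IsArtinChar.zero
  | insert a s ha ih =>
    rw [Finset.sum_insert ha]
    exact (h a (Finset.mem_insert_self a s)).add
      (ih fun i hi => h i (Finset.mem_insert_of_mem hi))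

theorem IsArtinChar.nsmul {χ : GK K → ℂ} (h : IsArtinChar K χ) (n : ℕ) : IsArtinChar K (n • χ) := by
  induction n with
  | zero => simpa using IsArtinChar.zero
  | succ n ih =>
    rw [succ_nsmul]
    exact ih.add h

theorem IsArtinChar.conj {χ : GK K → ℂ} (h : IsArtinChar K χ) (x g : GK K) :
    χ (x⁻¹ * g * x) = χ g := by
  obtain ⟨ι, _, _, ρ, -, hχ⟩ := h
  rw [hχ, hχ, map_mul, map_mul, Matrix.trace_mul_comm, ← mul_assoc, ← map_mul, mul_inv_cancel,
    map_one, one_mul]

theorem IsArtinChar.res {K' : IntermediateField ℚ Qb} (hK : K ≤ K') {χ : GK K → ℂ}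
    (h : IsArtinChar K χ) : IsArtinChar K' (res hK χ) := by
  obtain ⟨ι, _, _, ρ, ⟨L, hL, hρ⟩, hχ⟩ := h
  refine ⟨ι, inferInstance, inferInstance,
    ρ.comp (Subgroup.inclusion (IntermediateField.fixingSubgroup_antitone hK)), ⟨L, hL, ?_⟩, ?_⟩
  · intro g hg
    exact hρ _ hg
  · intro g
    exact hχ _

namespace Inductive

variable {V : Type} [CommGroup V] (D : Inductive V)

theorem d_zero (hK : FiniteDimensional ℚ K) : D.d K 0 = 1 := by
  have := D.add K 0 0 hK IsArtinChar.zero IsArtinChar.zero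
  rw [add_zero] at this
  simpa using this

theorem d_sum (hK : FiniteDimensional ℚ K) {ι : Type} (s : Finset ι) (f : ι → GK K → ℂ)
    (h : ∀ i ∈ s, IsArtinChar K (f i)) : D.d K (∑ i ∈ s, f i) = ∏ i ∈ s, D.d K (f i) := by
  classical
  induction s using Finset.induction_on with
  | empty => simpa using D.d_zero hK
  | insert a s ha ih =>
    rw [Finset.sum_insert ha, Finset.prod_insert ha, D.add K _ _ hK
      (h a (Finset.mem_insert_self a s))
      (IsArtinChar.sum s f fun i hi => h i (Finset.mem_insert_of_mem hi)),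
      ih fun i hi => h i (Finset.mem_insert_of_mem hi)]

theorem d_nsmul (hK : FiniteDimensional ℚ K) {χ : GK K → ℂ} (h : IsArtinChar K χ) (n : ℕ) :
    D.d K (n • χ) = D.d K χ ^ n := by
  induction n with
  | zero => simpa using D.d_zero hK
  | succ n ih => rw [succ_nsmul, D.add K _ _ hK (h.nsmul n) h, ih, pow_succ]

end Inductive

section

variable {K' : IntermediateField ℚ Qb}

/-- `K'/K` is a normal extension of number fields. -/
structure Nrm (K K' : IntermediateField ℚ Qb) : Prop where
  le : K ≤ K'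
  fin : FiniteDimensional ℚ K'
  conj : ∀ x ∈ GK K, ∀ g ∈ GK K', x⁻¹ * g * x ∈ GK K'

theorem Nrm.mem_iff (h : Nrm K K') (x g : GK K) :
    ((x⁻¹ * g * x : GK K) : Gal(Qb/ℚ)) ∈ GK K' ↔ (g : Gal(Qb/ℚ)) ∈ GK K' := by
  constructor
  · intro h1
    have h2 := h.conj (x⁻¹ : GK K) (x⁻¹ : GK K).2 _ h1
    have h3 : ((x⁻¹ : GK K) : Gal(Qb/ℚ))⁻¹ * ((x⁻¹ * g * x : GK K) : Gal(Qb/ℚ)) *
        ((x⁻¹ : GK K) : Gal(Qb/ℚ)) = g := by
      push_cast
      group
    rwa [h3] at h2
  · intro h1
    exact h.conj x x.2 g h1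

theorem Nrm.index_ne (h : Nrm K K') : ((GK K').subgroupOf (GK K)).index ≠ 0 := by
  change (GK K').relIndex (GK K) ≠ 0
  intro h3
  have h4 := Subgroup.relIndex_mul_index (IntermediateField.fixingSubgroup_antitone h.le)
  rw [h3, zero_mul] at h4
  exact index_ne_zero h.fin h4.symm

theorem Nrm.finite (h : Nrm K K') : Finite (GK K ⧸ (GK K').subgroupOf (GK K)) :=
  Nat.finite_of_card_ne_zero h.index_ne

open Classical in
theorem Nrm.ind_res (h : Nrm K K') {χ : GK K → ℂ} (hχ : IsArtinChar K χ) (g : GK K) :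
    ind h.le (BR.res h.le χ) g =
      if (g : Gal(Qb/ℚ)) ∈ GK K' then ((GK K').relIndex (GK K) : ℂ) * χ g else 0 := by
  have := h.finite
  have h1 : ∀ x : GK K ⧸ (GK K').subgroupOf (GK K),
      (if hx : ((x.out⁻¹ * g * x.out : GK K) : Gal(Qb/ℚ)) ∈ GK K' then
        BR.res h.le χ ⟨_, hx⟩ else 0) =
      if (g : Gal(Qb/ℚ)) ∈ GK K' then χ g else 0 := by
    intro x
    by_cases hg : (g : Gal(Qb/ℚ)) ∈ GK K'
    · rw [dif_pos ((h.mem_iff _ _).2 hg), if_pos hg]
      exact hχ.conj x.out g
    · rw [dif_neg (fun h2 => hg ((h.mem_iff _ _).1 h2)), if_neg hg]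
  unfold ind
  rw [finsum_congr h1]
  have : Fintype (GK K ⧸ (GK K').subgroupOf (GK K)) := Fintype.ofFinite _
  rw [finsum_eq_sum_of_fintype, Finset.sum_const, Finset.card_univ, nsmul_eq_mul]
  have h2 : (Fintype.card (GK K ⧸ (GK K').subgroupOf (GK K)) : ℂ) =
      ((GK K').relIndex (GK K) : ℂ) := by
    rw [← Nat.card_eq_fintype_card]
    rfl
  rw [h2]
  split_ifs <;> simp

/-- The induction of the restriction is a character. -/
theorem Nrm.isChar (h : Nrm K K') {χ : GK K → ℂ} (hχ : IsArtinChar K χ) :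
    IsArtinChar K (ind h.le (BR.res h.le χ)) := by
  classical
  have := h.finite
  have hN : ((GK K').subgroupOf (GK K)).Normal := by
    refine ⟨fun n hn g => ?_⟩
    rw [Subgroup.mem_subgroupOf] at hn ⊢
    have h1 := (h.mem_iff (g⁻¹) n).2 hn
    simpa using h1
  let Q := GK K ⧸ (GK K').subgroupOf (GK K)
  have : Fintype Q := Fintype.ofFinite _
  obtain ⟨ι, _, _, ρ, ⟨L, hL, hρ⟩, hχ'⟩ := hχ
  let P : GK K →* Matrix Q Q ℂ :=
    { toFun := fun g => Matrix.of fun x y => if x = (QuotientGroup.mk g : Q) * y then 1 else 0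
      map_one' := by
        ext x y
        simp [Matrix.one_apply]
      map_mul' := fun g k => by
        ext x y
        rw [Matrix.mul_apply]
        simp only [Matrix.of_apply, QuotientGroup.mk_mul]
        rw [Finset.sum_eq_single ((QuotientGroup.mk k : Q) * y)]
        · simp [mul_assoc]
        · intro z _ hz
          simp [hz]
        · intro hz
          exact absurd (Finset.mem_univ _) hz }
  refine ⟨ι × Q, inferInstance, inferInstance,
    { toFun := fun g => Matrix.kroneckerMap (· * ·) (ρ g) (P g)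
      map_one' := by rw [map_one, map_one, Matrix.one_kronecker_one]
      map_mul' := fun g k => by rw [map_mul, map_mul, Matrix.mul_kronecker_mul] },
    ⟨L ⊔ K', ?_, fun g hg => ?_⟩, fun g => ?_⟩
  · have := h.fin
    exact IntermediateField.finiteDimensional_sup L K'
  · have h3 := hρ g (IntermediateField.fixingSubgroup_antitone le_sup_left hg)
    have h4 : (QuotientGroup.mk g : Q) = 1 := by
      rw [QuotientGroup.eq_one_iff, Subgroup.mem_subgroupOf]
      exact IntermediateField.fixingSubgroup_antitone le_sup_right hg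
    have h5 : P g = 1 := by
      ext x y
      simp [P, h4, Matrix.one_apply]
    simp only [MonoidHom.coe_mk, OneHom.coe_mk, h3, h5, Matrix.one_kronecker_one]
  · simp only [MonoidHom.coe_mk, OneHom.coe_mk]
    rw [Matrix.trace_kronecker, ← hχ' g, h.ind_res ⟨ι, inferInstance, inferInstance, ρ,
      ⟨L, hL, hρ⟩, hχ'⟩ g]
    by_cases hg : (g : Gal(Qb/ℚ)) ∈ GK K'
    · rw [if_pos hg]
      have h4 : (QuotientGroup.mk g : Q) = 1 := by
        rw [QuotientGroup.eq_one_iff, Subgroup.mem_subgroupOf]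
        exact hg
      have h5 : P g = 1 := by
        ext x y
        simp [P, h4, Matrix.one_apply]
      rw [h5, Matrix.trace_one, ← Nat.card_eq_fintype_card, mul_comm]
      rfl
    · rw [if_neg hg]
      have h4 : (P g).trace = 0 := by
        rw [Matrix.trace]
        refine Finset.sum_eq_zero fun x _ => ?_
        simp only [Matrix.diag_apply, P, MonoidHom.coe_mk, OneHom.coe_mk, Matrix.of_apply]
        rw [if_neg]
        intro h5
        have h6 : (QuotientGroup.mk g : Q) = 1 := by
          have h7 : (1 : Q) * x = (QuotientGroup.mk g : Q) * x := by rw [one_mul]; exact h5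
          exact (mul_right_cancel h7).symm
        rw [QuotientGroup.eq_one_iff, Subgroup.mem_subgroupOf] at h6
        exact hg h6
      rw [h4, mul_zero]

end

end Pool.Agent.X208.BR
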