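import Pool.Agent.X208.BR.Stark

/-!
# Stark's conjecture over the layers of elementary abelian extensions
-/

set_option autoImplicit false

open Module

namespace Pool.Agent.X208.BR

variable {p : ℕ} {K M : IntermediateField ℚ Qb}

theorem failing_mono (T : StarkSystem) (h : K ≤ M) (hM : FiniteDimensional ℚ M) {χ : GK K → ℂ}
    (hχ : IsArtinChar K χ) (σ : ℂ ≃+* ℂ) (n : ℕ) :
    badLayer (T.inv σ) K M χ n ⊆ T.failing K M χ n := by
  rintro L ⟨hL, hL'⟩
  refine ⟨hL, fun h1 h2 => hL' h1 ?_⟩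
  have hf : FiniteDimensional ℚ L := fin_of_le hL.2.1 hM
  exact (T.holds_iff L _ hf (hχ.res h1)).1 h2 σ

theorem layer_finite (hp : p.Prime) (h : IsElementary p K M) (j : ℕ) :
    (layer K M (p ^ j)).Finite := by
  haveI : Fact p.Prime := ⟨hp⟩
  obtain ⟨A, _, _, _, ⟨m⟩⟩ := exists_model h
  rw [m.layer_eq h j]
  exact (Set.toFinite _).image _

theorem failing_finite (T : StarkSystem) (hp : p.Prime) (h : IsElementary p K M) (χ : GK K → ℂ)
    (j : ℕ) : (T.failing K M χ (p ^ j)).Finite :=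
  (layer_finite hp h j).subset fun _ hL => hL.1

/-- The main inequality. -/
def LayerIneq (T : StarkSystem) (p : ℕ) (K M : IntermediateField ℚ Qb) (χ : GK K → ℂ) : Prop :=
  (layer K M p).ncard * (layer K M (p ^ 2)).ncard ≤
    (layer K M p).ncard * (T.failing K M χ (p ^ 2)).ncard +
      (p + 1) * (layer K M (p ^ 2)).ncard * (T.failing K M χ p).ncard

theorem layerIneq (T : StarkSystem) (hp : p.Prime) (h : IsElementary p K M) {χ : GK K → ℂ}
    (hχ : IsArtinChar K χ) {σ : ℂ ≃+* ℂ} (hd : T.defect σ K χ ^ p ≠ 1) : LayerIneq T p K M χ := by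
  have h1 := proportion (T.inv σ) hp h hχ hd
  have h2 := Set.ncard_le_ncard (failing_mono T h.le h.fin hχ σ (p ^ 2)) (failing_finite T hp h χ 2)
  have h3 : (badLayer (T.inv σ) K M χ p).ncard ≤ (T.failing K M χ p).ncard := by
    have h4 := failing_finite T hp h χ 1
    rw [pow_one] at h4
    exact Set.ncard_le_ncard (failing_mono T h.le h.fin hχ σ p) h4
  refine h1.trans (add_le_add (Nat.mul_le_mul_left _ h2) (Nat.mul_le_mul_left _ h3))

theorem exists_codim [hp : Fact p.Prime] {A : Type} [AddCommGroup A] [Module (ZMod p) A] [Finite A]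
    {j : ℕ} (hj : j ≤ finrank (ZMod p) A) : (codim p A j).Nonempty := by
  classical
  induction j with
  | zero => exact ⟨⊤, by change finrank (ZMod p) _ + 0 = _; simp⟩
  | succ j ih =>
    obtain ⟨W, hW⟩ := ih (by omega)
    have hW' : finrank (ZMod p) W + j = finrank (ZMod p) A := hW
    -- a hyperplane of `W`
    have h1 : 0 < finrank (ZMod p) W := by omega
    obtain ⟨w, hw⟩ : ∃ w : W, w ≠ 0 := by
      have := Module.finrank_pos_iff.1 h1
      exact exists_ne 0
    obtain ⟨C, hC⟩ := (Submodule.span (ZMod p) {w}).exists_isCompl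
    have h2 := Submodule.finrank_add_eq_of_isCompl hC
    rw [finrank_span_singleton hw] at h2
    refine ⟨C.map W.subtype, ?_⟩
    change finrank (ZMod p) _ + (j + 1) = _
    rw [Submodule.finrank_map_subtype_eq]
    omega

theorem layer_nonempty (hp : p.Prime) (h : IsElementary p K M)
    (hd : p ^ 2 * finrank ℚ K ≤ finrank ℚ M) (j : ℕ) (hj : j ≤ 2) :
    (layer K M (p ^ j)).Nonempty := by
  haveI : Fact p.Prime := ⟨hp⟩
  obtain ⟨A, _, _, _, ⟨m⟩⟩ := exists_model h
  have hK : 0 < finrank ℚ K := by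
    have : FiniteDimensional ℚ K := fin_of_le h.le h.fin
    exact Module.finrank_pos
  obtain ⟨W, hW⟩ := m.exists_fld h h.le le_rfl
  have h1 := m.finrank_fld h W
  rw [hW] at h1
  rw [h1] at hd
  have h2 : 2 ≤ finrank (ZMod p) A - finrank (ZMod p) W :=
    (Nat.pow_le_pow_iff_right hp.one_lt).1 (Nat.le_of_mul_le_mul_right hd hK)
  rw [m.layer_eq h j]
  exact (exists_codim (by omega)).image _

theorem ineq_alt (T : StarkSystem) {χ : GK K → ℂ} (h : LayerIneq T p K M χ) :
    (layer K M p).ncard ≤ (p + 2) * (T.failing K M χ p).ncard ∨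
      (layer K M (p ^ 2)).ncard ≤ (p + 2) * (T.failing K M χ (p ^ 2)).ncard := by
  by_contra hcon
  push Not at hcon
  obtain ⟨h1, h2⟩ := hcon
  unfold LayerIneq at h
  set a := (layer K M p).ncard
  set b := (layer K M (p ^ 2)).ncard
  set x := (T.failing K M χ p).ncard
  set y := (T.failing K M χ (p ^ 2)).ncard
  have ha : 0 < a := by omega
  have hb : 0 < b := by omega
  have h3 : (p + 2) * (a * b) ≤ a * ((p + 2) * y) + (p + 1) * b * ((p + 2) * x) := by
    calc (p + 2) * (a * b) ≤ (p + 2) * (a * y + (p + 1) * b * x) := Nat.mul_le_mul_left _ h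
      _ = _ := by ring
  have h4 : a * ((p + 2) * y) < a * b := Nat.mul_lt_mul_of_pos_left h2 ha
  have h5 : (p + 1) * b * ((p + 2) * x) ≤ (p + 1) * b * a := Nat.mul_le_mul_left _ h1.le
  have h6 : (p + 2) * (a * b) = a * b + (p + 1) * b * a := by ring
  omega

theorem exists_failing (T : StarkSystem) (hp : p.Prime) (h : IsElementary p K M)
    (hd : p ^ 2 * finrank ℚ K ≤ finrank ℚ M) {χ : GK K → ℂ} (hi : LayerIneq T p K M χ) :
    ∃ n, (n = p ∨ n = p ^ 2) ∧ (T.failing K M χ n).Nonempty := by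
  have h1 := layer_nonempty hp h hd 1 (by norm_num)
  have h2 := layer_nonempty hp h hd 2 le_rfl
  rw [pow_one] at h1
  have h3 := layer_finite hp h 1
  rw [pow_one] at h3
  have h4 := (Set.ncard_pos h3).2 h1
  have h5 := (Set.ncard_pos (layer_finite hp h 2)).2 h2
  rcases ineq_alt T hi with h6 | h6
  · refine ⟨p, Or.inl rfl, ?_⟩
    apply Set.nonempty_of_ncard_ne_zero
    intro h7
    rw [h7, mul_zero] at h6
    omega
  · refine ⟨p ^ 2, Or.inr rfl, ?_⟩
    apply Set.nonempty_of_ncard_ne_zero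
    intro h7
    rw [h7, mul_zero] at h6
    omega

/-- A nontrivial unit has a nontrivial `p`-th power for all primes `p` but at most one. -/
theorem exists_exceptional {V : Type} [CommGroup V] {d : V} (hd : d ≠ 1) :
    ∃ p₀ : ℕ, ∀ p : ℕ, p.Prime → p ≠ p₀ → d ^ p ≠ 1 := by
  classical
  by_cases hex : ∃ q : ℕ, q.Prime ∧ d ^ q = 1
  · obtain ⟨q, hq, h1⟩ := hex
    refine ⟨q, fun p hp hne h2 => hd ?_⟩
    have h3 : orderOf d ∣ q := orderOf_dvd_of_pow_eq_one h1
    have h4 : orderOf d ∣ p := orderOf_dvd_of_pow_eq_one h2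
    have h5 : Nat.Coprime p q := (Nat.coprime_primes hp hq).2 hne
    have h6 : orderOf d ∣ Nat.gcd p q := Nat.dvd_gcd h4 h3
    rw [h5, Nat.dvd_one] at h6
    exact orderOf_eq_one_iff.1 h6
  · push Not at hex
    exact ⟨0, fun p hp _ => hex p hp⟩

theorem not_holds_iff (T : StarkSystem) (hK : FiniteDimensional ℚ K) {χ : GK K → ℂ}
    (hχ : IsArtinChar K χ) : ¬ T.Holds K χ ↔ ∃ σ, T.defect σ K χ ≠ 1 := by
  rw [T.holds_iff K χ hK hχ]
  push Not
  rfl

/-- `p`-th powers of Stark quotients. -/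
theorem defect_pow_ne (T : StarkSystem) {L : IntermediateField ℚ Qb} (hL : Over L K)
    {χ : GK K → ℂ} (hχ : IsCharOf L K χ) {σ : ℂ ≃+* ℂ}
    (h : (σ (T.A L K χ)) ^ p ≠ ((T.A L K (fun g => σ (χ g)) : ℂˣ) : ℂ) ^ p) :
    T.defect σ K χ ^ p ≠ 1 := by
  intro h1
  rw [T.defect_eq σ hL hχ] at h1
  have h2 := congrArg Units.val h1
  rw [Units.val_pow_eq_pow_val, T.dL_coe, div_pow, Units.val_one] at h2
  exact h ((div_eq_one_iff_eq (pow_ne_zero _ (Units.ne_zero _))).1 h2)

end Pool.Agent.X208.BR
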