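import Pool.Agent.X208.BR.Pk
import Pool.Agent.X208.BR.StarkMain

/-!
# Translation
-/

set_option autoImplicit false

open Module

namespace Pool.Agent.X208.BR.Pk

theorem artin_iff (K : Fld) (χ : G K → ℂ) : IsArtin K χ ↔ BR.IsArtinChar K χ := by
  constructor
  · rintro ⟨L, hL, ι, i1, i2, ρ, h1, h2⟩
    exact ⟨ι, i1, i2, ρ, ⟨L, hL, fun g hg => h1 g hg⟩, h2⟩
  · rintro ⟨ι, i1, i2, ρ, ⟨L, hL, h1⟩, h2⟩
    exact ⟨L, hL, ι, i1, i2, ρ, fun g hg => h1 g hg, h2⟩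

theorem over_iff (L K : Fld) : Over L K ↔ BR.Over L K :=
  ⟨fun h => ⟨h.1, h.2, h.3⟩, fun h => ⟨h.1, h.2, h.3⟩⟩

theorem charOf_iff (L K : Fld) (χ : G K → ℂ) : IsCharOf L K χ ↔ BR.IsCharOf L K χ := Iff.rfl

theorem elem_iff (p : ℕ) (K M : Fld) : IsElementary p K M ↔ BR.IsElementary p K M :=
  ⟨fun h => ⟨h.1, h.2, h.3, h.4⟩, fun h => ⟨h.1, h.2, h.3, h.4⟩⟩

theorem ind_eq {K K' : Fld} (h : K ≤ K') (χ : G K' → ℂ) : ind h χ = BR.ind h χ := rfl

/-- The same system in the notation of the engine. -/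
def StarkSystem.conv (T : StarkSystem) : BR.StarkSystem where
  A := T.A
  add := fun L K χ ψ h h1 h2 => T.add L K χ ψ ((over_iff L K).2 h) h1 h2
  ind := fun L K K' h χ h1 h2 => T.ind L K K' h χ ((over_iff L K').2 h1) h2
  indep := fun L L' K χ σ h h' hle h1 =>
    T.indep L L' K χ σ ((over_iff L K).2 h) ((over_iff L' K).2 h') hle h1

theorem holds_conv (T : StarkSystem) (K : Fld) (χ : G K → ℂ) :
    T.Holds K χ ↔ T.conv.Holds K χ :=
  ⟨fun h L σ h1 h2 => h L σ ((over_iff L K).2 h1) h2, fun h L σ h1 h2 => h L σ ((over_iff L K).1 h1) h2⟩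

theorem failing_conv (T : StarkSystem) (K M : Fld) (χ : G K → ℂ) (n : ℕ) :
    T.failing K M χ n = T.conv.failing K M χ n := by
  ext L
  constructor
  · rintro ⟨h1, h2⟩
    exact ⟨h1, fun h h3 => h2 h ((holds_conv T L _).2 h3)⟩
  · rintro ⟨h1, h2⟩
    exact ⟨h1, fun h h3 => h2 h ((holds_conv T L _).1 h3)⟩

theorem layer_conv (K M : Fld) (n : ℕ) : layer K M n = BR.layer K M n := rfl

end Pool.Agent.X208.BR.Pk
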