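import Mathlib

/-!
# Double counting of hyperplanes and subspaces of codimension two over `𝔽_p`
-/

set_option autoImplicit false

open Module

namespace Pool.Agent.X208.BR

section

variable {p : ℕ} [hp : Fact p.Prime] {A : Type} [AddCommGroup A] [Module (ZMod p) A] [Finite A]

/-- The subspaces of codimension `j`. -/
def codim (p : ℕ) [Fact p.Prime] (A : Type) [AddCommGroup A] [Module (ZMod p) A] (j : ℕ) :
    Set (Submodule (ZMod p) A) :=
  {W | finrank (ZMod p) W + j = finrank (ZMod p) A}

omit [Finite A] in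
theorem sup_span_finrank [FiniteDimensional (ZMod p) A] (W : Submodule (ZMod p) A) {a : A}
    (ha : a ∉ W) :
    finrank (ZMod p) ↥(W ⊔ Submodule.span (ZMod p) {a}) = finrank (ZMod p) W + 1 := by
  have h0 : a ≠ 0 := fun h => ha (h ▸ W.zero_mem)
  have h1 : Disjoint W (Submodule.span (ZMod p) {a}) := by
    rw [Submodule.disjoint_span_singleton' h0]
    exact ha
  have h2 := Submodule.finrank_sup_add_finrank_inf_eq W (Submodule.span (ZMod p) {a})
  rw [h1.eq_bot, finrank_bot, finrank_span_singleton h0] at h2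
  simpa using h2

/-- The subspaces of dimension one more. -/
def above (W : Submodule (ZMod p) A) : Set (Submodule (ZMod p) A) :=
  {U | W ≤ U ∧ finrank (ZMod p) U = finrank (ZMod p) W + 1}

theorem exists_unique_above (W : Submodule (ZMod p) A) {a : A} (ha : a ∉ W) :
    ∃! U, U ∈ above W ∧ a ∈ U := by
  refine ⟨W ⊔ Submodule.span (ZMod p) {a}, ⟨⟨le_sup_left, sup_span_finrank W ha⟩,
    (le_sup_right : _ ≤ W ⊔ Submodule.span (ZMod p) {a})
      (Submodule.mem_span_singleton_self a)⟩, ?_⟩
  rintro U ⟨⟨h1, h2⟩, h3⟩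
  have h4 : W ⊔ Submodule.span (ZMod p) {a} ≤ U :=
    sup_le h1 (by rw [Submodule.span_singleton_le_iff_mem]; exact h3)
  exact (Submodule.eq_of_le_of_finrank_eq h4 (by rw [h2, sup_span_finrank W ha])).symm

theorem card_sub (W : Submodule (ZMod p) A) : Nat.card W = p ^ finrank (ZMod p) W := by
  have := Module.natCard_eq_pow_finrank (K := ZMod p) (V := W)
  rw [this, Nat.card_zmod]

theorem card_all : Nat.card A = p ^ finrank (ZMod p) A := by
  have := Module.natCard_eq_pow_finrank (K := ZMod p) (V := A)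
  rw [this, Nat.card_zmod]

theorem above_card (W : Submodule (ZMod p) A) (hW : W ∈ codim p A 2) :
    (above W).ncard = p + 1 := by
  classical
  have hp2 := hp.out.two_le
  haveI : Fintype A := Fintype.ofFinite A
  set X : Finset (Submodule (ZMod p) A) := (Set.toFinite (above W)).toFinset with hX
  have hXm : ∀ U, U ∈ X ↔ U ∈ above W := fun U => by simp [hX]
  have h1 : ({a : A | a ∉ W} : Set A) = ⋃ U ∈ X, {a : A | a ∈ U ∧ a ∉ W} := by
    ext a
    simp only [Set.mem_setOf_eq, Set.mem_iUnion, exists_prop]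
    constructor
    · intro ha
      obtain ⟨U, ⟨h2, h3⟩, -⟩ := exists_unique_above W ha
      exact ⟨U, (hXm U).2 h2, h3, ha⟩
    · rintro ⟨U, -, -, h⟩
      exact h
  have h2 : ({a : A | a ∉ W} : Set A).ncard = ∑ U ∈ X, ({a : A | a ∈ U ∧ a ∉ W} : Set A).ncard := by
    rw [h1]
    have h3 : (⋃ U ∈ X, {a : A | a ∈ U ∧ a ∉ W}) =
        ((X.biUnion fun U => (Set.toFinite {a : A | a ∈ U ∧ a ∉ W}).toFinset : Finset A) : Set A) := by
      ext a
      simp
    rw [h3, Set.ncard_coe_finset, Finset.card_biUnion]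
    · refine Finset.sum_congr rfl fun U _ => ?_
      rw [Set.ncard_eq_toFinset_card _ (Set.toFinite _)]
    · intro U hU V hV hne
      refine Finset.disjoint_left.2 ?_
      intro a ha hb
      simp only [Set.Finite.mem_toFinset, Set.mem_setOf_eq] at ha hb
      exact hne ((exists_unique_above W ha.2).unique ⟨(hXm U).1 hU, ha.1⟩ ⟨(hXm V).1 hV, hb.1⟩)
  have h4 : ∀ U : Submodule (ZMod p) A, W ≤ U →
      ({a : A | a ∈ U ∧ a ∉ W} : Set A).ncard + Nat.card W = Nat.card U := by
    intro U hU
    have h5 : ({a : A | a ∈ U ∧ a ∉ W} : Set A) = (U : Set A) \ (W : Set A) := by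
      ext a
      simp
    rw [h5]
    have h6 := Set.ncard_diff_add_ncard_of_subset (s := (W : Set A)) (t := (U : Set A)) hU
    rwa [← Nat.card_coe_set_eq, ← Nat.card_coe_set_eq (W : Set A), ← Nat.card_coe_set_eq (U : Set A)]
      at h6
  have h5 : ({a : A | a ∉ W} : Set A).ncard + Nat.card W = Nat.card A := by
    have h6 := h4 ⊤ le_top
    simp only [Submodule.mem_top, true_and] at h6
    rw [h6]
    exact Nat.card_congr (Equiv.Set.univ A)
  have h6 : ∀ U ∈ X, ({a : A | a ∈ U ∧ a ∉ W} : Set A).ncard =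
      (p - 1) * p ^ finrank (ZMod p) W := by
    intro U hU
    obtain ⟨h7, h8⟩ := (hXm U).1 hU
    have h9 := h4 U h7
    rw [card_sub, card_sub, h8, pow_succ] at h9
    obtain ⟨q, rfl⟩ : ∃ q, p = q + 1 := ⟨p - 1, by omega⟩
    simp only [Nat.add_sub_cancel]
    nlinarith
  rw [Finset.sum_congr rfl h6, Finset.sum_const, smul_eq_mul] at h2
  have hW0 : finrank (ZMod p) W + 2 = finrank (ZMod p) A := hW
  rw [h2, card_sub, card_all (p := p), ← hW0, pow_add] at h5
  have h7 : 0 < p ^ finrank (ZMod p) W := by positivity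
  have h8 : X.card = p + 1 := by
    obtain ⟨q, hq⟩ : ∃ q, p = q + 1 := ⟨p - 1, by omega⟩
    have hq1 : p - 1 = q := by omega
    rw [hq1] at h5
    have h9 : X.card * q + 1 = p ^ 2 := by
      have h10 : (X.card * q + 1) * p ^ finrank (ZMod p) W =
          p ^ 2 * p ^ finrank (ZMod p) W := by
        nlinarith
      exact Nat.eq_of_mul_eq_mul_right h7 h10
    have h11 : X.card * q = (p + 1) * q := by
      have : p ^ 2 = (p + 1) * q + 1 := by rw [hq]; ring
      omega
    exact Nat.eq_of_mul_eq_mul_right (by omega) h11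
  rw [← h8, hX, ← Set.ncard_eq_toFinset_card _ (Set.toFinite _)]

omit [Finite A] in
theorem exists_map_eq [FiniteDimensional (ZMod p) A] (U V : Submodule (ZMod p) A)
    (h : finrank (ZMod p) U = finrank (ZMod p) V) :
    ∃ g : A ≃ₗ[ZMod p] A, U.map (g : A →ₗ[ZMod p] A) = V := by
  obtain ⟨C, hC⟩ := U.exists_isCompl
  obtain ⟨D, hD⟩ := V.exists_isCompl
  have h1 := Submodule.finrank_add_eq_of_isCompl hC
  have h2 := Submodule.finrank_add_eq_of_isCompl hD
  have h3 : finrank (ZMod p) C = finrank (ZMod p) D := by omega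
  let e₁ := LinearEquiv.ofFinrankEq U V h
  let e₂ := LinearEquiv.ofFinrankEq C D h3
  let g : A ≃ₗ[ZMod p] A := (Submodule.prodEquivOfIsCompl U C hC).symm ≪≫ₗ (e₁.prodCongr e₂) ≪≫ₗ
    Submodule.prodEquivOfIsCompl V D hD
  have hg : ∀ u : U, g u = (e₁ u : A) := by
    intro u
    simp only [g, LinearEquiv.trans_apply]
    rw [Submodule.prodEquivOfIsCompl_symm_apply_left]
    simp
  refine ⟨g, Submodule.eq_of_le_of_finrank_eq ?_ ?_⟩
  · rintro _ ⟨u, hu, rfl⟩
    have := hg ⟨u, hu⟩
    simp only [LinearEquiv.coe_coe]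
    rw [this]
    exact (e₁ ⟨u, hu⟩).2
  · rw [LinearEquiv.finrank_map_eq, h]

/-- The subspaces of codimension two below `U`. -/
def below (U : Submodule (ZMod p) A) : Set (Submodule (ZMod p) A) :=
  {W | W ≤ U ∧ W ∈ codim p A 2}

theorem below_card (U V : Submodule (ZMod p) A) (hU : U ∈ codim p A 1) (hV : V ∈ codim p A 1) :
    (below U).ncard = (below V).ncard := by
  have h : finrank (ZMod p) U = finrank (ZMod p) V := by
    have h1 : finrank (ZMod p) U + 1 = finrank (ZMod p) A := hU
    have h2 : finrank (ZMod p) V + 1 = finrank (ZMod p) A := hV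
    omega
  obtain ⟨g, hg⟩ := exists_map_eq U V h
  have h3 : below V = (fun W => W.map (g : A →ₗ[ZMod p] A)) '' below U := by
    ext W
    constructor
    · rintro ⟨h4, h5⟩
      refine ⟨W.map (g.symm : A →ₗ[ZMod p] A), ⟨?_, ?_⟩, ?_⟩
      · rw [← hg] at h4
        rintro _ ⟨w, hw, rfl⟩
        obtain ⟨u, hu, h6⟩ := h4 hw
        rw [← h6]
        simpa using hu
      · change finrank (ZMod p) _ + 2 = _
        rw [LinearEquiv.finrank_map_eq]
        exact h5
      · ext x
        simp [Submodule.mem_map]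
    · rintro ⟨W', ⟨h4, h5⟩, rfl⟩
      refine ⟨?_, ?_⟩
      · rw [← hg]
        exact Submodule.map_mono h4
      · change finrank (ZMod p) _ + 2 = _
        rw [LinearEquiv.finrank_map_eq]
        exact h5
  rw [h3, Set.ncard_image_of_injective]
  exact Submodule.map_injective_of_injective g.injective

/-- **The double counting.** -/
theorem count (b₁ b₂ : Set (Submodule (ZMod p) A))
    (hb : ∀ W ∈ codim p A 2, W ∈ b₂ ∨ ∃ U ∈ above W, U ∈ b₁) :
    (codim p A 1).ncard * (codim p A 2).ncard ≤
      (codim p A 1).ncard * (b₂ ∩ codim p A 2).ncard +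
        (p + 1) * (codim p A 2).ncard * (b₁ ∩ codim p A 1).ncard := by
  classical
  haveI : Fintype A := Fintype.ofFinite A
  haveI : Finite (Submodule (ZMod p) A) := inferInstance
  haveI : Fintype (Submodule (ZMod p) A) := Fintype.ofFinite _
  set I₁ : Finset (Submodule (ZMod p) A) := Finset.univ.filter (· ∈ codim p A 1) with hI₁
  set I₂ : Finset (Submodule (ZMod p) A) := Finset.univ.filter (· ∈ codim p A 2) with hI₂
  have e₁ : (codim p A 1).ncard = I₁.card := by
    rw [Set.ncard_eq_toFinset_card']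
    congr 1
    ext W
    simp [hI₁]
  have e₂ : (codim p A 2).ncard = I₂.card := by
    rw [Set.ncard_eq_toFinset_card']
    congr 1
    ext W
    simp [hI₂]
  have e₃ : (b₁ ∩ codim p A 1).ncard = (I₁.filter (· ∈ b₁)).card := by
    rw [Set.ncard_eq_toFinset_card']
    congr 1
    ext W
    simp [hI₁, and_comm]
  have e₄ : (b₂ ∩ codim p A 2).ncard = (I₂.filter (· ∈ b₂)).card := by
    rw [Set.ncard_eq_toFinset_card']
    congr 1
    ext W
    simp [hI₂, and_comm]
  rw [e₁, e₂, e₃, e₄]
  have habove : ∀ W ∈ I₂, (I₁.filter (W ≤ ·)).card = p + 1 := by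
    intro W hW
    have hW' : W ∈ codim p A 2 := by simpa [hI₂] using hW
    rw [← above_card W hW', Set.ncard_eq_toFinset_card']
    congr 1
    ext U
    have h1 : finrank (ZMod p) W + 2 = finrank (ZMod p) A := hW'
    simp only [hI₁, Finset.mem_filter, Finset.mem_univ, true_and, Set.mem_toFinset, above, codim,
      Set.mem_setOf_eq]
    constructor
    · rintro ⟨h2, h3⟩
      exact ⟨h3, by omega⟩
    · rintro ⟨h2, h3⟩
      exact ⟨by omega, h2⟩
  rcases I₁.eq_empty_or_nonempty with h0 | ⟨U₀, hU₀⟩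
  · rw [h0]
    simp
  set c := (below U₀).ncard with hc
  have hbelow : ∀ U ∈ I₁, (I₂.filter (· ≤ U)).card = c := by
    intro U hU
    rw [hc, below_card U₀ U (by simpa [hI₁] using hU₀) (by simpa [hI₁] using hU),
      Set.ncard_eq_toFinset_card']
    congr 1
    ext W
    simp only [hI₂, Finset.mem_filter, Finset.mem_univ, true_and, Set.mem_toFinset, below,
      Set.mem_setOf_eq]
    exact and_comm
  -- the number of incidences
  have hinc : I₂.card * (p + 1) = I₁.card * c := by
    have h1 := Finset.sum_card_bipartiteAbove_eq_sum_card_bipartiteBelow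
      (s := I₂) (t := I₁) (fun W U => W ≤ U)
    simp only [Finset.bipartiteAbove, Finset.bipartiteBelow] at h1
    rw [Finset.sum_congr rfl habove, Finset.sum_congr rfl hbelow] at h1
    simpa using h1
  have hmain : I₂.card ≤ (I₂.filter (· ∈ b₂)).card + c * (I₁.filter (· ∈ b₁)).card := by
    have h1 : I₂ ⊆ I₂.filter (· ∈ b₂) ∪ (I₁.filter (· ∈ b₁)).biUnion (fun U => I₂.filter (· ≤ U)) := by
      intro W hW
      rw [Finset.mem_union]
      have hW' : W ∈ codim p A 2 := by simpa [hI₂] using hW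
      rcases hb W hW' with h | ⟨U, hU, h⟩
      · exact Or.inl (Finset.mem_filter.2 ⟨hW, h⟩)
      · refine Or.inr (Finset.mem_biUnion.2 ⟨U, Finset.mem_filter.2 ⟨?_, h⟩,
          Finset.mem_filter.2 ⟨hW, hU.1⟩⟩)
        have h2 : finrank (ZMod p) W + 2 = finrank (ZMod p) A := hW'
        have h3 := hU.2
        simp only [hI₁, Finset.mem_filter, Finset.mem_univ, true_and, codim, Set.mem_setOf_eq]
        omega
    refine (Finset.card_le_card h1).trans ((Finset.card_union_le _ _).trans ?_)
    refine Nat.add_le_add_left ?_ _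
    refine (Finset.card_biUnion_le).trans ?_
    rw [Finset.sum_congr rfl (fun U hU => hbelow U (Finset.mem_filter.1 hU).1)]
    rw [Finset.sum_const, smul_eq_mul, mul_comm]
  calc I₁.card * I₂.card
      ≤ I₁.card * ((I₂.filter (· ∈ b₂)).card + c * (I₁.filter (· ∈ b₁)).card) :=
        Nat.mul_le_mul_left _ hmain
    _ = I₁.card * (I₂.filter (· ∈ b₂)).card + (I₁.card * c) * (I₁.filter (· ∈ b₁)).card := by ring
    _ = _ := by rw [← hinc]; ring

end

end Pool.Agent.X208.BR
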