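import Pool.Agent.X208.BR.Count

/-!
# Double counting of subspaces of codimensions `j < k`
-/

set_option autoImplicit false

open Module

namespace Pool.Agent.X208.BR

section

variable {p : ℕ} [hp : Fact p.Prime] {A : Type} [AddCommGroup A] [Module (ZMod p) A] [Finite A]

/-- The subspaces of codimension `j` above `X`. -/
def aboveJ (X : Submodule (ZMod p) A) (j : ℕ) : Set (Submodule (ZMod p) A) :=
  {U | X ≤ U ∧ U ∈ codim p A j}

/-- The subspaces of codimension `k` below `U`. -/
def belowK (U : Submodule (ZMod p) A) (k : ℕ) : Set (Submodule (ZMod p) A) :=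
  {W | W ≤ U ∧ W ∈ codim p A k}

omit [Finite A] in
theorem map_mem_codim (g : A ≃ₗ[ZMod p] A) {W : Submodule (ZMod p) A} {j : ℕ}
    (hW : W ∈ codim p A j) : W.map (g : A →ₗ[ZMod p] A) ∈ codim p A j := by
  change finrank (ZMod p) _ + j = _
  rw [LinearEquiv.finrank_map_eq]
  exact hW

omit [Finite A] in
theorem map_symm_map (g : A ≃ₗ[ZMod p] A) (W : Submodule (ZMod p) A) :
    (W.map (g.symm : A →ₗ[ZMod p] A)).map (g : A →ₗ[ZMod p] A) = W := by
  ext x
  simp

omit [Finite A] in
theorem map_le_iff (g : A ≃ₗ[ZMod p] A) (W U : Submodule (ZMod p) A) :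
    W.map (g : A →ₗ[ZMod p] A) ≤ U ↔ W ≤ U.map (g.symm : A →ₗ[ZMod p] A) := by
  constructor
  · intro h w hw
    refine ⟨g w, h ⟨w, hw, rfl⟩, ?_⟩
    simp
  · rintro h _ ⟨w, hw, rfl⟩
    obtain ⟨u, hu, he⟩ := h hw
    have : g w = u := by rw [← he]; simp
    simp only [LinearEquiv.coe_coe]
    rw [this]
    exact hu

theorem aboveJ_card (X Y : Submodule (ZMod p) A) (j : ℕ)
    (h : finrank (ZMod p) X = finrank (ZMod p) Y) : (aboveJ X j).ncard = (aboveJ Y j).ncard := by
  obtain ⟨g, hg⟩ := exists_map_eq X Y h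
  have h3 : aboveJ Y j = (fun W => W.map (g : A →ₗ[ZMod p] A)) '' aboveJ X j := by
    ext W
    constructor
    · rintro ⟨h4, h5⟩
      refine ⟨W.map (g.symm : A →ₗ[ZMod p] A), ⟨?_, map_mem_codim g.symm h5⟩, map_symm_map g W⟩
      rw [← map_le_iff, hg]
      exact h4
    · rintro ⟨W', ⟨h4, h5⟩, rfl⟩
      refine ⟨?_, map_mem_codim g h5⟩
      rw [← hg]
      exact Submodule.map_mono h4
  rw [h3, Set.ncard_image_of_injective]
  exact Submodule.map_injective_of_injective g.injective

theorem belowK_card (U V : Submodule (ZMod p) A) (k : ℕ)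
    (h : finrank (ZMod p) U = finrank (ZMod p) V) : (belowK U k).ncard = (belowK V k).ncard := by
  obtain ⟨g, hg⟩ := exists_map_eq U V h
  have h3 : belowK V k = (fun W => W.map (g : A →ₗ[ZMod p] A)) '' belowK U k := by
    ext W
    constructor
    · rintro ⟨h4, h5⟩
      refine ⟨W.map (g.symm : A →ₗ[ZMod p] A), ⟨?_, map_mem_codim g.symm h5⟩, map_symm_map g W⟩
      have h6 : V.map (g.symm : A →ₗ[ZMod p] A) = U := by
        rw [← hg]
        exact map_symm_map g.symm U
      rw [← h6]
      exact Submodule.map_mono h4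
    · rintro ⟨W', ⟨h4, h5⟩, rfl⟩
      refine ⟨?_, map_mem_codim g h5⟩
      rw [← hg]
      exact Submodule.map_mono h4
  rw [h3, Set.ncard_image_of_injective]
  exact Submodule.map_injective_of_injective g.injective

/-- A subspace of codimension `j` above a given subspace of codimension at least `j`. -/
theorem exists_aboveJ (X : Submodule (ZMod p) A) {j : ℕ}
    (h : finrank (ZMod p) X + j ≤ finrank (ZMod p) A) : (aboveJ X j).Nonempty := by
  obtain ⟨n, hn⟩ : ∃ n, finrank (ZMod p) X + j + n = finrank (ZMod p) A :=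
    ⟨finrank (ZMod p) A - (finrank (ZMod p) X + j), by omega⟩
  induction n generalizing X with
  | zero => exact ⟨X, le_rfl, by change finrank (ZMod p) X + j = _; omega⟩
  | succ n ih =>
    have h1 : X ≠ ⊤ := by
      intro h2
      rw [h2, finrank_top] at hn
      omega
    obtain ⟨a, ha⟩ : ∃ a, a ∉ X := by
      by_contra hcon
      push Not at hcon
      exact h1 (by ext a; simp [hcon a])
    have h2 := sup_span_finrank X ha
    obtain ⟨U, hU1, hU2⟩ := ih (X ⊔ Submodule.span (ZMod p) {a}) (by omega) (by omega)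
    exact ⟨U, le_sup_left.trans hU1, hU2⟩

/-- **The double counting.** -/
theorem count2 {j k : ℕ} (b₁ b₂ : Set (Submodule (ZMod p) A))
    (hb : ∀ W ∈ codim p A k, W ∈ b₂ ∨ ∃ U ∈ aboveJ W j, U ∈ b₁) (N : ℕ)
    (hN : ∀ W ∈ codim p A k, (aboveJ W j).ncard = N) :
    (codim p A j).ncard * (codim p A k).ncard ≤
      (codim p A j).ncard * (b₂ ∩ codim p A k).ncard +
        N * (codim p A k).ncard * (b₁ ∩ codim p A j).ncard := by
  classical
  haveI : Fintype A := Fintype.ofFinite A
  haveI : Finite (Submodule (ZMod p) A) := inferInstance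
  haveI : Fintype (Submodule (ZMod p) A) := Fintype.ofFinite _
  set I₁ : Finset (Submodule (ZMod p) A) := Finset.univ.filter (· ∈ codim p A j) with hI₁
  set I₂ : Finset (Submodule (ZMod p) A) := Finset.univ.filter (· ∈ codim p A k) with hI₂
  have e₁ : (codim p A j).ncard = I₁.card := by
    rw [Set.ncard_eq_toFinset_card']
    congr 1
    ext W
    simp [hI₁]
  have e₂ : (codim p A k).ncard = I₂.card := by
    rw [Set.ncard_eq_toFinset_card']
    congr 1
    ext W
    simp [hI₂]
  have e₃ : (b₁ ∩ codim p A j).ncard = (I₁.filter (· ∈ b₁)).card := by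
    rw [Set.ncard_eq_toFinset_card']
    congr 1
    ext W
    simp [hI₁, and_comm]
  have e₄ : (b₂ ∩ codim p A k).ncard = (I₂.filter (· ∈ b₂)).card := by
    rw [Set.ncard_eq_toFinset_card']
    congr 1
    ext W
    simp [hI₂, and_comm]
  rw [e₁, e₂, e₃, e₄]
  have habove : ∀ W ∈ I₂, (I₁.filter (W ≤ ·)).card = N := by
    intro W hW
    have hW' : W ∈ codim p A k := by simpa [hI₂] using hW
    rw [← hN W hW', Set.ncard_eq_toFinset_card']
    congr 1
    ext U
    simp only [hI₁, Finset.mem_filter, Finset.mem_univ, true_and, Set.mem_toFinset, aboveJ,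
      Set.mem_setOf_eq]
    exact and_comm
  rcases I₁.eq_empty_or_nonempty with h0 | ⟨U₀, hU₀⟩
  · rw [h0]
    simp
  set c := (belowK U₀ k).ncard with hc
  have hbelow : ∀ U ∈ I₁, (I₂.filter (· ≤ U)).card = c := by
    intro U hU
    have hU' : U ∈ codim p A j := by simpa [hI₁] using hU
    have hU₀' : U₀ ∈ codim p A j := by simpa [hI₁] using hU₀
    have h1 : finrank (ZMod p) U₀ = finrank (ZMod p) U := by
      have h2 : finrank (ZMod p) U + j = finrank (ZMod p) A := hU'
      have h3 : finrank (ZMod p) U₀ + j = finrank (ZMod p) A := hU₀'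
      omega
    rw [hc, belowK_card U₀ U k h1, Set.ncard_eq_toFinset_card']
    congr 1
    ext W
    simp only [hI₂, Finset.mem_filter, Finset.mem_univ, true_and, Set.mem_toFinset, belowK,
      Set.mem_setOf_eq]
    exact and_comm
  have hinc : I₂.card * N = I₁.card * c := by
    have h1 := Finset.sum_card_bipartiteAbove_eq_sum_card_bipartiteBelow
      (s := I₂) (t := I₁) (fun W U => W ≤ U)
    simp only [Finset.bipartiteAbove, Finset.bipartiteBelow] at h1
    rw [Finset.sum_congr rfl habove, Finset.sum_congr rfl hbelow] at h1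
    simpa using h1
  have hmain : I₂.card ≤ (I₂.filter (· ∈ b₂)).card + c * (I₁.filter (· ∈ b₁)).card := by
    have h1 : I₂ ⊆ I₂.filter (· ∈ b₂) ∪ (I₁.filter (· ∈ b₁)).biUnion (fun U => I₂.filter (· ≤ U)) := by
      intro W hW
      rw [Finset.mem_union]
      have hW' : W ∈ codim p A k := by simpa [hI₂] using hW
      rcases hb W hW' with h | ⟨U, hU, h⟩
      · exact Or.inl (Finset.mem_filter.2 ⟨hW, h⟩)
      · refine Or.inr (Finset.mem_biUnion.2 ⟨U, Finset.mem_filter.2 ⟨?_, h⟩,
          Finset.mem_filter.2 ⟨hW, hU.1⟩⟩)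
        simpa [hI₁] using hU.2
    refine (Finset.card_le_card h1).trans ((Finset.card_union_le _ _).trans ?_)
    refine Nat.add_le_add_left ?_ _
    refine (Finset.card_biUnion_le).trans ?_
    rw [Finset.sum_congr rfl (fun U hU => hbelow U (Finset.mem_filter.1 hU).1)]
    rw [Finset.sum_const, smul_eq_mul, mul_comm]
  calc I₁.card * I₂.card
      ≤ I₁.card * ((I₂.filter (· ∈ b₂)).card + c * (I₁.filter (· ∈ b₁)).card) :=
        Nat.mul_le_mul_left _ hmain
    _ = I₁.card * (I₂.filter (· ∈ b₂)).card + (I₁.card * c) * (I₁.filter (· ∈ b₁)).card := by ring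
    _ = _ := by rw [← hinc]; ring

end

end Pool.Agent.X208.BR
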