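import Pool.Agent.X208.BR.PermDefs

/-!
# Sets of primes and splitting in abelian fields
-/

set_option autoImplicit false

open Filter Topology
open scoped ENNReal

namespace Pool.Agent.X208.BR.Pk

/-- The field of rational numbers. -/
noncomputable def fieldQ : Fld := (⊥ : IntermediateField ℚ (AlgebraicClosure ℚ))

/-- The number of the primes `q ≤ x` in `S`. -/
noncomputable def primeCount (S : Set ℕ) (x : ℝ) : ℕ := {q : ℕ | q.Prime ∧ (q : ℝ) ≤ x ∧ q ∈ S}.ncard

/-- **A set of primes and the densities predicted for it.** `S` is a set of primes, `frob q` a Frobenius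
element at (a place above) the prime `q`, and `pred K'` is the natural density predicted for the primes of `S`
which split completely in the abelian field `K'` (`S = S(F, C, W, k)` and
`pred K' = δ(F K', C', W, k)`, `C'` the elements of `C × {1}` in `Gal(F K'/ℚ)`). The predicted densities
respect Brauer relations and are at most `1 / [K' : ℚ]`, which by Chebotarev's theorem is the density of
the primes which split completely in `K'`. -/
structure PrimeData where
  S : Set ℕ
  frob : ℕ → GalQ
  pred : Fld → ℝ
  chebotarev : ∀ (p : ℕ) (M : Fld), p.Prime → IsElementary p fieldQ M → ∀ K', fieldQ ≤ K' → K' ≤ M →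
    Tendsto (fun x : ℝ => (primeCount {q | frob q ∈ G K'} x : ℝ) / primeCount Set.univ x) atTop
      (𝓝 (1 / deg K'))
  nonneg : ∀ K', 0 ≤ pred K'
  le : ∀ (p : ℕ) (M : Fld), p.Prime → IsElementary p fieldQ M → ∀ K', fieldQ ≤ K' → K' ≤ M →
    deg K' * pred K' ≤ 1
  brauer : ∀ (p : ℕ) (M : Fld), p.Prime → IsElementary p fieldQ M →
    ∀ (ι κ : Type) (_ : Fintype ι) (_ : Fintype κ) (A : ι → Fld) (B : κ → Fld),
      BrauerRel fieldQ M A B → ∑ i, deg (A i) * pred (A i) = ∑ j, deg (B j) * pred (B j)

namespace PrimeData

variable (P : PrimeData)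

/-- The proportion, among all primes `q ≤ x`, of those in `S` which split completely in `K'`. -/
noncomputable def prop (K' : Fld) (x : ℝ) : ℝ :=
  (primeCount {q | q ∈ P.S ∧ P.frob q ∈ G K'} x : ℝ) / primeCount Set.univ x

/-- The density of the primes in `S` which split completely in `K'` is the predicted one. -/
def Law (K' : Fld) : Prop := Tendsto (P.prop K') atTop (𝓝 (P.pred K'))

/-- The relative discrepancy over `K'`: `[K' : ℚ]` times the upper limit of the distance from the proportion
to the predicted density. -/
noncomputable def disc (K' : Fld) : ℝ≥0∞ :=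
  deg K' * limsup (fun x => ‖((P.prop K' x - P.pred K' : ℝ) : ℂ)‖ₑ) atTop

/-- The fields of the layer over which the density is not the predicted one. -/
def failing (M : Fld) (n : ℕ) : Set Fld := {K' | K' ∈ layer fieldQ M n ∧ ¬ P.Law K'}

end PrimeData

end Pool.Agent.X208.BR.Pk
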