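import Mathlib

/-!
# Inductive invariants of Artin characters

Number fields are subfields of a fixed algebraic closure of `ℚ`; the absolute Galois group of a
number field `K` is the subgroup `GK K` of `Gal(ℚ̄/ℚ)`.
-/

set_option autoImplicit false

open Module

namespace Pool.Agent.X208.BR

/-- The field of algebraic numbers. -/
noncomputable abbrev Qb : Type := AlgebraicClosure ℚ

/-- The absolute Galois group of the field `K`. -/
noncomputable abbrev GK (K : IntermediateField ℚ Qb) : Subgroup Gal(Qb/ℚ) := K.fixingSubgroup

/-- `χ` is the character of a complex representation of finite dimension of the absolute Galois group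
of `K` which is trivial on the absolute Galois group of some number field (so of a representation of
`Gal(L/K)` for a finite Galois extension `L/K`). -/
def IsArtinChar (K : IntermediateField ℚ Qb) (χ : GK K → ℂ) : Prop :=
  ∃ (ι : Type) (_ : Fintype ι) (_ : DecidableEq ι) (ρ : GK K →* Matrix ι ι ℂ),
    (∃ L : IntermediateField ℚ Qb, FiniteDimensional ℚ L ∧
      ∀ g : GK K, (g : Gal(Qb/ℚ)) ∈ GK L → ρ g = 1) ∧
    ∀ g, χ g = (ρ g).trace

/-- The restriction of a function on `GK K` to `GK K'`, for a larger field `K'`. -/
def res {K K' : IntermediateField ℚ Qb} (h : K ≤ K') (χ : GK K → ℂ) : GK K' → ℂ :=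
  fun g => χ ⟨g, IntermediateField.fixingSubgroup_antitone h g.2⟩

open Classical in
/-- The induction of a function on `GK K'` to `GK K`, for a smaller field `K`:
`(Ind χ)(g) = ∑_x χ(x⁻¹ g x)`, where `x` runs over representatives of `GK K / GK K'`, and the terms
with `x⁻¹ g x ∉ GK K'` are left out. -/
noncomputable def ind {K K' : IntermediateField ℚ Qb} (_h : K ≤ K') (χ : GK K' → ℂ) : GK K → ℂ :=
  fun g => ∑ᶠ x : GK K ⧸ (GK K').subgroupOf (GK K),
    if hx : ((x.out⁻¹ * g * x.out : GK K) : Gal(Qb/ℚ)) ∈ GK K' then χ ⟨_, hx⟩ else 0

/-- An inductive invariant of the Artin characters of all number fields with values in the commutative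
group `V` (written multiplicatively): additive in the character, and invariant under induction. -/
structure Inductive (V : Type) [CommGroup V] where
  /-- The value at the character `χ` of the number field `K`. -/
  d : (K : IntermediateField ℚ Qb) → (GK K → ℂ) → V
  add : ∀ (K : IntermediateField ℚ Qb) (χ ψ : GK K → ℂ), FiniteDimensional ℚ K →
    IsArtinChar K χ → IsArtinChar K ψ → d K (χ + ψ) = d K χ * d K ψ
  ind : ∀ (K K' : IntermediateField ℚ Qb) (h : K ≤ K') (χ : GK K' → ℂ), FiniteDimensional ℚ K' →
    IsArtinChar K' χ → IsArtinChar K (ind h χ) → d K (ind h χ) = d K' χ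

/-- `M/K` is an extension of number fields, Galois with an elementary abelian group of exponent `p`:
commutators and `p`-th powers of elements of `GK K` are in `GK M`. -/
structure IsElementary (p : ℕ) (K M : IntermediateField ℚ Qb) : Prop where
  le : K ≤ M
  fin : FiniteDimensional ℚ M
  comm : ∀ g ∈ GK K, ∀ h ∈ GK K, g * h * g⁻¹ * h⁻¹ ∈ GK M
  pow : ∀ g ∈ GK K, g ^ p ∈ GK M

/-- The fields between `K` and `M` of degree `m` over `K`. -/
def layer (K M : IntermediateField ℚ Qb) (m : ℕ) : Set (IntermediateField ℚ Qb) :=
  {K' | K ≤ K' ∧ K' ≤ M ∧ finrank ℚ K' = m * finrank ℚ K}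

end Pool.Agent.X208.BR
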