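import Pool.Agent.X208.BR.Tor

/-!
# Functions with values in a ring, modulo the elements of a field of coefficients
-/

set_option autoImplicit false

open Module

namespace Pool.Agent.X208.BR.Pk.Ratio

variable {E R : Type} [Field E] [CommRing R] (φ : E →+* R)

/-- The nonzero elements of `E` as units of `R`. -/
def sub : Subgroup Rˣ := (Units.map φ.toMonoidHom).range

theorem mem_sub [Nontrivial R] (x : Rˣ) : x ∈ sub φ ↔ ∃ e : E, (x : R) = φ e := by
  constructor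
  · rintro ⟨q, rfl⟩
    exact ⟨q, rfl⟩
  · rintro ⟨q, hq⟩
    have h0 : q ≠ 0 := by
      rintro rfl
      exact x.ne_zero (by simpa using hq)
    refine ⟨Units.mk0 q h0, Units.ext ?_⟩
    rw [hq]
    rfl

variable (r : Fld → R)

open Classical in
/-- The class of the value. -/
noncomputable def cls (K' : Fld) : Additive (Rˣ ⧸ sub φ) :=
  if h : IsUnit (r K') then Additive.ofMul (QuotientGroup.mk h.unit) else 0

variable {r}

theorem nsmul_cls_eq_zero [Nontrivial R] {K' : Fld} (h : IsUnit (r K')) (n : ℕ) :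
    n • cls φ r K' = 0 ↔ ∃ e : E, r K' ^ n = φ e := by
  unfold cls
  rw [dif_pos h, ← ofMul_pow, ← ofMul_one, Additive.ofMul.injective.eq_iff, ← QuotientGroup.mk_pow,
    QuotientGroup.eq_one_iff, mem_sub]
  simp

theorem cls_eq_zero [Nontrivial R] {K' : Fld} (h : IsUnit (r K')) :
    cls φ r K' = 0 ↔ ∃ e : E, r K' = φ e := by
  have := nsmul_cls_eq_zero φ h 1
  rw [pow_one, show (1 : ℕ) • cls φ r K' = cls φ r K' from one_nsmul _] at this
  exact this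

theorem respects [Nontrivial R] {K M : Fld} (hu : ∀ K', K ≤ K' → K' ≤ M → IsUnit (r K'))
    (hbr : ∀ (ι κ : Type) (_ : Fintype ι) (_ : Fintype κ) (A : ι → Fld) (B : κ → Fld),
      BrauerRel K M A B → ∃ e : E, e ≠ 0 ∧ ∏ i, r (A i) = φ e * ∏ j, r (B j)) :
    Respects K M (cls φ r) := by
  classical
  intro ι κ _ _ A B hAB
  obtain ⟨q, hq, he⟩ := hbr ι κ _ _ A B hAB
  have hA : ∀ i, IsUnit (r (A i)) := fun i => hu _ (hAB.left i).1 (hAB.left i).2
  have hB : ∀ j, IsUnit (r (B j)) := fun j => hu _ (hAB.right j).1 (hAB.right j).2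
  have h1 : ∀ i, cls φ r (A i) = Additive.ofMul (QuotientGroup.mk (hA i).unit) := by
    intro i
    unfold cls
    rw [dif_pos (hA i)]
  have h2 : ∀ j, cls φ r (B j) = Additive.ofMul (QuotientGroup.mk (hB j).unit) := by
    intro j
    unfold cls
    rw [dif_pos (hB j)]
  rw [Finset.sum_congr rfl fun i _ => h1 i, Finset.sum_congr rfl fun j _ => h2 j, ← ofMul_prod,
    ← ofMul_prod]
  congr 1
  have h3 : (∏ i, (QuotientGroup.mk (hA i).unit : Rˣ ⧸ sub φ)) =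
      QuotientGroup.mk (∏ i, (hA i).unit) := (QuotientGroup.mk_prod (sub φ) _).symm
  have h4 : (∏ j, (QuotientGroup.mk (hB j).unit : Rˣ ⧸ sub φ)) =
      QuotientGroup.mk (∏ j, (hB j).unit) := (QuotientGroup.mk_prod (sub φ) _).symm
  rw [h3, h4, QuotientGroup.eq, mem_sub]
  refine ⟨q⁻¹, ?_⟩
  have h5 : ((∏ i, (hA i).unit : Rˣ) : R) = ∏ i, r (A i) := by
    rw [Units.coe_prod]
    exact Finset.prod_congr rfl fun i _ => (hA i).unit_spec
  have h6 : ((∏ j, (hB j).unit : Rˣ) : R) = ∏ j, r (B j) := by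
    rw [Units.coe_prod]
    exact Finset.prod_congr rfl fun j _ => (hB j).unit_spec
  have h7 : ((∏ i, (hA i).unit : Rˣ) : R) = φ q * ((∏ j, (hB j).unit : Rˣ) : R) := by
    rw [h5, h6, he]
  rw [Units.val_mul, Units.inv_mul_eq_iff_eq_mul, h7, mul_comm (φ q), mul_assoc, ← map_mul,
    mul_inv_cancel₀ hq, map_one, mul_one]

/-- The fields of the layer over which the value is not in `E`. -/
def failing (K M : Fld) (r : Fld → R) (n : ℕ) : Set Fld :=
  {K' | K' ∈ layer K M n ∧ ¬ ∃ e : E, r K' = φ e}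

theorem bad_eq [Nontrivial R] {K M : Fld} (hu : ∀ K', K ≤ K' → K' ≤ M → IsUnit (r K')) (n : ℕ) :
    bad K M (cls φ r) n = failing φ K M r n := by
  ext L
  constructor
  · rintro ⟨hL, hL'⟩
    exact ⟨hL, fun h1 => hL' ((cls_eq_zero φ (hu L hL.1 hL.2.1)).2 h1)⟩
  · rintro ⟨hL, hL'⟩
    exact ⟨hL, fun h1 => hL' ((cls_eq_zero φ (hu L hL.1 hL.2.1)).1 h1)⟩

/-- The law of two consecutive layers. -/
theorem law [Nontrivial R] {p : ℕ} (hp : p.Prime) {K M : Fld} (h : IsElementary p K M)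
    (hu : ∀ K', K ≤ K' → K' ≤ M → IsUnit (r K'))
    (hbr : ∀ (ι κ : Type) (_ : Fintype ι) (_ : Fintype κ) (A : ι → Fld) (B : κ → Fld),
      BrauerRel K M A B → ∃ e : E, e ≠ 0 ∧ ∏ i, r (A i) = φ e * ∏ j, r (B j)) {j : ℕ}
    (hne : ∀ e : E, r K ^ p ^ (j + 1) ≠ φ e) :
    (layer K M (p ^ j)).ncard * (layer K M (p ^ (j + 1))).ncard ≤
      (layer K M (p ^ j)).ncard * (failing φ K M r (p ^ (j + 1))).ncard +
        (∑ i ∈ Finset.range (j + 1), p ^ i) * (layer K M (p ^ (j + 1))).ncard *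
          (failing φ K M r (p ^ j)).ncard ∧
    (p ^ (j + 1) * deg K ≤ deg M → ∃ n, (n = p ^ j ∨ n = p ^ (j + 1)) ∧
      (failing φ K M r n).Nonempty) := by
  have hne' : p ^ (j + 1) • cls φ r K ≠ 0 := by
    intro h1
    obtain ⟨e, he⟩ := (nsmul_cls_eq_zero φ (hu K le_rfl h.le) _).1 h1
    exact hne e he
  have hr := respects φ hu hbr
  have h1 := adj_law hp h hr hne'
  rw [bad_eq φ hu, bad_eq φ hu] at h1
  refine ⟨h1, fun hd => ?_⟩
  have h2 := adj_exists hp h hr hne' hd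
  rw [bad_eq φ hu, bad_eq φ hu] at h2
  rcases h2 with h2 | h2
  · exact ⟨_, Or.inl rfl, h2⟩
  · exact ⟨_, Or.inr rfl, h2⟩

theorem exceptional [Nontrivial R] {K : Fld} (h0 : IsUnit (r K)) (h : ¬ ∃ e : E, r K = φ e) :
    ∃ p₀ : ℕ, ∀ p : ℕ, p.Prime → p ≠ p₀ → ∀ (n : ℕ) (e : E), r K ^ p ^ n ≠ φ e := by
  by_cases hall : ∃ p₀ n₀ : ℕ, p₀.Prime ∧ p₀ ^ n₀ • cls φ r K = 0
  · obtain ⟨p₀, n₀, hp₀, h1⟩ := hall
    refine ⟨p₀, fun p hp hne n e he => ?_⟩
    have h2 : p ^ n • cls φ r K = 0 := (nsmul_cls_eq_zero φ h0 _).2 ⟨e, he⟩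
    have h3 : Nat.Coprime (p ^ n) (p₀ ^ n₀) :=
      Nat.Coprime.pow _ _ ((Nat.coprime_primes hp hp₀).2 hne)
    have h4 : addOrderOf (cls φ r K) ∣ 1 := by
      rw [← h3.gcd_eq_one]
      exact Nat.dvd_gcd (addOrderOf_dvd_of_nsmul_eq_zero h2) (addOrderOf_dvd_of_nsmul_eq_zero h1)
    have h5 : cls φ r K = 0 := AddMonoid.addOrderOf_eq_one_iff.1 (Nat.dvd_one.1 h4)
    exact h ((cls_eq_zero φ h0).1 h5)
  · refine ⟨0, fun p hp _ n e he => hall ⟨p, n, hp, ?_⟩⟩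
    exact (nsmul_cls_eq_zero φ h0 _).2 ⟨e, he⟩

theorem alt_of_law {a b x y N : ℕ} (h : a * b ≤ a * y + N * b * x) :
    a ≤ (N + 1) * x ∨ b ≤ (N + 1) * y := by
  by_contra hcon
  push Not at hcon
  obtain ⟨h1, h2⟩ := hcon
  nlinarith [Nat.mul_le_mul_right b (Nat.succ_le_of_lt h1), Nat.mul_le_mul_left a (Nat.succ_le_of_lt h2)]

end Pool.Agent.X208.BR.Pk.Ratio
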