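import Pool.Agent.X208.BR.DelDefs
import Pool.Agent.X208.BR.Ratio

/-!
# Deligne's conjecture and consecutive layers
-/

set_option autoImplicit false

namespace Pool.Agent.X208.BR.Pk

namespace CriticalRatios

variable {K : Fld} (D : CriticalRatios K)

theorem isUnit {p : ℕ} {M : Fld} (h : D.Good p M) (K' : Fld) (h1 : K ≤ K') (h2 : K' ≤ M) :
    IsUnit (D.r K') := isUnit_iff_ne_zero.2 (h.ne K' h1 h2)

theorem failing_eq (M : Fld) (n : ℕ) :
    Ratio.failing (algebraMap ℚ ℂ) K M D.r n = D.failing M n := rfl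

theorem law {p : ℕ} {M : Fld} (h : D.Good p M) {j : ℕ}
    (hne : ∀ q : ℚ, D.r K ^ p ^ (j + 1) ≠ q) :
    (layer K M (p ^ j)).ncard * (layer K M (p ^ (j + 1))).ncard ≤
      (layer K M (p ^ j)).ncard * (D.failing M (p ^ (j + 1))).ncard +
        (∑ i ∈ Finset.range (j + 1), p ^ i) * (layer K M (p ^ (j + 1))).ncard *
          (D.failing M (p ^ j)).ncard ∧
    (p ^ (j + 1) * deg K ≤ deg M → ∃ n, (n = p ^ j ∨ n = p ^ (j + 1)) ∧
      (D.failing M n).Nonempty) :=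
  Ratio.law (algebraMap ℚ ℂ) h.prime h.elem (D.isUnit h)
    (D.brauer p M h.prime h.elem h.real h.ne) hne

theorem exceptional (h0 : D.r K ≠ 0) (h : ¬ D.Deligne K) :
    ∃ p₀ : ℕ, ∀ p : ℕ, p.Prime → p ≠ p₀ → ∀ (n : ℕ) (q : ℚ), D.r K ^ p ^ n ≠ q :=
  Ratio.exceptional (algebraMap ℚ ℂ) (isUnit_iff_ne_zero.2 h0) h

end CriticalRatios

namespace CoefRatios

variable {E : Type} [Field E] {K : Fld} (D : CoefRatios E K)

/-- The diagonal embedding. -/
def diag (E : Type) [Field E] : E →+* ((E →+* ℂ) → ℂ) := Pi.ringHom fun τ => τ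

theorem diag_apply (e : E) (τ : E →+* ℂ) : diag E e τ = τ e := rfl

theorem isUnit {p : ℕ} {M : Fld} (h : D.Good p M) (K' : Fld) (h1 : K ≤ K') (h2 : K' ≤ M) :
    IsUnit (D.r K') := by
  rw [Pi.isUnit_iff]
  exact fun τ => isUnit_iff_ne_zero.2 (h.ne K' h1 h2 τ)

theorem eq_diag (K' : Fld) (n : ℕ) :
    (∃ e : E, D.r K' ^ n = diag E e) ↔ ∃ e : E, ∀ τ, D.r K' τ ^ n = τ e := by
  constructor
  · rintro ⟨e, he⟩
    refine ⟨e, fun τ => ?_⟩
    have := congrFun he τ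
    rwa [Pi.pow_apply, diag_apply] at this
  · rintro ⟨e, he⟩
    exact ⟨e, funext he⟩

theorem eq_diag1 (K' : Fld) : (∃ e : E, D.r K' = diag E e) ↔ D.Holds K' := by
  have := D.eq_diag K' 1
  simp only [pow_one] at this
  exact this

theorem failing_eq (M : Fld) (n : ℕ) : Ratio.failing (diag E) K M D.r n = D.failing M n := by
  ext L
  exact and_congr_right fun _ => not_congr (D.eq_diag1 L)

variable [Nonempty (E →+* ℂ)]

theorem law {p : ℕ} {M : Fld} (h : D.Good p M) {j : ℕ}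
    (hne : ¬ ∃ e : E, ∀ τ, D.r K τ ^ p ^ (j + 1) = τ e) :
    (layer K M (p ^ j)).ncard * (layer K M (p ^ (j + 1))).ncard ≤
      (layer K M (p ^ j)).ncard * (D.failing M (p ^ (j + 1))).ncard +
        (∑ i ∈ Finset.range (j + 1), p ^ i) * (layer K M (p ^ (j + 1))).ncard *
          (D.failing M (p ^ j)).ncard ∧
    (p ^ (j + 1) * deg K ≤ deg M → ∃ n, (n = p ^ j ∨ n = p ^ (j + 1)) ∧
      (D.failing M n).Nonempty) := by
  have h1 := Ratio.law (diag E) h.prime h.elem (D.isUnit h) (fun ι κ _ _ A B hAB => by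
    obtain ⟨e, he, h2⟩ := D.brauer p M h.prime h.elem h.ne ι κ _ _ A B hAB
    refine ⟨e, he, funext fun τ => ?_⟩
    rw [Finset.prod_apply, Pi.mul_apply, Finset.prod_apply, diag_apply]
    exact h2 τ) (j := j) (fun e he => hne ((D.eq_diag K _).1 ⟨e, he⟩))
  simp only [D.failing_eq] at h1
  exact h1

theorem exceptional (h0 : ∀ τ, D.r K τ ≠ 0) (h : ¬ D.Holds K) :
    ∃ p₀ : ℕ, ∀ p : ℕ, p.Prime → p ≠ p₀ → ∀ n : ℕ, ¬ ∃ e : E, ∀ τ, D.r K τ ^ p ^ n = τ e := by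
  obtain ⟨p₀, hp₀⟩ := Ratio.exceptional (diag E) (r := D.r) (K := K)
    (Pi.isUnit_iff.2 fun τ => isUnit_iff_ne_zero.2 (h0 τ)) (fun h1 => h ((D.eq_diag1 K).1 h1))
  refine ⟨p₀, fun p hp hne n h1 => ?_⟩
  obtain ⟨e, he⟩ := (D.eq_diag K _).2 h1
  exact hp₀ p hp hne n e he

end CoefRatios

end Pool.Agent.X208.BR.Pk
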