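import Pool.Agent.X208.BR.BKDefs

/-!
# The critical values of the base changes of a motive, modulo the field of coefficients
-/

set_option autoImplicit false

namespace Pool.Agent.X208.BR.Pk

/-- **The critical values of a motive over totally real fields.** Let `N` be a critical motive over the
totally real number field `K`, with coefficients in `ℚ`. For a totally real number field `K' ⊃ K` the
restriction of scalars of `N_{K'}` is a critical motive over `ℚ`, and
`r K' = L(N_{K'}, 0) / c⁺(N_{K'})` is the quotient of its `L`-value and its period. `r` respects Brauer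
relations up to nonzero rational factors, since the two motives over `K` are isomorphic. -/
structure CriticalRatios (K : Fld) where
  r : Fld → ℂ
  brauer : ∀ (p : ℕ) (M : Fld), p.Prime → IsElementary p K M → IsTotReal M →
    (∀ K', K ≤ K' → K' ≤ M → r K' ≠ 0) →
    ∀ (ι κ : Type) (_ : Fintype ι) (_ : Fintype κ) (A : ι → Fld) (B : κ → Fld),
      BrauerRel K M A B → ∃ q : ℚ, q ≠ 0 ∧ ∏ i, r (A i) = q * ∏ j, r (B j)

namespace CriticalRatios

variable {K : Fld} (D : CriticalRatios K)

/-- Deligne's conjecture for `N_{K'}`. -/
def Deligne (K' : Fld) : Prop := ∃ q : ℚ, D.r K' = q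

/-- The fields of the layer for which the conjecture fails. -/
def failing (M : Fld) (n : ℕ) : Set Fld := {K' | K' ∈ layer K M n ∧ ¬ D.Deligne K'}

/-- `M` is totally real, `M/K` is elementary abelian of exponent `p`, and `L(N_{K'}, 0) ≠ 0` for all
the fields `K'` between. -/
structure Good (p : ℕ) (M : Fld) : Prop where
  prime : p.Prime
  elem : IsElementary p K M
  real : IsTotReal M
  ne : ∀ K', K ≤ K' → K' ≤ M → D.r K' ≠ 0

end CriticalRatios

/-- **Quotients of `L`-values and periods with coefficients in `E`.** A function `r` of number fields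
with values in `E ⊗ ℂ = ℂ^{Hom(E, ℂ)}` which respects Brauer relations up to factors in `E^×`. In use: `N`
is a motive over the number field `K` with coefficients in the number field `E`, and `r K'` is the quotient
of the `L`-value (or of a quotient of `L`-values) of the restriction of scalars to `ℚ` of `N_{K'}` and of
the number (period) with which the conjecture compares it. -/
structure CoefRatios (E : Type) [Field E] (K : Fld) where
  r : Fld → (E →+* ℂ) → ℂ
  brauer : ∀ (p : ℕ) (M : Fld), p.Prime → IsElementary p K M →
    (∀ K', K ≤ K' → K' ≤ M → ∀ τ, r K' τ ≠ 0) →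
    ∀ (ι κ : Type) (_ : Fintype ι) (_ : Fintype κ) (A : ι → Fld) (B : κ → Fld),
      BrauerRel K M A B → ∃ e : E, e ≠ 0 ∧ ∀ τ, ∏ i, r (A i) τ = τ e * ∏ j, r (B j) τ

namespace CoefRatios

variable {E : Type} [Field E] {K : Fld} (D : CoefRatios E K)

/-- The conjecture for `N_{K'}`: the quotient `r K'` is in `E`. -/
def Holds (K' : Fld) : Prop := ∃ e : E, ∀ τ, D.r K' τ = τ e

/-- The fields of the layer for which the conjecture fails. -/
def failing (M : Fld) (n : ℕ) : Set Fld := {K' | K' ∈ layer K M n ∧ ¬ D.Holds K'}

/-- `M/K` is elementary abelian of exponent `p`, and no component of the quotient over any field `K'`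
between vanishes. -/
structure Good (p : ℕ) (M : Fld) : Prop where
  prime : p.Prime
  elem : IsElementary p K M
  ne : ∀ K', K ≤ K' → K' ≤ M → ∀ τ, D.r K' τ ≠ 0

end CoefRatios

end Pool.Agent.X208.BR.Pk
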