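import Pool.Agent.X208.BR.PermDefs

/-!
# Central values of an elliptic curve over number fields, modulo rational numbers
-/

set_option autoImplicit false

namespace Pool.Agent.X208.BR.Pk

/-- The function `r` of the fields between `K` and `M` respects Brauer relations up to nonzero rational
factors. -/
def RespectsModQ (K M : Fld) (r : Fld → ℝ) : Prop :=
  ∀ (ι κ : Type) (_ : Fintype ι) (_ : Fintype κ) (A : ι → Fld) (B : κ → Fld),
    BrauerRel K M A B → ∃ q : ℚ, q ≠ 0 ∧ ∏ i, r (A i) = q * ∏ j, r (B j)

/-- **The normalised central values of an elliptic curve** `A` over the number field `K`: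
`r K' = L(1, A_{K'}) / Ω(A_{K'})` for the number fields `K' ⊃ K`. For an elementary abelian extension
`M/K` such that no `r K'` (`K ⊂ K' ⊂ M`) vanishes, `r` respects Brauer relations up to rational factors:
for `L(1, A_{K'})` by Artin's formalism, for `Ω(A_{K'}) = |d_{K'}|^{1/2} ∏ P_σ` since discriminants and the
numbers of real and complex places do. -/
structure CentralValues (K : Fld) where
  r : Fld → ℝ
  brauer : ∀ (p : ℕ) (M : Fld), p.Prime → IsElementary p K M →
    (∀ K', K ≤ K' → K' ≤ M → r K' ≠ 0) → RespectsModQ K M r

/-- `L(1, A_{K'})` is a rational multiple of `Ω(A_{K'})`. -/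
def CentralValues.Rational {K : Fld} (E : CentralValues K) (K' : Fld) : Prop :=
  ∃ q : ℚ, E.r K' = q

/-- The fields of the layer for which the central value is not a rational multiple of the period. -/
def CentralValues.failing {K : Fld} (E : CentralValues K) (M : Fld) (m : ℕ) : Set Fld :=
  {K' | K' ∈ layer K M m ∧ ¬ E.Rational K'}

/-- `M/K` is elementary abelian of exponent `p`, and `L(1, A_{K'}) ≠ 0` for all fields `K'` between. -/
structure CentralValues.Good {K : Fld} (E : CentralValues K) (p : ℕ) (M : Fld) : Prop where
  elem : IsElementary p K M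
  ne : ∀ K', K ≤ K' → K' ≤ M → E.r K' ≠ 0

end Pool.Agent.X208.BR.Pk
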