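import Pool.Agent.X208.BR.Perm3
import Pool.Agent.X208.BR.EllDefs

/-!
# Central values modulo rational numbers
-/

set_option autoImplicit false

namespace Pool.Agent.X208.BR.Pk

/-- The rational numbers as units of `ℝ`. -/
noncomputable def QR : Subgroup ℝˣ := (Units.map (algebraMap ℚ ℝ).toMonoidHom).range

theorem mem_QR (x : ℝˣ) : x ∈ QR ↔ ∃ q : ℚ, (x : ℝ) = q := by
  constructor
  · rintro ⟨q, rfl⟩
    exact ⟨q, rfl⟩
  · rintro ⟨q, hq⟩
    have h0 : q ≠ 0 := by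
      rintro rfl
      exact x.ne_zero (by simpa using hq)
    refine ⟨Units.mk0 q h0, Units.ext ?_⟩
    rw [hq]
    rfl

namespace CentralValues

variable {K : Fld} (E : CentralValues K)

open Classical in
/-- The class of the normalised central value. -/
noncomputable def cls (K' : Fld) : Additive (ℝˣ ⧸ QR) :=
  if h : E.r K' ≠ 0 then Additive.ofMul (QuotientGroup.mk (Units.mk0 (E.r K') h)) else 0

theorem cls_eq_zero {K' : Fld} (h : E.r K' ≠ 0) : E.cls K' = 0 ↔ E.Rational K' := by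
  unfold cls
  rw [dif_pos h, ← ofMul_one, Additive.ofMul.injective.eq_iff, QuotientGroup.eq_one_iff, mem_QR]
  rfl

theorem nsmul_cls_eq_zero {K' : Fld} (h : E.r K' ≠ 0) (n : ℕ) :
    n • E.cls K' = 0 ↔ ∃ q : ℚ, E.r K' ^ n = q := by
  unfold cls
  rw [dif_pos h, ← ofMul_pow, ← ofMul_one, Additive.ofMul.injective.eq_iff, ← QuotientGroup.mk_pow,
    QuotientGroup.eq_one_iff, mem_QR]
  simp

theorem respects {p : ℕ} {M : Fld} (hp : p.Prime) (h : E.Good p M) : Respects K M E.cls := by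
  classical
  intro ι κ _ _ A B hAB
  obtain ⟨q, hq, he⟩ := E.brauer p M hp h.elem h.ne ι κ _ _ A B hAB
  have hA : ∀ i, E.r (A i) ≠ 0 := fun i => h.ne _ (hAB.left i).1 (hAB.left i).2
  have hB : ∀ j, E.r (B j) ≠ 0 := fun j => h.ne _ (hAB.right j).1 (hAB.right j).2
  have h1 : ∀ i, E.cls (A i) = Additive.ofMul (QuotientGroup.mk (Units.mk0 (E.r (A i)) (hA i))) := by
    intro i
    unfold cls
    rw [dif_pos (hA i)]
  have h2 : ∀ j, E.cls (B j) = Additive.ofMul (QuotientGroup.mk (Units.mk0 (E.r (B j)) (hB j))) := by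
    intro j
    unfold cls
    rw [dif_pos (hB j)]
  rw [Finset.sum_congr rfl fun i _ => h1 i, Finset.sum_congr rfl fun j _ => h2 j, ← ofMul_prod,
    ← ofMul_prod]
  congr 1
  have h3 : (∏ i, (QuotientGroup.mk (Units.mk0 (E.r (A i)) (hA i)) : ℝˣ ⧸ QR)) =
      QuotientGroup.mk (∏ i, Units.mk0 (E.r (A i)) (hA i)) :=
    (QuotientGroup.mk_prod QR _).symm
  have h4 : (∏ j, (QuotientGroup.mk (Units.mk0 (E.r (B j)) (hB j)) : ℝˣ ⧸ QR)) =
      QuotientGroup.mk (∏ j, Units.mk0 (E.r (B j)) (hB j)) :=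
    (QuotientGroup.mk_prod QR _).symm
  rw [h3, h4, QuotientGroup.eq, mem_QR]
  refine ⟨q⁻¹, ?_⟩
  have h5 : ((∏ i, Units.mk0 (E.r (A i)) (hA i) : ℝˣ) : ℝ) = ∏ i, E.r (A i) := by
    rw [Units.coe_prod]
    rfl
  have h6 : ((∏ j, Units.mk0 (E.r (B j)) (hB j) : ℝˣ) : ℝ) = ∏ j, E.r (B j) := by
    rw [Units.coe_prod]
    rfl
  rw [Units.val_mul, Units.val_inv_eq_inv_val, h5, h6, he]
  have h7 : ∏ j, E.r (B j) ≠ 0 := Finset.prod_ne_zero_iff.2 fun j _ => hB j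
  have h8 : (q : ℝ) ≠ 0 := by exact_mod_cast hq
  push_cast
  field_simp

theorem bad_eq {p : ℕ} {M : Fld} (h : E.Good p M) (n : ℕ) : bad K M E.cls n = E.failing M n := by
  ext L
  constructor
  · rintro ⟨hL, hL'⟩
    exact ⟨hL, fun h1 => hL' ((E.cls_eq_zero (h.ne L hL.1 hL.2.1)).2 h1)⟩
  · rintro ⟨hL, hL'⟩
    exact ⟨hL, fun h1 => hL' ((E.cls_eq_zero (h.ne L hL.1 hL.2.1)).1 h1)⟩

end CentralValues

theorem alt_of_ineq' {a b x y p : ℕ} (h : a * b ≤ a * y + (p + 1) * b * x) :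
    a ≤ (p + 2) * x ∨ b ≤ (p + 2) * y := alt_of_ineq h

namespace CentralValues

variable {K : Fld} (E : CentralValues K)

theorem exceptional (h0 : E.r K ≠ 0) (h : ¬ E.Rational K) :
    ∃ p₀ : ℕ, ∀ p : ℕ, p.Prime → p ≠ p₀ → ∀ q : ℚ, E.r K ^ p ≠ q := by
  have h1 : (QuotientGroup.mk (Units.mk0 (E.r K) h0) : ℝˣ ⧸ QR) ≠ 1 := by
    intro h2
    rw [QuotientGroup.eq_one_iff, mem_QR] at h2
    exact h h2
  obtain ⟨p₀, hp₀⟩ := exists_exceptional h1
  refine ⟨p₀, fun p hp hne q hq => hp₀ p hp hne ?_⟩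
  rw [← QuotientGroup.mk_pow, QuotientGroup.eq_one_iff, mem_QR]
  exact ⟨q, by rw [Units.val_pow_eq_pow_val]; exact hq⟩

end CentralValues

end Pool.Agent.X208.BR.Pk
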