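import Pool.Agent.X208.BR.Count
import Pool.Agent.X208.BR.Defs

/-!
# The fields between `K` and `M`, for an elementary abelian extension `M/K`
-/

set_option autoImplicit false

open Module

namespace Pool.Agent.X208.BR

theorem alg0 : (DivisionRing.toRatAlgebra : Algebra ℚ Qb) = AlgebraicClosure.instAlgebra ℚ :=
  Subsingleton.elim _ _

theorem alg1 : Algebra.IsAlgebraic ℚ Qb := by
  have h := AlgebraicClosure.isAlgebraic (k := ℚ)
  rw [alg0]
  exact h

instance instAC : IsAlgClosure ℚ Qb := ⟨inferInstance, alg1⟩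

instance instGal : IsGalois ℚ Qb :=
  have : Algebra.IsAlgebraic ℚ Qb := alg1
  have : Algebra.IsSeparable ℚ Qb := inferInstance
  have : Normal ℚ Qb := IsAlgClosure.normal ℚ Qb
  {}

theorem fin_of_le {K M : IntermediateField ℚ Qb} (h : K ≤ M) (hM : FiniteDimensional ℚ M) :
    FiniteDimensional ℚ K :=
  FiniteDimensional.of_injective (IntermediateField.inclusion h).toLinearMap
    (IntermediateField.inclusion h).injective

section

variable {p : ℕ} [hp : Fact p.Prime] {K M : IntermediateField ℚ Qb}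

/-- A model of the Galois group of an elementary abelian extension. -/
structure Model (p : ℕ) [Fact p.Prime] (K M : IntermediateField ℚ Qb) (A : Type) [AddCommGroup A]
    [Module (ZMod p) A] where
  π : GK K → A
  surj : Function.Surjective π
  mul : ∀ g h, π (g * h) = π g + π h
  ker : ∀ g, π g = 0 ↔ (g : Gal(Qb/ℚ)) ∈ GK M

theorem index_ne_zero {L : IntermediateField ℚ Qb} (h : FiniteDimensional ℚ L) :
    (GK L).index ≠ 0 := by
  rw [← IntermediateField.finrank_eq_fixingSubgroup_index]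
  exact (Module.finrank_pos (R := ℚ) (M := L)).ne'

theorem exists_model (h : IsElementary p K M) :
    ∃ (A : Type) (_ : AddCommGroup A) (_ : Module (ZMod p) A) (_ : Finite A),
      Nonempty (Model p K M A) := by
  classical
  let N : Subgroup (GK K) := (GK M).subgroupOf (GK K)
  have hN : N.Normal := by
    refine ⟨fun n hn g => ?_⟩
    have h1 : ((g * n * g⁻¹ : GK K) : Gal(Qb/ℚ)) =
        ((g : Gal(Qb/ℚ)) * n * (g : Gal(Qb/ℚ))⁻¹ * (n : Gal(Qb/ℚ))⁻¹) * n := by
      push_cast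
      group
    rw [Subgroup.mem_subgroupOf] at hn ⊢
    rw [h1]
    exact (GK M).mul_mem (h.comm g g.2 n n.2) hn
  have hcomm : ∀ a b : GK K ⧸ N, a * b = b * a := by
    intro a b
    obtain ⟨g, rfl⟩ := QuotientGroup.mk_surjective a
    obtain ⟨k, rfl⟩ := QuotientGroup.mk_surjective b
    rw [← QuotientGroup.mk_mul, ← QuotientGroup.mk_mul, QuotientGroup.eq, Subgroup.mem_subgroupOf]
    have h1 := h.comm (k⁻¹ : GK K) (k⁻¹ : GK K).2 (g⁻¹ : GK K) (g⁻¹ : GK K).2
    have h2 : (((g * k)⁻¹ * (k * g) : GK K) : Gal(Qb/ℚ)) =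
        ((k⁻¹ : GK K) : Gal(Qb/ℚ)) * ((g⁻¹ : GK K) : Gal(Qb/ℚ)) *
          ((k⁻¹ : GK K) : Gal(Qb/ℚ))⁻¹ * ((g⁻¹ : GK K) : Gal(Qb/ℚ))⁻¹ := by
      push_cast
      group
    rw [h2]
    exact h1
  letI : CommGroup (GK K ⧸ N) := { (inferInstance : Group (GK K ⧸ N)) with mul_comm := hcomm }
  have hfin : Finite (GK K ⧸ N) := by
    have h1 : N.index ≠ 0 := by
      have h2 : (GK M).relIndex (GK K) ≠ 0 := by
        intro h3
        have h4 := Subgroup.relIndex_mul_index (IntermediateField.fixingSubgroup_antitone h.le)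
        rw [h3, zero_mul] at h4
        exact index_ne_zero h.fin h4.symm
      exact h2
    exact Nat.finite_of_card_ne_zero h1
  have hpow : ∀ x : Additive (GK K ⧸ N), p • x = 0 := by
    intro x
    obtain ⟨a, rfl⟩ := Additive.ofMul.surjective x
    obtain ⟨g, rfl⟩ := QuotientGroup.mk_surjective a
    rw [← ofMul_pow, ← ofMul_one]
    congr 1
    rw [← QuotientGroup.mk_pow, QuotientGroup.eq_one_iff, Subgroup.mem_subgroupOf]
    exact h.pow g g.2
  letI : Module (ZMod p) (Additive (GK K ⧸ N)) := AddCommGroup.zmodModule hpow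
  refine ⟨Additive (GK K ⧸ N), inferInstance, inferInstance, inferInstance, ⟨⟨fun g =>
    Additive.ofMul (QuotientGroup.mk g), ?_, ?_, ?_⟩⟩⟩
  · exact Additive.ofMul.surjective.comp QuotientGroup.mk_surjective
  · intro g k
    rfl
  · intro g
    rw [← ofMul_one, Additive.ofMul.injective.eq_iff, QuotientGroup.eq_one_iff,
      Subgroup.mem_subgroupOf]

end

namespace Model

variable {p : ℕ} [hp : Fact p.Prime] {K M : IntermediateField ℚ Qb} {A : Type} [AddCommGroup A]
  [Module (ZMod p) A] (m : Model p K M A)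

theorem one : m.π 1 = 0 := by
  have := m.mul 1 1
  rw [one_mul] at this
  simpa using this

theorem inv (g : GK K) : m.π g⁻¹ = -m.π g := by
  have := m.mul g⁻¹ g
  rw [inv_mul_cancel, m.one] at this
  exact (neg_eq_of_add_eq_zero_left this.symm).symm

/-- The subgroup of a subspace. -/
def sub (W : Submodule (ZMod p) A) : Subgroup Gal(Qb/ℚ) where
  carrier := {g | ∃ h : g ∈ GK K, m.π ⟨g, h⟩ ∈ W}
  mul_mem' := by
    rintro a b ⟨ha, ha'⟩ ⟨hb, hb'⟩
    refine ⟨(GK K).mul_mem ha hb, ?_⟩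
    have := m.mul ⟨a, ha⟩ ⟨b, hb⟩
    have h2 : (⟨a * b, (GK K).mul_mem ha hb⟩ : GK K) = ⟨a, ha⟩ * ⟨b, hb⟩ := rfl
    rw [h2, this]
    exact W.add_mem ha' hb'
  one_mem' := ⟨(GK K).one_mem, by
    have h2 : (⟨1, (GK K).one_mem⟩ : GK K) = 1 := rfl
    rw [h2, m.one]
    exact W.zero_mem⟩
  inv_mem' := by
    rintro a ⟨ha, ha'⟩
    refine ⟨(GK K).inv_mem ha, ?_⟩
    have h2 : (⟨a⁻¹, (GK K).inv_mem ha⟩ : GK K) = (⟨a, ha⟩ : GK K)⁻¹ := rfl
    rw [h2, m.inv]
    exact W.neg_mem ha'

/-- The field of a subspace. -/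
noncomputable def fld (W : Submodule (ZMod p) A) : IntermediateField ℚ Qb :=
  IntermediateField.fixedField (m.sub W)

theorem mem_sub (W : Submodule (ZMod p) A) (g : GK K) :
    (g : Gal(Qb/ℚ)) ∈ m.sub W ↔ m.π g ∈ W :=
  ⟨fun ⟨_, h⟩ => h, fun h => ⟨g.2, h⟩⟩

theorem le_sub (h : IsElementary p K M) (W : Submodule (ZMod p) A) : GK M ≤ m.sub W := by
  intro g hg
  have h1 : g ∈ GK K := IntermediateField.fixingSubgroup_antitone h.le hg
  refine ⟨h1, ?_⟩
  rw [(m.ker ⟨g, h1⟩).2 hg]
  exact W.zero_mem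

theorem GK_fld (h : IsElementary p K M) (W : Submodule (ZMod p) A) : GK (m.fld W) = m.sub W := by
  have hM : IsOpen ((GK M : Subgroup Gal(Qb/ℚ)) : Set Gal(Qb/ℚ)) :=
    (InfiniteGalois.isOpen_iff_finite M).2 h.fin
  have h1 : IsOpen ((m.sub W : Subgroup Gal(Qb/ℚ)) : Set Gal(Qb/ℚ)) :=
    Subgroup.isOpen_mono (m.le_sub h W) hM
  have h2 : IsClosed ((m.sub W : Subgroup Gal(Qb/ℚ)) : Set Gal(Qb/ℚ)) :=
    Subgroup.isClosed_of_isOpen _ h1
  exact InfiniteGalois.fixingSubgroup_fixedField ⟨m.sub W, h2⟩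

theorem mem_fld (h : IsElementary p K M) (W : Submodule (ZMod p) A) (g : GK K) :
    (g : Gal(Qb/ℚ)) ∈ GK (m.fld W) ↔ m.π g ∈ W := by
  rw [m.GK_fld h W, m.mem_sub]

theorem le_of_GK {L L' : IntermediateField ℚ Qb} (h : GK L' ≤ GK L) : L ≤ L' := by
  have h1 : IntermediateField.fixedField (GK L) ≤ IntermediateField.fixedField (GK L') :=
    IntermediateField.fixedField_antitone h
  rwa [InfiniteGalois.fixedField_fixingSubgroup, InfiniteGalois.fixedField_fixingSubgroup] at h1

theorem eq_of_GK {L L' : IntermediateField ℚ Qb} (h : GK L = GK L') : L = L' :=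
  le_antisymm (le_of_GK h.ge) (le_of_GK h.le)

theorem K_le_fld (h : IsElementary p K M) (W : Submodule (ZMod p) A) : K ≤ m.fld W := by
  apply le_of_GK
  rw [m.GK_fld h W]
  rintro g ⟨hg, -⟩
  exact hg

theorem fld_le_M (h : IsElementary p K M) (W : Submodule (ZMod p) A) : m.fld W ≤ M := by
  apply le_of_GK
  rw [m.GK_fld h W]
  exact m.le_sub h W

theorem fld_injective (h : IsElementary p K M) : Function.Injective m.fld := by
  intro W W' he
  ext a
  obtain ⟨g, rfl⟩ := m.surj a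
  rw [← m.mem_fld h, he, m.mem_fld h]

theorem exists_fld (h : IsElementary p K M) {L : IntermediateField ℚ Qb} (h1 : K ≤ L) (h2 : L ≤ M) :
    ∃ W, m.fld W = L := by
  let S : AddSubgroup A :=
    { carrier := {a | ∃ g : GK K, (g : Gal(Qb/ℚ)) ∈ GK L ∧ m.π g = a}
      add_mem' := by
        rintro _ _ ⟨g, hg, rfl⟩ ⟨k, hk, rfl⟩
        exact ⟨g * k, (GK L).mul_mem hg hk, m.mul g k⟩
      zero_mem' := ⟨1, (GK L).one_mem, m.one⟩
      neg_mem' := by
        rintro _ ⟨g, hg, rfl⟩
        exact ⟨g⁻¹, (GK L).inv_mem hg, m.inv g⟩ }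
  refine ⟨AddSubgroup.toZModSubmodule p S, eq_of_GK ?_⟩
  rw [m.GK_fld h]
  ext g
  constructor
  · rintro ⟨hg, k, hk, he⟩
    have h3 : m.π (⟨g, hg⟩ * k⁻¹) = 0 := by
      rw [m.mul, m.inv, he, add_neg_cancel]
    rw [m.ker] at h3
    have h4 : ((⟨g, hg⟩ * k⁻¹ : GK K) : Gal(Qb/ℚ)) ∈ GK L :=
      IntermediateField.fixingSubgroup_antitone h2 h3
    have h5 := (GK L).mul_mem h4 hk
    simpa using h5
  · intro hg
    have h3 : g ∈ GK K := IntermediateField.fixingSubgroup_antitone h1 hg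
    exact ⟨h3, ⟨g, h3⟩, hg, rfl⟩

theorem fld_antitone_iff (h : IsElementary p K M) (W W' : Submodule (ZMod p) A) :
    m.fld W ≤ m.fld W' ↔ W' ≤ W := by
  constructor
  · intro h1 a ha
    obtain ⟨g, rfl⟩ := m.surj a
    rw [← m.mem_fld h] at ha ⊢
    exact IntermediateField.fixingSubgroup_antitone h1 ha
  · intro h1
    apply le_of_GK
    rw [m.GK_fld h, m.GK_fld h]
    rintro g ⟨hg, hg'⟩
    exact ⟨hg, h1 hg'⟩

theorem index_fld [Finite A] (h : IsElementary p K M) (W : Submodule (ZMod p) A) :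
    (GK (m.fld W)).relIndex (GK K) = p ^ (finrank (ZMod p) A - finrank (ZMod p) W) := by
  classical
  let f : GK K →* Multiplicative (A ⧸ W) :=
    { toFun := fun g => Multiplicative.ofAdd (W.mkQ (m.π g))
      map_one' := by rw [m.one, map_zero]; rfl
      map_mul' := fun g k => by rw [m.mul, map_add]; rfl }
  have hf : Function.Surjective f := by
    intro x
    obtain ⟨a, ha⟩ := W.mkQ_surjective (Multiplicative.toAdd x)
    obtain ⟨g, rfl⟩ := m.surj a
    exact ⟨g, by change Multiplicative.ofAdd (W.mkQ (m.π g)) = x; rw [ha]; rfl⟩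
  have hk : f.ker = (GK (m.fld W)).subgroupOf (GK K) := by
    ext g
    rw [MonoidHom.mem_ker, Subgroup.mem_subgroupOf, m.mem_fld h]
    change Multiplicative.ofAdd (W.mkQ (m.π g)) = Multiplicative.ofAdd 0 ↔ _
    rw [Multiplicative.ofAdd.injective.eq_iff, Submodule.mkQ_apply, Submodule.Quotient.mk_eq_zero]
  change ((GK (m.fld W)).subgroupOf (GK K)).index = _
  rw [← hk, Subgroup.index_ker, MonoidHom.range_eq_top.2 hf]
  have h1 : Nat.card (⊤ : Subgroup (Multiplicative (A ⧸ W))) = Nat.card (A ⧸ W) :=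
    Nat.card_congr (Subgroup.topEquiv.toEquiv.trans Multiplicative.toAdd)
  rw [h1, Module.natCard_eq_pow_finrank (K := ZMod p), Nat.card_zmod, Submodule.finrank_quotient]

theorem finrank_fld [Finite A] (h : IsElementary p K M) (W : Submodule (ZMod p) A) :
    finrank ℚ (m.fld W) = p ^ (finrank (ZMod p) A - finrank (ZMod p) W) * finrank ℚ K := by
  rw [IntermediateField.finrank_eq_fixingSubgroup_index,
    IntermediateField.finrank_eq_fixingSubgroup_index, ← m.index_fld h]
  exact (Subgroup.relIndex_mul_index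
    (IntermediateField.fixingSubgroup_antitone (m.K_le_fld h W))).symm

theorem layer_iff [Finite A] (h : IsElementary p K M) (W : Submodule (ZMod p) A) (j : ℕ) :
    m.fld W ∈ layer K M (p ^ j) ↔ W ∈ codim p A j := by
  have h1 : 0 < finrank ℚ K := by
    have : FiniteDimensional ℚ K := fin_of_le h.le h.fin
    exact Module.finrank_pos
  have h2 := Submodule.finrank_le W
  simp only [layer, Set.mem_setOf_eq, m.K_le_fld h W, m.fld_le_M h W, true_and, m.finrank_fld h W,
    codim]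
  constructor
  · intro h3
    have h4 := Nat.pow_right_injective hp.out.two_le (Nat.eq_of_mul_eq_mul_right h1 h3)
    omega
  · intro h3
    have h4 : finrank (ZMod p) A - finrank (ZMod p) W = j := by omega
    rw [h4]

theorem layer_eq [Finite A] (h : IsElementary p K M) (j : ℕ) :
    layer K M (p ^ j) = m.fld '' codim p A j := by
  ext L
  constructor
  · intro hL
    obtain ⟨W, rfl⟩ := m.exists_fld h hL.1 hL.2.1
    exact ⟨W, (m.layer_iff h W j).1 hL, rfl⟩
  · rintro ⟨W, hW, rfl⟩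
    exact (m.layer_iff h W j).2 hW

end Model

end Pool.Agent.X208.BR
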