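import Pool.Agent.X208.BR.Perm3

/-!
# The mean of a seminorm over a layer
-/

set_option autoImplicit false

open Module
open scoped ENNReal

namespace Pool.Agent.X208.BR

/-- Double counting of the elements outside `W` of the subspaces of codimension `j` above `W`. -/
theorem count_pairs {p : ℕ} [hp : Fact p.Prime] {A : Type} [AddCommGroup A] [Module (ZMod p) A]
    [Finite A] (W : Submodule (ZMod p) A) {j c : ℕ}
    (hcb : ∀ b, b ∉ W → {U | U ∈ aboveJ W j ∧ b ∈ U}.ncard = c) :
    c * (p ^ finrank (ZMod p) A - p ^ finrank (ZMod p) W) =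
      (aboveJ W j).ncard * (p ^ (finrank (ZMod p) A - j) - p ^ finrank (ZMod p) W) := by
  classical
  haveI : Fintype A := Fintype.ofFinite A
  have hfin : (aboveJ W j).Finite := Set.toFinite _
  set S : Finset (Submodule (ZMod p) A) := hfin.toFinset with hS
  set T : Finset A := Finset.univ.filter (fun b => b ∉ W) with hT
  have hcardW : ∀ U : Submodule (ZMod p) A, (Finset.univ.filter (fun b => b ∈ U)).card =
      p ^ finrank (ZMod p) U := by
    intro U
    rw [← card_sub U, ← Fintype.card_subtype, ← Nat.card_eq_fintype_card]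
  have hcardT : T.card = p ^ finrank (ZMod p) A - p ^ finrank (ZMod p) W := by
    have h1 := Finset.card_filter_add_card_filter_not (s := (Finset.univ : Finset A)) (fun b => b ∈ W)
    rw [hcardW] at h1
    have h2 : (Finset.univ : Finset A).card = p ^ finrank (ZMod p) A := by
      rw [← card_all (p := p), Nat.card_eq_fintype_card]
      rfl
    rw [h2] at h1
    rw [hT]
    omega
  have h1 := Finset.sum_card_bipartiteAbove_eq_sum_card_bipartiteBelow (s := T) (t := S)
    (fun b U => b ∈ U)
  have h2 : ∀ b ∈ T, (S.bipartiteAbove (fun b U => b ∈ U) b).card = c := by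
    intro b hb
    rw [hT, Finset.mem_filter] at hb
    rw [← hcb b hb.2, ← Set.ncard_coe_finset]
    congr 1
    ext U
    simp [Finset.bipartiteAbove, hS]
  have h3 : ∀ U ∈ S, (T.bipartiteBelow (fun b U => b ∈ U) U).card =
      p ^ (finrank (ZMod p) A - j) - p ^ finrank (ZMod p) W := by
    intro U hU
    have hU' : U ∈ aboveJ W j := by simpa [hS] using hU
    have h4 : finrank (ZMod p) U + j = finrank (ZMod p) A := hU'.2
    have h5 : finrank (ZMod p) A - j = finrank (ZMod p) U := by omega
    rw [h5]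
    have h6 : (T.bipartiteBelow (fun b U => b ∈ U) U) =
        (Finset.univ.filter (fun b => b ∈ U)) \ (Finset.univ.filter (fun b => b ∈ W)) := by
      ext b
      simp only [Finset.bipartiteBelow, hT, Finset.mem_filter, Finset.mem_univ, true_and,
        Finset.mem_sdiff]
      tauto
    rw [h6, Finset.card_sdiff_of_subset, hcardW, hcardW]
    intro b hb
    rw [Finset.mem_filter] at hb ⊢
    exact ⟨hb.1, hU'.1 hb.2⟩
  rw [Finset.sum_congr rfl h2, Finset.sum_congr rfl h3, Finset.sum_const, Finset.sum_const,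
    smul_eq_mul, smul_eq_mul, hcardT] at h1
  have h7 : S.card = (aboveJ W j).ncard := by
    rw [hS, Set.ncard_eq_toFinset_card _ hfin]
  rw [h7] at h1
  rw [← h1]
  ring

namespace Pk

variable {p : ℕ} {K M : Fld}

/-- The Brauer relation of a subspace of codimension `k` and its overspaces of codimension `j`, with
the constant. -/
theorem relationC [hp : Fact p.Prime] {A : Type} [AddCommGroup A] [Module (ZMod p) A] [Finite A]
    (m : Model p K M A) (h : BR.IsElementary p K M) {j k : ℕ} (hjk : j < k)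
    {W : Submodule (ZMod p) A} (hW : W ∈ codim p A k) :
    ∃ c : ℕ, 0 < c ∧ c ≤ (aboveJ W j).ncard ∧ (k = j + 1 → c = 1) ∧
      c * (p ^ k - 1) = (aboveJ W j).ncard * (p ^ (k - j) - 1) ∧
      ∀ {V : Type} [AddCommGroup V] (f : Fld → V), Respects K M f →
      p ^ (k - j) • ∑ᶠ U ∈ aboveJ W j, f (m.fld U) =
        (p ^ k * c) • f K + ((aboveJ W j).ncard - c) • f (m.fld W) := by
  classical
  have hWk : finrank (ZMod p) W + k = finrank (ZMod p) A := hW
  obtain ⟨a, ha⟩ : ∃ a, a ∉ W := by
    by_contra hcon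
    push Not at hcon
    have h1 : W = ⊤ := by ext a; simp [hcon a]
    rw [h1, finrank_top] at hWk
    omega
  set c := (aboveJ (W ⊔ Submodule.span (ZMod p) {a}) j).ncard with hc
  have hfin : ∀ X : Submodule (ZMod p) A, (aboveJ X j).Finite := fun X => Set.toFinite _
  have hcpos : 0 < c := by
    rw [hc, Set.ncard_pos (hfin _)]
    apply exists_aboveJ
    rw [sup_span_finrank W ha]
    omega
  have hcb : ∀ b, b ∉ W → {U | U ∈ aboveJ W j ∧ b ∈ U}.ncard = c := by
    intro b hb
    have h1 : {U | U ∈ aboveJ W j ∧ b ∈ U} = aboveJ (W ⊔ Submodule.span (ZMod p) {b}) j := by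
      ext U
      constructor
      · rintro ⟨⟨h2, h3⟩, h4⟩
        exact ⟨sup_le h2 (by rw [Submodule.span_singleton_le_iff_mem]; exact h4), h3⟩
      · rintro ⟨h2, h3⟩
        exact ⟨⟨le_sup_left.trans h2, h3⟩,
          h2 ((le_sup_right : _ ≤ W ⊔ Submodule.span (ZMod p) {b})
            (Submodule.mem_span_singleton_self b))⟩
    rw [h1, hc]
    exact aboveJ_card _ _ j (by rw [sup_span_finrank W ha, sup_span_finrank W hb])
  have hcN : c ≤ (aboveJ W j).ncard := by
    rw [← hcb a ha]
    exact Set.ncard_le_ncard (fun U hU => hU.1) (hfin W)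
  have hcount := count_pairs (p := p) W hcb
  refine ⟨c, hcpos, hcN, ?_, ?_, fun {V} _ f hf => ?_⟩
  · intro hk
    have hX : finrank (ZMod p) ↥(W ⊔ Submodule.span (ZMod p) {a}) + j = finrank (ZMod p) A := by
      rw [sup_span_finrank W ha]
      omega
    have h1 : aboveJ (W ⊔ Submodule.span (ZMod p) {a}) j = {W ⊔ Submodule.span (ZMod p) {a}} := by
      ext U
      constructor
      · rintro ⟨h2, h3⟩
        have h4 : finrank (ZMod p) U + j = finrank (ZMod p) A := h3
        exact (Submodule.eq_of_le_of_finrank_eq h2 (by omega)).symm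
      · rintro rfl
        exact ⟨le_rfl, hX⟩
    rw [hc, h1, Set.ncard_singleton]
  · have h1 : finrank (ZMod p) A - j = (k - j) + finrank (ZMod p) W := by omega
    rw [← hWk, show finrank (ZMod p) W + k - j = (k - j) + finrank (ZMod p) W by omega,
      show finrank (ZMod p) W + k = k + finrank (ZMod p) W by omega, pow_add, pow_add] at hcount
    have h2 : ∀ x : ℕ, x * p ^ finrank (ZMod p) W - p ^ finrank (ZMod p) W =
        (x - 1) * p ^ finrank (ZMod p) W := by
      intro x
      rw [Nat.sub_mul, one_mul]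
    rw [h2, h2, ← mul_assoc, ← mul_assoc] at hcount
    exact Nat.eq_of_mul_eq_mul_right (pow_pos hp.out.pos _) hcount
  haveI : Fintype ↥(aboveJ W j) := (hfin W).fintype
  have hrel : BrauerRel K M (ι := Fin (p ^ (k - j)) × ↥(aboveJ W j))
      (κ := Fin (p ^ k * c) ⊕ Fin ((aboveJ W j).ncard - c))
      (fun x => m.fld x.2.1) (fun y => Sum.elim (fun _ => K) (fun _ => m.fld W) y) := by
    refine ⟨fun x => ⟨m.K_le_fld h _, m.fld_le_M h _⟩, fun y => ?_, fun g => ?_⟩
    · rcases y with y | y
      · exact ⟨le_rfl, h.le⟩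
      · exact ⟨m.K_le_fld h _, m.fld_le_M h _⟩
    · rw [Fintype.sum_prod_type, Fintype.sum_sum_type]
      simp only [Sum.elim_inl, Sum.elim_inr, Finset.sum_const, Finset.card_univ, Fintype.card_fin,
        smul_eq_mul, perm_self, mul_one]
      have h1 : ∀ U : ↥(aboveJ W j), perm K (m.fld U.1) g = if m.π g ∈ U.1 then p ^ j else 0 := by
        intro U
        have h2 : finrank (ZMod p) U.1 + j = finrank (ZMod p) A := U.2.2
        have h3 : finrank (ZMod p) A - finrank (ZMod p) U.1 = j := by omega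
        rw [perm_fld m h, h3]
      have h4 : perm K (m.fld W) g = if m.π g ∈ W then p ^ k else 0 := by
        have h3 : finrank (ZMod p) A - finrank (ZMod p) W = k := by omega
        rw [perm_fld m h, h3]
      rw [Finset.sum_congr rfl (fun U _ => h1 U), h4]
      have hpk : p ^ (k - j) * p ^ j = p ^ k := by
        rw [← pow_add]
        congr 1
        omega
      have h5 : (Finset.univ : Finset ↥(aboveJ W j)).card = (aboveJ W j).ncard := by
        rw [Finset.card_univ, ← Nat.card_eq_fintype_card]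
        rfl
      by_cases hg : m.π g ∈ W
      · rw [if_pos hg]
        have h6 : ∀ U : ↥(aboveJ W j), (if m.π g ∈ U.1 then p ^ j else 0) = p ^ j := by
          intro U
          rw [if_pos (U.2.1 hg)]
        rw [Finset.sum_congr rfl (fun U _ => h6 U), Finset.sum_const, smul_eq_mul, h5]
        obtain ⟨q, hq⟩ := Nat.exists_eq_add_of_le hcN
        rw [hq, Nat.add_sub_cancel_left]
        calc p ^ (k - j) * ((c + q) * p ^ j) = (p ^ (k - j) * p ^ j) * (c + q) := by ring
          _ = _ := by rw [hpk]; ring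
      · rw [if_neg hg, mul_zero, add_zero, Finset.sum_ite, Finset.sum_const, Finset.sum_const_zero,
          add_zero, smul_eq_mul]
        have h7 : (Finset.univ.filter fun U : ↥(aboveJ W j) => m.π g ∈ U.1).card = c := by
          rw [← hcb _ hg, ← Set.ncard_coe_finset, ← Set.ncard_image_of_injective _
            (Subtype.val_injective : Function.Injective (Subtype.val : ↥(aboveJ W j) → _))]
          congr 1
          ext U
          simp only [Finset.coe_filter, Finset.mem_univ, true_and, Set.mem_image, Set.mem_setOf_eq]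
          constructor
          · rintro ⟨U', h9, rfl⟩
            exact ⟨U'.2, h9⟩
          · rintro ⟨h9, h10⟩
            exact ⟨⟨U, h9⟩, h10, rfl⟩
        rw [h7]
        calc p ^ (k - j) * (c * p ^ j) = (p ^ (k - j) * p ^ j) * c := by ring
          _ = _ := by rw [hpk]
  have h8 := hf _ _ _ _ _ _ hrel
  rw [Fintype.sum_prod_type, Fintype.sum_sum_type] at h8
  simp only [Sum.elim_inl, Sum.elim_inr, Finset.sum_const, Finset.card_univ, Fintype.card_fin] at h8
  rw [← h8]
  congr 1
  rw [← finsum_set_coe_eq_finsum_mem, finsum_eq_sum_of_fintype]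

/-- A seminorm with values in `[0, ∞]`. -/
structure IsSem {V : Type} [AddCommGroup V] (s : V → ℝ≥0∞) : Prop where
  add : ∀ a b, s (a + b) ≤ s a + s b
  neg : ∀ a, s (-a) = s a
  nsmul : ∀ (n : ℕ) (a : V), s (n • a) = n * s a

theorem IsSem.zero {V : Type} [AddCommGroup V] {s : V → ℝ≥0∞} (hs : IsSem s) : s 0 = 0 := by
  have := hs.nsmul 0 0
  simpa using this

theorem IsSem.sum {V : Type} [AddCommGroup V] {s : V → ℝ≥0∞} (hs : IsSem s) {ι : Type}
    (T : Finset ι) (g : ι → V) : s (∑ i ∈ T, g i) ≤ ∑ i ∈ T, s (g i) := by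
  classical
  induction T using Finset.induction_on with
  | empty => simp [hs.zero]
  | insert a T ha ih =>
    rw [Finset.sum_insert ha, Finset.sum_insert ha]
    exact (hs.add _ _).trans (add_le_add le_rfl ih)

/-- **The mean law.** -/
theorem mean_law {V : Type} [AddCommGroup V] {f : Fld → V} (hp : p.Prime)
    (h : IsElementary p K M) (hf : Respects K M f) {s : V → ℝ≥0∞} (hs : IsSem s) {j k : ℕ}
    (hjk : j < k) (hd : deg M = p ^ k * deg K) :
    ((layer K M (p ^ j)).ncard : ℝ≥0∞) * ((p ^ (k - j) - 1 : ℕ) : ℝ≥0∞) * s (f K) ≤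
      ((p ^ (k - j) : ℕ) : ℝ≥0∞) * ∑ᶠ K' ∈ layer K M (p ^ j), s (f K') +
        ((layer K M (p ^ j)).ncard : ℝ≥0∞) * s (f M) := by
  classical
  haveI : Fact p.Prime := ⟨hp⟩
  have h' := (elem_iff p K M).1 h
  obtain ⟨A, _, _, _, ⟨m⟩⟩ := exists_model h'
  have hK : 0 < deg K := by
    have : FiniteDimensional ℚ (show IntermediateField ℚ Qb from K) := fin_of_le h'.le h'.fin
    exact Module.finrank_pos (R := ℚ) (M := (show IntermediateField ℚ Qb from K))
  obtain ⟨W, hW⟩ := m.exists_fld h' h'.le le_rfl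
  have h1 := m.finrank_fld h' W
  rw [hW] at h1
  have h1' : deg M = p ^ (finrank (ZMod p) A - finrank (ZMod p) W) * deg K := h1
  rw [h1'] at hd
  have h2 : finrank (ZMod p) A - finrank (ZMod p) W = k :=
    Nat.pow_right_injective hp.two_le (Nat.eq_of_mul_eq_mul_right hK hd)
  have hWk : W ∈ codim p A k := by
    change finrank (ZMod p) W + k = finrank (ZMod p) A
    have := Submodule.finrank_le W
    omega
  have hinj : Function.Injective (phi m) := m.fld_injective h'
  have hl : layer K M (p ^ j) = phi m '' aboveJ W j := by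
    have := layer_fld m h' W j
    rw [hW] at this
    exact this
  obtain ⟨c, hc, hcN, -, hcount, hrel⟩ := relationC m h' hjk hWk
  have h3 := hrel f hf
  rw [hW] at h3
  have hfin : (aboveJ W j).Finite := Set.toFinite _
  have h4 : ∑ᶠ K' ∈ layer K M (p ^ j), s (f K') = ∑ᶠ U ∈ aboveJ W j, s (f (phi m U)) := by
    rw [hl, finsum_mem_image hinj.injOn]
  have h5 : (layer K M (p ^ j)).ncard = (aboveJ W j).ncard := by
    rw [hl, Set.ncard_image_of_injective _ hinj]
  rw [h4, h5]
  set N := (aboveJ W j).ncard with hN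
  set SS := ∑ᶠ U ∈ aboveJ W j, f (phi m U) with hSS
  have h6 : s SS ≤ ∑ᶠ U ∈ aboveJ W j, s (f (phi m U)) := by
    rw [hSS, finsum_mem_eq_finite_toFinset_sum _ hfin, finsum_mem_eq_finite_toFinset_sum _ hfin]
    exact hs.sum _ _
  have h7 : (p ^ k * c) • f K = p ^ (k - j) • SS + -((N - c) • f M) := by
    have h8 : p ^ (k - j) • SS = (p ^ k * c) • f K + (N - c) • f M := h3
    rw [h8]
    abel
  have h9 : ((p ^ k * c : ℕ) : ℝ≥0∞) * s (f K) ≤
      ((p ^ (k - j) : ℕ) : ℝ≥0∞) * s SS + ((N - c : ℕ) : ℝ≥0∞) * s (f M) := by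
    rw [← hs.nsmul, ← hs.nsmul, ← hs.nsmul (N - c) (f M), ← hs.neg ((N - c) • f M), h7]
    exact hs.add _ _
  have h10 : N * (p ^ (k - j) - 1) ≤ p ^ k * c := by
    rw [← hcount, mul_comm]
    exact Nat.mul_le_mul_right _ (Nat.sub_le _ _)
  have h11 : (N : ℝ≥0∞) * ((p ^ (k - j) - 1 : ℕ) : ℝ≥0∞) ≤ ((p ^ k * c : ℕ) : ℝ≥0∞) := by
    rw [← Nat.cast_mul]
    exact_mod_cast h10
  calc (N : ℝ≥0∞) * ((p ^ (k - j) - 1 : ℕ) : ℝ≥0∞) * s (f K)
      ≤ ((p ^ k * c : ℕ) : ℝ≥0∞) * s (f K) := mul_le_mul_left h11 _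
    _ ≤ ((p ^ (k - j) : ℕ) : ℝ≥0∞) * s SS + ((N - c : ℕ) : ℝ≥0∞) * s (f M) := h9
    _ ≤ _ := by
      refine add_le_add (mul_le_mul_right h6 _) (mul_le_mul_left ?_ _)
      exact_mod_cast Nat.sub_le _ _

end Pk

end Pool.Agent.X208.BR
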