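import Pool.Agent.X208.BR.PermDefs
import Pool.Agent.X208.BR.Count2
import Pool.Agent.X208.BR.Conv

/-!
# The Brauer relations of elementary abelian extensions
-/

set_option autoImplicit false

open Module

namespace Pool.Agent.X208.BR

theorem Nrm.perm {K K' : IntermediateField ℚ Qb} (h : Nrm K K') [Decidable True] (g : GK K) :
    Nat.card {x : GK K ⧸ (GK K').subgroupOf (GK K) // g • x = x} =
      open Classical in if (g : Gal(Qb/ℚ)) ∈ GK K' then (GK K').relIndex (GK K) else 0 := by
  classical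
  have hfix : ∀ x : GK K ⧸ (GK K').subgroupOf (GK K), g • x = x ↔ (g : Gal(Qb/ℚ)) ∈ GK K' := by
    intro x
    obtain ⟨y, rfl⟩ := QuotientGroup.mk_surjective x
    rw [MulAction.Quotient.smul_mk, eq_comm, QuotientGroup.eq, Subgroup.mem_subgroupOf, smul_eq_mul,
      ← mul_assoc]
    exact h.mem_iff y g
  by_cases hg : (g : Gal(Qb/ℚ)) ∈ GK K'
  · rw [if_pos hg]
    have h1 : Nat.card {x : GK K ⧸ (GK K').subgroupOf (GK K) // g • x = x} =
        Nat.card (GK K ⧸ (GK K').subgroupOf (GK K)) :=
      Nat.card_congr (Equiv.subtypeUnivEquiv fun x => (hfix x).2 hg)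
    rw [h1]
    rfl
  · rw [if_neg hg]
    have : IsEmpty {x : GK K ⧸ (GK K').subgroupOf (GK K) // g • x = x} :=
      ⟨fun x => hg ((hfix x.1).1 x.2)⟩
    exact Nat.card_of_isEmpty

namespace Pk

variable {p : ℕ} [hp : Fact p.Prime] {K M : Fld} {A : Type} [AddCommGroup A]
  [Module (ZMod p) A] [Finite A]

theorem perm_fld (m : Model p K M A) (h : BR.IsElementary p K M) (W : Submodule (ZMod p) A)
    (g : G K) [Decidable (m.π g ∈ W)] : perm K (m.fld W) g =
      if m.π g ∈ W then p ^ (finrank (ZMod p) A - finrank (ZMod p) W) else 0 := by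
  classical
  have h1 := (m.nrm h W).perm g
  unfold perm
  refine h1.trans ?_
  rw [m.index_fld h]
  have h2 := m.mem_fld h W g
  by_cases hg : m.π g ∈ W
  · rw [if_pos hg, if_pos (h2.2 hg)]
  · rw [if_neg hg, if_neg (fun h3 => hg (h2.1 h3))]

theorem perm_self (K : Fld) (g : G K) : perm K K g = 1 := by
  unfold perm
  have h1 : ∀ x y : G K ⧸ (G K).subgroupOf (G K), x = y := by
    intro x y
    obtain ⟨a, rfl⟩ := QuotientGroup.mk_surjective x
    obtain ⟨b, rfl⟩ := QuotientGroup.mk_surjective y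
    rw [QuotientGroup.eq, Subgroup.mem_subgroupOf]
    exact (a⁻¹ * b).2
  rw [Nat.card_eq_one_iff_unique]
  exact ⟨⟨fun x y => Subtype.ext (h1 _ _)⟩, ⟨⟨QuotientGroup.mk 1, h1 _ _⟩⟩⟩

/-- The Brauer relation of a subspace of codimension `k` and its overspaces of codimension `j`. -/
theorem relation (m : Model p K M A) (h : BR.IsElementary p K M) {j k : ℕ} (hjk : j < k)
    {W : Submodule (ZMod p) A} (hW : W ∈ codim p A k) :
    ∃ c : ℕ, 0 < c ∧ ∀ {V : Type} [AddCommGroup V] (f : Fld → V), Respects K M f →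
      p ^ (k - j) • ∑ᶠ U ∈ aboveJ W j, f (m.fld U) =
        (p ^ k * c) • f K + ((aboveJ W j).ncard - c) • f (m.fld W) := by
  classical
  have hWk : finrank (ZMod p) W + k = finrank (ZMod p) A := hW
  obtain ⟨a, ha⟩ : ∃ a, a ∉ W := by
    by_contra hcon
    push Not at hcon
    have h1 : W = ⊤ := by ext a; simp [hcon a]
    rw [h1, finrank_top] at hWk
    omega
  set c := (aboveJ (W ⊔ Submodule.span (ZMod p) {a}) j).ncard with hc
  have hfin : ∀ X : Submodule (ZMod p) A, (aboveJ X j).Finite := fun X => Set.toFinite _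
  have hcpos : 0 < c := by
    rw [hc, Set.ncard_pos (hfin _)]
    apply exists_aboveJ
    rw [sup_span_finrank W ha]
    omega
  have hcb : ∀ b, b ∉ W → {U | U ∈ aboveJ W j ∧ b ∈ U}.ncard = c := by
    intro b hb
    have h1 : {U | U ∈ aboveJ W j ∧ b ∈ U} = aboveJ (W ⊔ Submodule.span (ZMod p) {b}) j := by
      ext U
      constructor
      · rintro ⟨⟨h2, h3⟩, h4⟩
        exact ⟨sup_le h2 (by rw [Submodule.span_singleton_le_iff_mem]; exact h4), h3⟩
      · rintro ⟨h2, h3⟩
        exact ⟨⟨le_sup_left.trans h2, h3⟩,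
          h2 ((le_sup_right : _ ≤ W ⊔ Submodule.span (ZMod p) {b})
            (Submodule.mem_span_singleton_self b))⟩
    rw [h1, hc]
    exact aboveJ_card _ _ j (by rw [sup_span_finrank W ha, sup_span_finrank W hb])
  have hcN : c ≤ (aboveJ W j).ncard := by
    rw [← hcb a ha]
    exact Set.ncard_le_ncard (fun U hU => hU.1) (hfin W)
  refine ⟨c, hcpos, fun {V} _ f hf => ?_⟩
  haveI : Fintype ↥(aboveJ W j) := (hfin W).fintype
  have hrel : BrauerRel K M (ι := Fin (p ^ (k - j)) × ↥(aboveJ W j))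
      (κ := Fin (p ^ k * c) ⊕ Fin ((aboveJ W j).ncard - c))
      (fun x => m.fld x.2.1) (fun y => Sum.elim (fun _ => K) (fun _ => m.fld W) y) := by
    refine ⟨fun x => ⟨m.K_le_fld h _, m.fld_le_M h _⟩, fun y => ?_, fun g => ?_⟩
    · rcases y with y | y
      · exact ⟨le_rfl, h.le⟩
      · exact ⟨m.K_le_fld h _, m.fld_le_M h _⟩
    · rw [Fintype.sum_prod_type, Fintype.sum_sum_type]
      simp only [Sum.elim_inl, Sum.elim_inr, Finset.sum_const, Finset.card_univ, Fintype.card_fin,
        smul_eq_mul, perm_self, mul_one]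
      have h1 : ∀ U : ↥(aboveJ W j), perm K (m.fld U.1) g = if m.π g ∈ U.1 then p ^ j else 0 := by
        intro U
        have h2 : finrank (ZMod p) U.1 + j = finrank (ZMod p) A := U.2.2
        have h3 : finrank (ZMod p) A - finrank (ZMod p) U.1 = j := by omega
        rw [perm_fld m h, h3]
      have h4 : perm K (m.fld W) g = if m.π g ∈ W then p ^ k else 0 := by
        have h3 : finrank (ZMod p) A - finrank (ZMod p) W = k := by omega
        rw [perm_fld m h, h3]
      rw [Finset.sum_congr rfl (fun U _ => h1 U), h4]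
      have hpk : p ^ (k - j) * p ^ j = p ^ k := by
        rw [← pow_add]
        congr 1
        omega
      have h5 : (Finset.univ : Finset ↥(aboveJ W j)).card = (aboveJ W j).ncard := by
        rw [Finset.card_univ, ← Nat.card_eq_fintype_card]
        rfl
      by_cases hg : m.π g ∈ W
      · rw [if_pos hg]
        have h6 : ∀ U : ↥(aboveJ W j), (if m.π g ∈ U.1 then p ^ j else 0) = p ^ j := by
          intro U
          rw [if_pos (U.2.1 hg)]
        rw [Finset.sum_congr rfl (fun U _ => h6 U), Finset.sum_const, smul_eq_mul, h5]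
        obtain ⟨q, hq⟩ := Nat.exists_eq_add_of_le hcN
        rw [hq, Nat.add_sub_cancel_left]
        calc p ^ (k - j) * ((c + q) * p ^ j) = (p ^ (k - j) * p ^ j) * (c + q) := by ring
          _ = _ := by rw [hpk]; ring
      · rw [if_neg hg, mul_zero, add_zero, Finset.sum_ite, Finset.sum_const, Finset.sum_const_zero,
          add_zero, smul_eq_mul]
        have h7 : (Finset.univ.filter fun U : ↥(aboveJ W j) => m.π g ∈ U.1).card = c := by
          rw [← hcb _ hg, ← Set.ncard_coe_finset, ← Set.ncard_image_of_injective _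
            (Subtype.val_injective : Function.Injective (Subtype.val : ↥(aboveJ W j) → _))]
          congr 1
          ext U
          simp only [Finset.coe_filter, Finset.mem_univ, true_and, Set.mem_image, Set.mem_setOf_eq]
          constructor
          · rintro ⟨U', h9, rfl⟩
            exact ⟨U'.2, h9⟩
          · rintro ⟨h9, h10⟩
            exact ⟨⟨U, h9⟩, h10, rfl⟩
        rw [h7]
        calc p ^ (k - j) * (c * p ^ j) = (p ^ (k - j) * p ^ j) * c := by ring
          _ = _ := by rw [hpk]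
  have h8 := hf _ _ _ _ _ _ hrel
  rw [Fintype.sum_prod_type, Fintype.sum_sum_type] at h8
  simp only [Sum.elim_inl, Sum.elim_inr, Finset.sum_const, Finset.card_univ, Fintype.card_fin] at h8
  rw [← h8]
  congr 1
  rw [← finsum_set_coe_eq_finsum_mem, finsum_eq_sum_of_fintype]

theorem layer_fld (m : Model p K M A) (h : BR.IsElementary p K M) (W : Submodule (ZMod p) A)
    (j : ℕ) : layer K (m.fld W) (p ^ j) = m.fld '' aboveJ W j := by
  ext L
  constructor
  · rintro ⟨h1, h2, h3⟩
    have hL : L ∈ layer K M (p ^ j) := ⟨h1, le_trans h2 (m.fld_le_M h W), h3⟩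
    have h4 := m.layer_eq h j
    have hL' : L ∈ m.fld '' codim p A j := by
      rw [← h4]
      exact hL
    obtain ⟨U, hU, rfl⟩ := hL'
    exact ⟨U, ⟨(m.fld_antitone_iff h U W).1 h2, hU⟩, rfl⟩
  · rintro ⟨U, ⟨h1, h2⟩, rfl⟩
    have h3 := (m.layer_iff h U j).2 h2
    exact ⟨h3.1, (m.fld_antitone_iff h U W).2 h1, h3.2.2⟩

/-- The fields of the layer at which `f` is not zero. -/
def bad {V : Type} [AddCommGroup V] (K M : Fld) (f : Fld → V) (n : ℕ) : Set Fld :=
  {K' | K' ∈ layer K M n ∧ f K' ≠ 0}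

/-- The subspaces as fields. -/
noncomputable def phi (m : Model p K M A) (W : Submodule (ZMod p) A) : Fld := m.fld W

/-- **The law for functions which respect Brauer relations.** -/
theorem perm_law' {V : Type} [AddCommGroup V] {f : Fld → V} (m : Model p K M A)
    (h' : BR.IsElementary p K M) (hf : Respects K M f) (hne : ∀ n : ℕ, 0 < n → n • f K ≠ 0)
    {j k : ℕ} (hjk : j < k) :
    ∃ N : ℕ, (∀ K' ∈ layer K M (p ^ k), (layer K K' (p ^ j)).ncard = N) ∧
      (layer K M (p ^ j)).ncard * (layer K M (p ^ k)).ncard ≤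
        (layer K M (p ^ j)).ncard * (bad K M f (p ^ k)).ncard +
          N * (layer K M (p ^ k)).ncard * (bad K M f (p ^ j)).ncard := by
  classical
  have hinj : Function.Injective (phi m) := m.fld_injective h'
  have hl : ∀ i, layer K M (p ^ i) = phi m '' codim p A i := fun i => m.layer_eq h' i
  set b : Set (Submodule (ZMod p) A) := {W | f (phi m W) ≠ 0} with hb
  have hbad : ∀ i, bad K M f (p ^ i) = phi m '' (b ∩ codim p A i) := by
    intro i
    ext L
    constructor
    · rintro ⟨hL, hL'⟩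
      rw [hl] at hL
      obtain ⟨W, hW, rfl⟩ := hL
      exact ⟨W, ⟨hL', hW⟩, rfl⟩
    · rintro ⟨W, ⟨hW', hW⟩, rfl⟩
      refine ⟨?_, hW'⟩
      rw [hl]
      exact ⟨W, hW, rfl⟩
  obtain ⟨N, hN⟩ : ∃ N : ℕ, ∀ W ∈ codim p A k, (aboveJ W j).ncard = N := by
    rcases (codim p A k).eq_empty_or_nonempty with h0 | ⟨W₀, hW₀⟩
    · exact ⟨0, fun W hW => by rw [h0] at hW; exact absurd hW (Set.notMem_empty W)⟩
    · refine ⟨(aboveJ W₀ j).ncard, fun W hW => aboveJ_card _ _ j ?_⟩
      have h1 : finrank (ZMod p) W + k = finrank (ZMod p) A := hW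
      have h2 : finrank (ZMod p) W₀ + k = finrank (ZMod p) A := hW₀
      omega
  refine ⟨N, ?_, ?_⟩
  · intro L hL
    rw [hl] at hL
    obtain ⟨W, hW, rfl⟩ := hL
    have h1 : layer K (phi m W) (p ^ j) = phi m '' aboveJ W j := layer_fld m h' W j
    rw [h1, Set.ncard_image_of_injective _ hinj, hN W hW]
  · rw [hbad, hbad, hl, hl, Set.ncard_image_of_injective _ hinj, Set.ncard_image_of_injective _ hinj,
      Set.ncard_image_of_injective _ hinj, Set.ncard_image_of_injective _ hinj]
    refine count2 b b (fun W hW => ?_) N hN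
    by_contra hcon
    push Not at hcon
    obtain ⟨h5, h6⟩ := hcon
    have h7 : f (phi m W) = 0 := by
      by_contra h8
      exact h5 h8
    obtain ⟨c, hc, hrel⟩ := relation m h' hjk hW
    have h8 : p ^ (k - j) • ∑ᶠ U ∈ aboveJ W j, f (phi m U) =
        (p ^ k * c) • f K + ((aboveJ W j).ncard - c) • f (phi m W) := hrel f hf
    rw [h7, smul_zero, add_zero] at h8
    have h9 : ∑ᶠ U ∈ aboveJ W j, f (phi m U) = 0 := by
      apply finsum_mem_eq_zero_of_forall_eq_zero
      intro U hU
      by_contra h10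
      exact h6 U hU h10
    rw [h9, smul_zero] at h8
    exact hne _ (Nat.mul_pos (pow_pos hp.out.pos k) hc) h8.symm

omit hp in
/-- **The law for functions which respect Brauer relations.** -/
theorem perm_law {V : Type} [AddCommGroup V] {f : Fld → V} (hp : p.Prime)
    (h : IsElementary p K M) (hf : Respects K M f) (hne : ∀ n : ℕ, 0 < n → n • f K ≠ 0) {j k : ℕ}
    (hjk : j < k) :
    ∃ N : ℕ, (∀ K' ∈ layer K M (p ^ k), (layer K K' (p ^ j)).ncard = N) ∧
      (layer K M (p ^ j)).ncard * (layer K M (p ^ k)).ncard ≤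
        (layer K M (p ^ j)).ncard * (bad K M f (p ^ k)).ncard +
          N * (layer K M (p ^ k)).ncard * (bad K M f (p ^ j)).ncard := by
  haveI : Fact p.Prime := ⟨hp⟩
  have h' := (elem_iff p K M).1 h
  obtain ⟨A, _, _, _, ⟨m⟩⟩ := exists_model h'
  exact perm_law' m h' hf hne hjk

omit hp in
theorem layer_nonempty' (hp : p.Prime) (h : IsElementary p K M) {n j : ℕ} (hj : j ≤ n)
    (hd : p ^ n * deg K ≤ deg M) : (layer K M (p ^ j)).Nonempty := by
  haveI : Fact p.Prime := ⟨hp⟩
  have h' := (elem_iff p K M).1 h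
  obtain ⟨A, _, _, _, ⟨m⟩⟩ := exists_model h'
  have hK : 0 < deg K := by
    have : FiniteDimensional ℚ (show IntermediateField ℚ Qb from K) := fin_of_le h'.le h'.fin
    exact Module.finrank_pos (R := ℚ) (M := (show IntermediateField ℚ Qb from K))
  obtain ⟨W, hW⟩ := m.exists_fld h' h'.le le_rfl
  have h1 := m.finrank_fld h' W
  rw [hW] at h1
  have h1' : deg M = p ^ (finrank (ZMod p) A - finrank (ZMod p) W) * deg K := h1
  rw [h1'] at hd
  have h2 : n ≤ finrank (ZMod p) A - finrank (ZMod p) W :=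
    (Nat.pow_le_pow_iff_right hp.one_lt).1 (Nat.le_of_mul_le_mul_right hd hK)
  have h3 : layer K M (p ^ j) = phi m '' codim p A j := m.layer_eq h' j
  rw [h3]
  exact (exists_codim (by omega)).image _

omit hp in
theorem layer_finite' (hp : p.Prime) (h : IsElementary p K M) (j : ℕ) :
    (layer K M (p ^ j)).Finite := layer_finite hp ((elem_iff p K M).1 h) j

omit hp in
/-- At most one layer is free of bad fields. -/
theorem two_layers {V : Type} [AddCommGroup V] {f : Fld → V} (hp : p.Prime)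
    (h : IsElementary p K M) (hf : Respects K M f) (hne : ∀ n : ℕ, 0 < n → n • f K ≠ 0) {j k : ℕ}
    (hjk : j < k) (hd : p ^ k * deg K ≤ deg M) :
    (∃ K' ∈ layer K M (p ^ j), f K' ≠ 0) ∨ ∃ K' ∈ layer K M (p ^ k), f K' ≠ 0 := by
  obtain ⟨N, -, h1⟩ := perm_law hp h hf hne hjk
  have h2 := (Set.ncard_pos (layer_finite' hp h j)).2 (layer_nonempty' hp h hjk.le hd)
  have h3 := (Set.ncard_pos (layer_finite' hp h k)).2 (layer_nonempty' hp h le_rfl hd)
  by_contra hcon
  push Not at hcon
  obtain ⟨h4, h5⟩ := hcon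
  have h6 : bad K M f (p ^ j) = ∅ := by
    rw [Set.eq_empty_iff_forall_notMem]
    rintro L ⟨hL, hL'⟩
    exact hL' (h4 L hL)
  have h7 : bad K M f (p ^ k) = ∅ := by
    rw [Set.eq_empty_iff_forall_notMem]
    rintro L ⟨hL, hL'⟩
    exact hL' (h5 L hL)
  rw [h6, h7, Set.ncard_empty, mul_zero, mul_zero, add_zero] at h1
  have := Nat.mul_pos h2 h3
  omega

end Pk

end Pool.Agent.X208.BR
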