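import Pool.Agent.X208.BR.Perm2

/-!
# The first two layers, for functions with values in groups with torsion
-/

set_option autoImplicit false

open Module

namespace Pool.Agent.X208.BR.Pk

variable {p : ℕ} {K M : Fld}

theorem relation12 [hp : Fact p.Prime] {A : Type} [AddCommGroup A] [Module (ZMod p) A] [Finite A]
    (m : Model p K M A) (h : BR.IsElementary p K M) {W : Submodule (ZMod p) A}
    (hW : W ∈ codim p A 2) {V : Type} [AddCommGroup V] {f : Fld → V} (hf : Respects K M f) :
    ∑ᶠ U ∈ above W, f (phi m U) = p • f K + f (phi m W) := by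
  classical
  have hWk : finrank (ZMod p) W + 2 = finrank (ZMod p) A := hW
  have hfin : (above W).Finite := Set.toFinite _
  haveI : Fintype ↥(above W) := hfin.fintype
  have hcard : Fintype.card ↥(above W) = p + 1 := by
    rw [← above_card W hW, ← Nat.card_eq_fintype_card]
    rfl
  have hrel : BrauerRel K M (ι := ↥(above W)) (κ := Fin p ⊕ Unit)
      (fun x => phi m x.1) (fun y => Sum.elim (fun _ => K) (fun _ => phi m W) y) := by
    refine ⟨fun x => ⟨m.K_le_fld h _, m.fld_le_M h _⟩, fun y => ?_, fun g => ?_⟩
    · rcases y with y | y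
      · exact ⟨le_rfl, h.le⟩
      · exact ⟨m.K_le_fld h _, m.fld_le_M h _⟩
    · rw [Fintype.sum_sum_type]
      simp only [Sum.elim_inl, Sum.elim_inr, Finset.sum_const, Finset.card_univ, Fintype.card_fin,
        smul_eq_mul, perm_self, mul_one, Fintype.card_unit, one_mul]
      have h1 : ∀ U : ↥(above W), perm K (phi m U.1) g = if m.π g ∈ U.1 then p else 0 := by
        intro U
        have h2 := U.2.2
        have h3 : finrank (ZMod p) A - finrank (ZMod p) U.1 = 1 := by omega
        have h4 := perm_fld m h U.1 g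
        rw [h3, pow_one] at h4
        exact h4
      have h4 : perm K (phi m W) g = if m.π g ∈ W then p ^ 2 else 0 := by
        have h3 : finrank (ZMod p) A - finrank (ZMod p) W = 2 := by omega
        have h5 := perm_fld m h W g
        rw [h3] at h5
        exact h5
      rw [Finset.sum_congr rfl (fun U _ => h1 U), h4]
      by_cases hg : m.π g ∈ W
      · rw [if_pos hg]
        have h6 : ∀ U : ↥(above W), (if m.π g ∈ U.1 then p else 0) = p := by
          intro U
          rw [if_pos (U.2.1 hg)]
        rw [Finset.sum_congr rfl (fun U _ => h6 U), Finset.sum_const, smul_eq_mul, Finset.card_univ,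
          hcard]
        ring
      · rw [if_neg hg, add_zero]
        obtain ⟨U, ⟨hU, hgU⟩, huniq⟩ := exists_unique_above W hg
        rw [Finset.sum_eq_single (⟨U, hU⟩ : ↥(above W)), if_pos hgU]
        · intro U' _ hne
          rw [if_neg]
          intro h7
          exact hne (Subtype.ext (huniq U'.1 ⟨U'.2, h7⟩))
        · intro h7
          exact absurd (Finset.mem_univ _) h7
  have h8 := hf _ _ _ _ _ _ hrel
  rw [Fintype.sum_sum_type] at h8
  simp only [Sum.elim_inl, Sum.elim_inr, Finset.sum_const, Finset.card_univ, Fintype.card_fin,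
    Fintype.card_unit, one_smul] at h8
  rw [← h8, ← finsum_set_coe_eq_finsum_mem, finsum_eq_sum_of_fintype]

/-- **The law for the first two layers.** -/
theorem perm_law_tor {V : Type} [AddCommGroup V] {f : Fld → V} (hp : p.Prime)
    (h : IsElementary p K M) (hf : Respects K M f) (hne : p • f K ≠ 0) :
    (layer K M p).ncard * (layer K M (p ^ 2)).ncard ≤
      (layer K M p).ncard * (bad K M f (p ^ 2)).ncard +
        (p + 1) * (layer K M (p ^ 2)).ncard * (bad K M f p).ncard := by
  classical
  haveI : Fact p.Prime := ⟨hp⟩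
  have h' := (elem_iff p K M).1 h
  obtain ⟨A, _, _, _, ⟨m⟩⟩ := exists_model h'
  have hinj : Function.Injective (phi m) := m.fld_injective h'
  have hl : ∀ i, layer K M (p ^ i) = phi m '' codim p A i := fun i => m.layer_eq h' i
  set b : Set (Submodule (ZMod p) A) := {W | f (phi m W) ≠ 0} with hb
  have hbad : ∀ i, bad K M f (p ^ i) = phi m '' (b ∩ codim p A i) := by
    intro i
    ext L
    constructor
    · rintro ⟨hL, hL'⟩
      rw [hl] at hL
      obtain ⟨W, hW, rfl⟩ := hL
      exact ⟨W, ⟨hL', hW⟩, rfl⟩
    · rintro ⟨W, ⟨hW', hW⟩, rfl⟩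
      refine ⟨?_, hW'⟩
      rw [hl]
      exact ⟨W, hW, rfl⟩
  have hl1 := hl 1
  have hb1 := hbad 1
  rw [pow_one] at hl1 hb1
  rw [hb1, hbad, hl1, hl, Set.ncard_image_of_injective _ hinj, Set.ncard_image_of_injective _ hinj,
    Set.ncard_image_of_injective _ hinj, Set.ncard_image_of_injective _ hinj]
  refine count b b fun W hW => ?_
  by_contra hcon
  push Not at hcon
  obtain ⟨h5, h6⟩ := hcon
  have h7 : f (phi m W) = 0 := by
    by_contra h8
    exact h5 h8
  have h8 := relation12 m h' hW hf
  rw [h7, add_zero] at h8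
  have h9 : ∑ᶠ U ∈ above W, f (phi m U) = 0 := by
    apply finsum_mem_eq_zero_of_forall_eq_zero
    intro U hU
    by_contra h10
    exact h6 U hU h10
  rw [h9] at h8
  exact hne h8.symm

theorem exists_bad {V : Type} [AddCommGroup V] {f : Fld → V} (hp : p.Prime)
    (h : IsElementary p K M) (hd : p ^ 2 * deg K ≤ deg M)
    (hi : (layer K M p).ncard * (layer K M (p ^ 2)).ncard ≤
      (layer K M p).ncard * (bad K M f (p ^ 2)).ncard +
        (p + 1) * (layer K M (p ^ 2)).ncard * (bad K M f p).ncard) :
    ∃ n, (n = p ∨ n = p ^ 2) ∧ (bad K M f n).Nonempty := by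
  have h1 := layer_nonempty' hp h (j := 1) (n := 2) (by norm_num) hd
  have h2 := layer_nonempty' hp h (j := 2) (n := 2) le_rfl hd
  rw [pow_one] at h1
  have h3 := layer_finite' hp h 1
  rw [pow_one] at h3
  have h4 := (Set.ncard_pos h3).2 h1
  have h5 := (Set.ncard_pos (layer_finite' hp h 2)).2 h2
  by_contra hcon
  push Not at hcon
  have h6 := hcon p (Or.inl rfl)
  have h7 := hcon (p ^ 2) (Or.inr rfl)
  rw [h6, h7, Set.ncard_empty, mul_zero, mul_zero, add_zero] at hi
  have := Nat.mul_pos h4 h5
  omega

end Pool.Agent.X208.BR.Pk
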