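import Pool.Agent.X208.BR.Pk

/-!
# Brauer relations between number fields
-/

set_option autoImplicit false

namespace Pool.Agent.X208.BR.Pk

/-- The permutation character of `K'/K`: the number of the cosets in `G K / G K'` fixed by `g`. -/
noncomputable def perm (K K' : Fld) (g : G K) : ℕ :=
  Nat.card {x : G K ⧸ (G K').subgroupOf (G K) // g • x = x}

/-- The two finite families of fields between `K` and `M` satisfy a Brauer relation: the sums of their
permutation characters on `G K` are equal. -/
structure BrauerRel (K M : Fld) {ι κ : Type} [Fintype ι] [Fintype κ] (A : ι → Fld) (B : κ → Fld) :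
    Prop where
  left : ∀ i, K ≤ A i ∧ A i ≤ M
  right : ∀ j, K ≤ B j ∧ B j ≤ M
  eq : ∀ g : G K, ∑ i, perm K (A i) g = ∑ j, perm K (B j) g

/-- The function `f` of the fields between `K` and `M` respects Brauer relations. -/
def Respects {V : Type} [AddCommGroup V] (K M : Fld) (f : Fld → V) : Prop :=
  ∀ (ι κ : Type) (_ : Fintype ι) (_ : Fintype κ) (A : ι → Fld) (B : κ → Fld),
    BrauerRel K M A B → ∑ i, f (A i) = ∑ j, f (B j)

end Pool.Agent.X208.BR.Pk
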