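import Mathlib

/-!
# Number fields, their Galois groups and characters

Number fields are subfields of a fixed algebraic closure of `ℚ`.
-/

set_option autoImplicit false

open Module

namespace Pool.Agent.X208.BR.Pk

/-- The subfields of the field of algebraic numbers. -/
def Fld : Type := IntermediateField ℚ (AlgebraicClosure ℚ)

noncomputable instance : PartialOrder Fld :=
  inferInstanceAs (PartialOrder (IntermediateField ℚ (AlgebraicClosure ℚ)))

/-- The degree over `ℚ`. -/
noncomputable def deg (K : Fld) : ℕ :=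
  finrank ℚ (show IntermediateField ℚ (AlgebraicClosure ℚ) from K)

/-- `K` is a number field. -/
def IsNF (K : Fld) : Prop :=
  FiniteDimensional ℚ (show IntermediateField ℚ (AlgebraicClosure ℚ) from K)

/-- `L/ℚ` is normal. -/
def IsNormal (L : Fld) : Prop :=
  Normal ℚ (show IntermediateField ℚ (AlgebraicClosure ℚ) from L)

/-- The absolute Galois group of `ℚ`. -/
def GalQ : Type := Gal(AlgebraicClosure ℚ/ℚ)

noncomputable instance : Group GalQ := inferInstanceAs (Group Gal(AlgebraicClosure ℚ/ℚ))

/-- The absolute Galois group of the field `K`, a subgroup of that of `ℚ`. -/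
noncomputable def G (K : Fld) : Subgroup GalQ :=
  IntermediateField.fixingSubgroup (show IntermediateField ℚ (AlgebraicClosure ℚ) from K)

theorem G_anti {K K' : Fld} (h : K ≤ K') : G K' ≤ G K :=
  IntermediateField.fixingSubgroup_antitone h

/-- `χ` is the character (trace) of a complex matrix representation of the group `Γ` which is trivial
on the subgroup `N`. -/
def IsChar {Γ : Type} [Group Γ] (N : Subgroup Γ) (χ : Γ → ℂ) : Prop :=
  ∃ (ι : Type) (_ : Fintype ι) (_ : DecidableEq ι) (ρ : Γ →* Matrix ι ι ℂ),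
    (∀ g ∈ N, ρ g = 1) ∧ ∀ g, χ g = (ρ g).trace

/-- `χ` is a character of `G K` of level `L`: for `L/K` finite Galois, a character of `Gal(L/K)`. -/
def IsCharOf (L K : Fld) (χ : G K → ℂ) : Prop := IsChar ((G L).subgroupOf (G K)) χ

/-- `χ` is an (Artin) character of the field `K`: a character of some finite level `L`. -/
def IsArtin (K : Fld) (χ : G K → ℂ) : Prop := ∃ L, IsNF L ∧ IsCharOf L K χ

/-- The restriction to a larger field. -/
noncomputable def res {K K' : Fld} (h : K ≤ K') (χ : G K → ℂ) : G K' → ℂ :=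
  fun g => χ ⟨g, G_anti h g.2⟩

open Classical in
/-- The induction of a function from a subgroup of finite index:
`(Ind χ)(g) = ∑_x χ(x⁻¹ g x)`, where `x` runs over representatives of `Γ/H` with `x⁻¹ g x ∈ H`. -/
noncomputable def indG {Γ : Type} [Group Γ] (H : Subgroup Γ) (χ : H → ℂ) : Γ → ℂ :=
  fun g => ∑ᶠ x : Γ ⧸ H, if hx : x.out⁻¹ * g * x.out ∈ H then χ ⟨x.out⁻¹ * g * x.out, hx⟩ else 0

/-- The induction from a larger field `K'` to a smaller field `K`. -/
noncomputable def ind {K K' : Fld} (_h : K ≤ K') (χ : G K' → ℂ) : G K → ℂ :=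
  indG ((G K').subgroupOf (G K)) fun g => χ ⟨g.1, g.2⟩

/-- `L` is a finite Galois extension of `ℚ` which contains `K`. -/
structure Over (L K : Fld) : Prop where
  le : K ≤ L
  fin : IsNF L
  normal : IsNormal L

/-- `M/K` is an extension of number fields, Galois with an elementary abelian group of exponent `p`:
commutators and `p`-th powers of elements of `G K` are in `G M`. -/
structure IsElementary (p : ℕ) (K M : Fld) : Prop where
  le : K ≤ M
  fin : IsNF M
  comm : ∀ g ∈ G K, ∀ h ∈ G K, g * h * g⁻¹ * h⁻¹ ∈ G M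
  pow : ∀ g ∈ G K, g ^ p ∈ G M

/-- The fields between `K` and `M` of degree `m` over `K`. -/
def layer (K M : Fld) (m : ℕ) : Set Fld := {K' | K ≤ K' ∧ K' ≤ M ∧ deg K' = m * deg K}

/-- **A system of Stark quotients.** For every finite Galois extension `L/ℚ` a finite set `S` of places
of `ℚ` (with `∞ ∈ S`) and a `ℚ[Gal(L/ℚ)]`-isomorphism `φ` are fixed; `A L K χ` is the quotient
`A_S(χ, φ) = R_S(χ, φ) / L_S^*(0, χ)` for the extension `L/K` and the character `χ` of `Gal(L/K)`
(and the places of `K` above `S`). It is additive in `χ` and invariant under induction, and the quotients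
`A(χ)^σ / A(χ^σ)` do not depend on the choices of `L`, `S`, `φ`. -/
structure StarkSystem where
  A : (L K : Fld) → (G K → ℂ) → ℂˣ
  add : ∀ (L K : Fld) (χ ψ : G K → ℂ), Over L K → IsCharOf L K χ → IsCharOf L K ψ →
    A L K (fun g => χ g + ψ g) = A L K χ * A L K ψ
  ind : ∀ (L K K' : Fld) (h : K ≤ K') (χ : G K' → ℂ), Over L K' → IsCharOf L K' χ →
    A L K (ind h χ) = A L K' χ
  indep : ∀ (L L' K : Fld) (χ : G K → ℂ) (σ : ℂ ≃+* ℂ), Over L K → Over L' K →
    L ≤ L' → IsCharOf L K χ →
    σ (A L K χ) / A L K (fun g => σ (χ g)) = σ (A L' K χ) / A L' K (fun g => σ (χ g))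

/-- **Stark's conjecture** for the character `χ` of the number field `K`: `A(χ)^σ = A(χ^σ)` for all
automorphisms `σ` of `ℂ` (and all the extensions `L/K` of which `χ` is a character). -/
def StarkSystem.Holds (T : StarkSystem) (K : Fld) (χ : G K → ℂ) : Prop :=
  ∀ (L : Fld) (σ : ℂ ≃+* ℂ), Over L K → IsCharOf L K χ →
    σ (T.A L K χ) = T.A L K (fun g => σ (χ g))

/-- The fields of the layer `layer K M n` over which Stark's conjecture fails for the restriction
of `χ`. -/
def StarkSystem.failing (T : StarkSystem) (K M : Fld) (χ : G K → ℂ) (n : ℕ) : Set Fld :=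
  {K' | K' ∈ layer K M n ∧ ∀ h : K ≤ K', ¬ T.Holds K' (res h χ)}

end Pool.Agent.X208.BR.Pk
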