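import Pool.Agent.X208.BR.ST

/-!
# Positive proportions from the mean law
-/

set_option autoImplicit false

open Filter Topology Module
open scoped ENNReal

namespace Pool.Agent.X208.BR.Pk

/-- A positive proportion of the fields of a layer of large index have a positive value. -/
theorem pos_core {p : ℕ} {K M : Fld} (hp : p.Prime) (hM : IsElementary p K M)
    {disc : Fld → ℝ≥0∞} {C : ℝ} (hCpos : 0 < C)
    (hdC : ∀ K', K ≤ K' → K' ≤ M → disc K' ≤ ENNReal.ofReal C) (hδ0 : disc K ≠ 0)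
    (hmean : ∀ j k : ℕ, j < k → deg M = p ^ k * deg K →
      ((layer K M (p ^ j)).ncard : ℝ≥0∞) * ((p ^ (k - j) - 1 : ℕ) : ℝ≥0∞) * disc K ≤
        ((p ^ (k - j) : ℕ) : ℝ≥0∞) * ∑ᶠ K' ∈ layer K M (p ^ j), disc K' +
          ((layer K M (p ^ j)).ncard : ℝ≥0∞) * disc M)
    {j : ℕ} {F : Set Fld} (hF : F ⊆ layer K M (p ^ j))
    (hF0 : ∀ K' ∈ layer K M (p ^ j), K' ∉ F → disc K' = 0) {q₀ : ℕ}
    (hq₀' : 2 + 2 * C / (disc K).toReal ≤ q₀) (hd : q₀ * p ^ j * deg K ≤ deg M) :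
    (disc K).toReal / (2 * C) * (layer K M (p ^ j)).ncard ≤ F.ncard := by
  classical
  have hδtop : disc K ≠ ⊤ := ne_top_of_le_ne_top ENNReal.ofReal_ne_top (hdC K le_rfl hM.le)
  set δ := (disc K).toReal with hδ
  have hδpos : 0 < δ := ENNReal.toReal_pos hδ0 hδtop
  obtain ⟨hK, k, hk⟩ := exists_deg hp hM
  have hq2 : 2 ≤ q₀ := by
    have h1 : (0 : ℝ) ≤ 2 * C / δ := by positivity
    have : (2 : ℝ) ≤ q₀ := by linarith
    exact_mod_cast this
  rw [hk] at hd
  have h1 : q₀ * p ^ j ≤ p ^ k := Nat.le_of_mul_le_mul_right hd hK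
  have hpj : 0 < p ^ j := pow_pos hp.pos j
  have hjk : j < k := by
    rw [← Nat.pow_lt_pow_iff_right hp.one_lt]
    nlinarith
  have h2 : q₀ ≤ p ^ (k - j) := by
    have h3 : p ^ k = p ^ (k - j) * p ^ j := by
      rw [← pow_add]
      congr 1
      omega
    rw [h3] at h1
    exact Nat.le_of_mul_le_mul_right h1 hpj
  have hm := hmean j k hjk hk
  have hfinl : (layer K M (p ^ j)).Finite := layer_finite' hp hM j
  have hsum : ∑ᶠ K' ∈ layer K M (p ^ j), disc K' ≤ (F.ncard : ℝ≥0∞) * ENNReal.ofReal C := by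
    rw [finsum_mem_eq_finite_toFinset_sum _ hfinl]
    have hfinf : F.Finite := hfinl.subset hF
    rw [Set.ncard_eq_toFinset_card _ hfinf, ← nsmul_eq_mul, ← Finset.sum_const]
    rw [← Finset.sum_subset (s₁ := hfinf.toFinset)]
    · refine Finset.sum_le_sum fun K' hK' => ?_
      rw [Set.Finite.mem_toFinset] at hK'
      exact hdC K' (hF hK').1 (hF hK').2.1
    · intro K' hK'
      rw [Set.Finite.mem_toFinset] at hK' ⊢
      exact hF hK'
    · intro K' hK' hnot
      rw [Set.Finite.mem_toFinset] at hK' hnot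
      exact hF0 K' hK' hnot
  have hmain : ((layer K M (p ^ j)).ncard : ℝ≥0∞) * ((p ^ (k - j) - 1 : ℕ) : ℝ≥0∞) * disc K ≤
      ((p ^ (k - j) : ℕ) : ℝ≥0∞) * ((F.ncard : ℝ≥0∞) * ENNReal.ofReal C) +
        ((layer K M (p ^ j)).ncard : ℝ≥0∞) * ENNReal.ofReal C :=
    hm.trans (add_le_add (mul_le_mul_right hsum _) (mul_le_mul_right (hdC M hM.le le_rfl) _))
  have hreal := ENNReal.toReal_mono (by
    refine ENNReal.add_ne_top.2 ⟨?_, ?_⟩
    · exact ENNReal.mul_ne_top (ENNReal.natCast_ne_top _)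
        (ENNReal.mul_ne_top (ENNReal.natCast_ne_top _) ENNReal.ofReal_ne_top)
    · exact ENNReal.mul_ne_top (ENNReal.natCast_ne_top _) ENNReal.ofReal_ne_top) hmain
  rw [ENNReal.toReal_add (ENNReal.mul_ne_top (ENNReal.natCast_ne_top _)
        (ENNReal.mul_ne_top (ENNReal.natCast_ne_top _) ENNReal.ofReal_ne_top))
      (ENNReal.mul_ne_top (ENNReal.natCast_ne_top _) ENNReal.ofReal_ne_top)] at hreal
  simp only [ENNReal.toReal_mul, ENNReal.toReal_natCast, ENNReal.toReal_ofReal hCpos.le] at hreal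
  rw [← hδ, Nat.cast_sub (Nat.one_le_pow _ _ hp.pos)] at hreal
  set N : ℝ := ((layer K M (p ^ j)).ncard : ℝ) with hN
  set Fr : ℝ := (F.ncard : ℝ) with hFr
  have hN0 : 0 ≤ N := by positivity
  have hF0' : 0 ≤ Fr := by positivity
  have hq : 2 + 2 * C / δ ≤ ((p ^ (k - j) : ℕ) : ℝ) := hq₀'.trans (by exact_mod_cast h2)
  set q : ℝ := ((p ^ (k - j) : ℕ) : ℝ) with hqd
  have hqpos : 0 < q := by
    have h1 : (0 : ℝ) ≤ 2 * C / δ := by positivity
    linarith
  have hqδ : 2 * δ + 2 * C ≤ q * δ := by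
    have h3 : 2 * C / δ * δ = 2 * C := by field_simp
    nlinarith
  have h4 : N * (q * δ / 2) ≤ q * Fr * C := by
    have h5 : N * (q * δ / 2) ≤ N * ((q - 1) * δ) - N * C := by
      have : N * (q * δ / 2) ≤ N * ((q - 1) * δ - C) := by
        apply mul_le_mul_of_nonneg_left _ hN0
        nlinarith
      linarith
    simp only [Nat.cast_one] at hreal
    nlinarith
  have h6 : δ / (2 * C) * N = N * (q * δ / 2) / (q * C) := by
    field_simp
  rw [h6, div_le_iff₀ (by positivity)]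
  nlinarith

end Pool.Agent.X208.BR.Pk
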