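import Pool.Agent.X208.BR.CountDefs
import Pool.Agent.X208.BR.PosCore

/-!
# Sets of primes and splitting in abelian fields: the laws
-/

set_option autoImplicit false

open Filter Topology Module
open scoped ENNReal

namespace Pool.Agent.X208.BR.Pk

theorem mem_G_fieldQ (g : GalQ) : g ∈ G fieldQ := by
  have h : IntermediateField.fixingSubgroup (⊥ : IntermediateField ℚ (AlgebraicClosure ℚ)) = ⊤ :=
    IntermediateField.fixingSubgroup_bot
  change g ∈ IntermediateField.fixingSubgroup (⊥ : IntermediateField ℚ (AlgebraicClosure ℚ))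
  rw [h]
  trivial

theorem deg_fieldQ : deg fieldQ = 1 := by
  have : finrank ℚ (⊥ : IntermediateField ℚ (AlgebraicClosure ℚ)) = 1 := by
    rw [IntermediateField.finrank_eq_fixingSubgroup_index, IntermediateField.fixingSubgroup_bot,
      Subgroup.index_top]
  exact this

open Classical in
/-- The permutation character of a field inside an elementary abelian extension of `ℚ`. -/
theorem perm_fieldQ {p : ℕ} {M : Fld} (hp : p.Prime) (h : IsElementary p fieldQ M) {K' : Fld}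
    (h1 : fieldQ ≤ K') (h2 : K' ≤ M) (g : GalQ) :
    perm fieldQ K' ⟨g, mem_G_fieldQ g⟩ = if g ∈ G K' then deg K' else 0 := by
  haveI : Fact p.Prime := ⟨hp⟩
  have h' := (elem_iff p fieldQ M).1 h
  obtain ⟨A, _, _, _, ⟨m⟩⟩ := exists_model h'
  obtain ⟨W, rfl⟩ := m.exists_fld h' h1 h2
  have h3 := perm_fld m h' W ⟨g, mem_G_fieldQ g⟩
  rw [h3]
  have h4 := m.mem_fld h' W ⟨g, mem_G_fieldQ g⟩
  have h5 : deg (m.fld W) = p ^ (finrank (ZMod p) A - finrank (ZMod p) W) * deg fieldQ :=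
    m.finrank_fld h' W
  rw [deg_fieldQ, mul_one] at h5
  rw [h5]
  by_cases hg : m.π ⟨g, mem_G_fieldQ g⟩ ∈ W
  · have : g ∈ G (m.fld W) := h4.2 hg
    exact (if_pos hg).trans (if_pos this).symm
  · have : ¬ g ∈ G (m.fld W) := fun h6 => hg (h4.1 h6)
    exact (if_neg hg).trans (if_neg this).symm

open Classical in
/-- The primes `≤ x`, as a finite set. -/
noncomputable def primesTo (x : ℝ) : Finset ℕ :=
  (Finset.range (⌊x⌋₊ + 1)).filter fun q => q.Prime ∧ (q : ℝ) ≤ x

open Classical in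
theorem primeCount_eq (S : Set ℕ) (x : ℝ) :
    primeCount S x = ((primesTo x).filter fun q => q ∈ S).card := by
  unfold primeCount
  rw [← Set.ncard_coe_finset]
  congr 1
  ext q
  simp only [Set.mem_setOf_eq, primesTo, Finset.coe_filter, Finset.mem_filter, Finset.mem_range]
  constructor
  · rintro ⟨h1, h2, h3⟩
    refine ⟨⟨?_, h1, h2⟩, h3⟩
    exact Nat.lt_succ_of_le (Nat.le_floor h2)
  · rintro ⟨⟨-, h1, h2⟩, h3⟩
    exact ⟨h1, h2, h3⟩

open Classical in
theorem deg_mul_count {p : ℕ} {M : Fld} (hp : p.Prime) (h : IsElementary p fieldQ M) {K' : Fld}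
    (h1 : fieldQ ≤ K') (h2 : K' ≤ M) (S : Set ℕ) (frob : ℕ → GalQ) (x : ℝ) :
    deg K' * primeCount {q | q ∈ S ∧ frob q ∈ G K'} x =
      ∑ q ∈ (primesTo x).filter (fun q => q ∈ S), perm fieldQ K' ⟨frob q, mem_G_fieldQ _⟩ := by
  rw [primeCount_eq]
  have h3 : ∀ q ∈ (primesTo x).filter (fun q => q ∈ S),
      perm fieldQ K' ⟨frob q, mem_G_fieldQ _⟩ = if frob q ∈ G K' then deg K' else 0 :=
    fun q _ => perm_fieldQ hp h h1 h2 (frob q)
  rw [Finset.sum_congr rfl h3, ← Finset.sum_filter, Finset.sum_const, smul_eq_mul, mul_comm,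
    Finset.filter_filter]
  congr 2
  ext q
  simp only [Finset.mem_filter]
  exact Iff.rfl

namespace PrimeData

variable (P : PrimeData)

/-- The deviation, times the degree. -/
noncomputable def dev (K' : Fld) (x : ℝ) : ℂ := ((P.prop K' x - P.pred K' : ℝ) : ℂ)

/-- The class of the deviation, times the degree. -/
noncomputable def cls (K' : Fld) : FunQ := QuotientAddGroup.mk (deg K' • P.dev K')

theorem semQ_cls (K' : Fld) : semQ (P.cls K') = P.disc K' := by
  unfold cls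
  rw [semQ_mk, lim_nsmul]
  rfl

theorem respects {p : ℕ} {M : Fld} (hp : p.Prime) (h : IsElementary p fieldQ M) :
    Respects fieldQ M P.cls := by
  classical
  intro ι κ _ _ A B hAB
  have hsum : ∀ {ι : Type} [Fintype ι] (A : ι → Fld),
      ∑ i, P.cls (A i) = QuotientAddGroup.mk (∑ i, deg (A i) • P.dev (A i)) := by
    intro ι _ A
    exact (map_sum (QuotientAddGroup.mk' nullFun) (fun i => deg (A i) • P.dev (A i))
      Finset.univ).symm
  rw [hsum, hsum]
  congr 1
  ext x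
  rw [Finset.sum_apply, Finset.sum_apply]
  have key : ∀ {ι : Type} [Fintype ι] (A : ι → Fld), (∀ i, fieldQ ≤ A i ∧ A i ≤ M) →
      ∑ i, (deg (A i) • P.dev (A i)) x =
        (((∑ q ∈ (primesTo x).filter (fun q => q ∈ P.S),
          ∑ i, perm fieldQ (A i) ⟨P.frob q, mem_G_fieldQ _⟩ : ℕ) : ℝ) /
            primeCount Set.univ x - ∑ i, deg (A i) * P.pred (A i) : ℝ) := by
    intro ι _ A hA
    rw [Finset.sum_comm]
    have h1 : ∀ i, (deg (A i) • P.dev (A i)) x =
        (((deg (A i) * primeCount {q | q ∈ P.S ∧ P.frob q ∈ G (A i)} x : ℕ) : ℝ) /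
          primeCount Set.univ x - deg (A i) * P.pred (A i) : ℝ) := by
      intro i
      rw [Pi.smul_apply, nsmul_eq_mul]
      unfold dev prop
      push_cast
      ring
    rw [Finset.sum_congr rfl fun i _ => h1 i]
    have h2 : ∀ i, deg (A i) * primeCount {q | q ∈ P.S ∧ P.frob q ∈ G (A i)} x =
        ∑ q ∈ (primesTo x).filter (fun q => q ∈ P.S),
          perm fieldQ (A i) ⟨P.frob q, mem_G_fieldQ _⟩ :=
      fun i => deg_mul_count hp h (hA i).1 (hA i).2 P.S P.frob x
    rw [← Complex.ofReal_sum, Finset.sum_sub_distrib, ← Finset.sum_div, ← Nat.cast_sum,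
      Finset.sum_congr rfl fun i _ => h2 i]
  rw [key A hAB.left, key B hAB.right, P.brauer p M hp h ι κ _ _ A B hAB]
  congr 3
  congr 1
  exact Finset.sum_congr rfl fun q _ => hAB.eq _

theorem disc_eq_zero {K' : Fld} (hK : 0 < deg K') : P.disc K' = 0 ↔ P.Law K' := by
  have h1 : P.disc K' = deg K' * lim (P.dev K') := rfl
  rw [h1, mul_eq_zero, lim_eq_zero]
  have h2 : ¬ ((deg K' : ℝ≥0∞) = 0) := by exact_mod_cast hK.ne'
  have h3 : Tendsto (P.dev K') atTop (𝓝 0) ↔ P.Law K' := by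
    unfold dev Law
    have h4 : Tendsto (fun x => ((P.prop K' x - P.pred K' : ℝ) : ℂ)) atTop (𝓝 0) ↔
        Tendsto (fun x => P.prop K' x - P.pred K') atTop (𝓝 0) := by
      constructor
      · intro h
        have h5 := (Complex.continuous_re.tendsto 0).comp h
        rw [Complex.zero_re] at h5
        exact h5.congr fun x => Complex.ofReal_re _
      · intro h
        have h5 := (Complex.continuous_ofReal.tendsto 0).comp h
        rw [Complex.ofReal_zero] at h5
        exact h5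
    rw [h4, tendsto_sub_nhds_zero_iff]
  rw [h3]
  tauto

theorem deg_pos {p : ℕ} {M : Fld} (hp : p.Prime) (h : IsElementary p fieldQ M) {K' : Fld}
    (h1 : fieldQ ≤ K') (h2 : K' ≤ M) : 0 < deg K' := by
  have h' := (elem_iff p fieldQ M).1 h
  have : FiniteDimensional ℚ (show IntermediateField ℚ Qb from K') := fin_of_le h2 h'.fin
  exact Module.finrank_pos (R := ℚ) (M := (show IntermediateField ℚ Qb from K'))

theorem disc_le {p : ℕ} {M : Fld} (hp : p.Prime) (h : IsElementary p fieldQ M) {K' : Fld}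
    (h1 : fieldQ ≤ K') (h2 : K' ≤ M) : P.disc K' ≤ ENNReal.ofReal 1 := by
  have hpos := deg_pos hp h h1 h2
  have hpos' : (0 : ℝ) < deg K' := by exact_mod_cast hpos
  have h3 : P.disc K' = lim (deg K' • P.dev K') := (lim_nsmul _ _).symm
  rw [h3]
  refine ENNReal.le_of_forall_pos_le_add fun ε hε _ => ?_
  have h4 := P.chebotarev p M hp h K' h1 h2
  have h5 : Tendsto (fun x : ℝ => (deg K' : ℝ) *
      ((primeCount {q | P.frob q ∈ G K'} x : ℝ) / primeCount Set.univ x)) atTop (𝓝 1) := by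
    have := h4.const_mul (deg K' : ℝ)
    rwa [mul_one_div_cancel hpos'.ne'] at this
  have h6 : ∀ᶠ x in atTop, (deg K' : ℝ) *
      ((primeCount {q | P.frob q ∈ G K'} x : ℝ) / primeCount Set.univ x) < 1 + ε :=
    h5.eventually_lt_const (by simpa using hε)
  refine limsup_le_of_le (by isBoundedDefault) ?_
  filter_upwards [h6] with x hx
  have h7 : (deg K' : ℝ) * P.prop K' x ≤ 1 + ε := by
    refine le_trans (mul_le_mul_of_nonneg_left ?_ hpos'.le) hx.le
    unfold prop
    refine div_le_div_of_nonneg_right ?_ (Nat.cast_nonneg _)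
    have hfin : {q : ℕ | q.Prime ∧ (q : ℝ) ≤ x ∧ q ∈ {q | P.frob q ∈ G K'}}.Finite := by
      refine (Set.finite_Iic ⌊x⌋₊).subset fun q hq => ?_
      exact Nat.le_floor hq.2.1
    have h7 : primeCount {q | q ∈ P.S ∧ P.frob q ∈ G K'} x ≤
        primeCount {q | P.frob q ∈ G K'} x :=
      Set.ncard_le_ncard (fun q hq => ⟨hq.1, hq.2.1, hq.2.2.2⟩) hfin
    exact_mod_cast h7
  have h8 : 0 ≤ (deg K' : ℝ) * P.prop K' x := by
    unfold prop
    positivity
  have h9 := P.le p M hp h K' h1 h2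
  have h10 := P.nonneg K'
  have h11 : ‖(deg K' • P.dev K') x‖ ≤ 1 + ε := by
    have h12 : (deg K' • P.dev K') x =
        (((deg K' : ℝ) * P.prop K' x - deg K' * P.pred K' : ℝ) : ℂ) := by
      rw [Pi.smul_apply, nsmul_eq_mul]
      unfold dev
      push_cast
      ring
    rw [h12, Complex.norm_real, Real.norm_eq_abs, abs_le]
    have h13 : 0 ≤ (deg K' : ℝ) * P.pred K' := mul_nonneg hpos'.le h10
    have hε' : (0 : ℝ) ≤ ε := ε.2
    constructor <;> linarith
  rw [← ofReal_norm]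
  calc ENNReal.ofReal ‖(deg K' • P.dev K') x‖ ≤ ENNReal.ofReal (1 + ε) :=
        ENNReal.ofReal_le_ofReal h11
    _ = ENNReal.ofReal 1 + ε := by
        rw [ENNReal.ofReal_add zero_le_one (NNReal.coe_nonneg ε), ENNReal.ofReal_coe_nnreal]

theorem mean {p : ℕ} {M : Fld} (hp : p.Prime) (h : IsElementary p fieldQ M) {j k : ℕ} (hjk : j < k)
    (hd : deg M = p ^ k) :
    ((layer fieldQ M (p ^ j)).ncard : ℝ≥0∞) * ((p ^ (k - j) - 1 : ℕ) : ℝ≥0∞) * P.disc fieldQ ≤
      ((p ^ (k - j) : ℕ) : ℝ≥0∞) * ∑ᶠ K' ∈ layer fieldQ M (p ^ j), P.disc K' +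
        ((layer fieldQ M (p ^ j)).ncard : ℝ≥0∞) * P.disc M := by
  have h1 := mean_law hp h (P.respects hp h) isSem_semQ hjk
    (by rw [deg_fieldQ, mul_one]; exact hd)
  simp only [P.semQ_cls] at h1
  exact h1

theorem positive (h : ¬ P.Law fieldQ) : ∃ c : ℝ, 0 < c ∧ ∃ q₀ : ℕ, ∀ (p : ℕ) (M : Fld) (j : ℕ),
    p.Prime → IsElementary p fieldQ M → q₀ * p ^ j ≤ deg M →
      c * (layer fieldQ M (p ^ j)).ncard ≤ (P.failing M (p ^ j)).ncard := by
  have hQ : 0 < deg fieldQ := by rw [deg_fieldQ]; exact one_pos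
  have hδ0 : P.disc fieldQ ≠ 0 := fun h0 => h ((P.disc_eq_zero hQ).1 h0)
  by_cases hex : ∃ (p : ℕ) (M : Fld), p.Prime ∧ IsElementary p fieldQ M
  · obtain ⟨p', M', hp', hM'⟩ := hex
    have hδtop : P.disc fieldQ ≠ ⊤ :=
      ne_top_of_le_ne_top ENNReal.ofReal_ne_top (P.disc_le hp' hM' le_rfl hM'.le)
    have hδpos : 0 < (P.disc fieldQ).toReal := ENNReal.toReal_pos hδ0 hδtop
    refine ⟨(P.disc fieldQ).toReal / (2 * 1), by positivity,
      ⌈2 + 2 * 1 / (P.disc fieldQ).toReal⌉₊, fun p M j hp hM hd => ?_⟩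
    refine pos_core hp hM one_pos (fun K' h1 h2 => P.disc_le hp hM h1 h2) hδ0
      (fun j k hjk hd => ?_) (fun L hL => hL.1) (fun K' hK' hnot => ?_) (Nat.le_ceil _) ?_
    · rw [deg_fieldQ, mul_one] at hd
      exact P.mean hp hM hjk hd
    · by_contra hcon
      exact hnot ⟨hK', fun hL => hcon ((P.disc_eq_zero (deg_pos hp hM hK'.1 hK'.2.1)).2 hL)⟩
    · rw [deg_fieldQ, mul_one]
      exact hd
  · exact ⟨1, one_pos, 1, fun p M j hp hM => absurd ⟨p, M, hp, hM⟩ hex⟩

theorem nsmul_ne (h : P.disc fieldQ ≠ 0) : ∀ n : ℕ, 0 < n → n • P.cls fieldQ ≠ 0 := by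
  intro n hn h0
  have h1 := isSem_semQ.nsmul n (P.cls fieldQ)
  rw [h0, isSem_semQ.zero, P.semQ_cls] at h1
  rcases mul_eq_zero.1 h1.symm with h2 | h2
  · exact hn.ne' (by exact_mod_cast h2)
  · exact h h2

theorem bad_eq {p : ℕ} {M : Fld} (hp : p.Prime) (h : IsElementary p fieldQ M) (n : ℕ) :
    bad fieldQ M P.cls n ⊆ P.failing M n := by
  rintro L ⟨hL, hL'⟩
  refine ⟨hL, fun h1 => hL' ?_⟩
  have h2 := (P.disc_eq_zero (deg_pos hp h hL.1 hL.2.1)).2 h1
  have h3 : lim (deg L • P.dev L) = 0 := by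
    rw [lim_nsmul]
    exact h2
  exact (QuotientAddGroup.eq_zero_iff _).2 (mem_nullFun.2 (lim_eq_zero.1 h3))

end PrimeData

end Pool.Agent.X208.BR.Pk
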