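import Pool.Agent.X208.BR.Char

/-!
# The Brauer relation of `(ℤ/p)²`, and the proportion of bad fields
-/

set_option autoImplicit false

open Module

namespace Pool.Agent.X208.BR

variable {p : ℕ} [hp : Fact p.Prime] {K M : IntermediateField ℚ Qb} {A : Type} [AddCommGroup A]
  [Module (ZMod p) A] [Finite A] (m : Model p K M A)

namespace Model

omit [Finite A] in
theorem nrm (h : IsElementary p K M) (W : Submodule (ZMod p) A) : Nrm K (m.fld W) := by
  refine ⟨m.K_le_fld h W, fin_of_le (m.fld_le_M h W) h.fin, fun x hx g hg => ?_⟩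
  have hg' : g ∈ GK K := IntermediateField.fixingSubgroup_antitone (m.K_le_fld h W) hg
  have h1 := (m.mem_fld h W ⟨g, hg'⟩).1 hg
  have h2 : m.π ((⟨x, hx⟩ : GK K)⁻¹ * ⟨g, hg'⟩ * ⟨x, hx⟩) = m.π ⟨g, hg'⟩ := by
    rw [m.mul, m.mul, m.inv]
    abel
  rw [← h2] at h1
  exact (m.mem_fld h W _).2 h1

/-- **The Brauer relation of `(ℤ/p)²`**, twisted by `χ`. -/
theorem brauer (h : IsElementary p K M) (W : Submodule (ZMod p) A) (hW : W ∈ codim p A 2)
    {χ : GK K → ℂ} (hχ : IsArtinChar K χ) :
    p • χ + ind (m.K_le_fld h W) (res (m.K_le_fld h W) χ) =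
      ∑ U ∈ (Set.toFinite (above W)).toFinset,
        ind (m.K_le_fld h U) (res (m.K_le_fld h U) χ) := by
  classical
  funext g
  have hW' : finrank (ZMod p) W + 2 = finrank (ZMod p) A := hW
  rw [Pi.add_apply, Pi.smul_apply, Finset.sum_apply, nsmul_eq_mul, (m.nrm h W).ind_res hχ,
    m.index_fld h]
  have h2 : finrank (ZMod p) A - finrank (ZMod p) W = 2 := by omega
  rw [h2]
  have h3 : ∀ U ∈ (Set.toFinite (above W)).toFinset,
      ind (m.K_le_fld h U) (res (m.K_le_fld h U) χ) g =
        if m.π g ∈ U then (p : ℂ) * χ g else 0 := by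
    intro U hU
    have hU' : U ∈ above W := by simpa using hU
    have h4 : finrank (ZMod p) A - finrank (ZMod p) U = 1 := by
      have := hU'.2
      omega
    rw [(m.nrm h U).ind_res hχ, m.index_fld h, h4, pow_one]
    simp only [m.mem_fld h]
  rw [Finset.sum_congr rfl h3]
  have hcard : (Set.toFinite (above W)).toFinset.card = p + 1 := by
    rw [← above_card W hW, Set.ncard_eq_toFinset_card _ (Set.toFinite _)]
  by_cases hg : m.π g ∈ W
  · rw [if_pos ((m.mem_fld h W g).2 hg)]
    have h5 : ∀ U ∈ (Set.toFinite (above W)).toFinset,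
        (if m.π g ∈ U then (p : ℂ) * χ g else 0) = (p : ℂ) * χ g := by
      intro U hU
      have hU' : U ∈ above W := by simpa using hU
      rw [if_pos (hU'.1 hg)]
    rw [Finset.sum_congr rfl h5, Finset.sum_const, hcard, nsmul_eq_mul]
    push_cast
    ring
  · rw [if_neg (fun h6 => hg ((m.mem_fld h W g).1 h6)), add_zero]
    obtain ⟨U, ⟨hU, hgU⟩, huniq⟩ := exists_unique_above W hg
    rw [Finset.sum_eq_single U, if_pos hgU]
    · intro U' hU' hne
      rw [if_neg]
      intro h7
      exact hne (huniq U' ⟨by simpa using hU', h7⟩)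
    · intro h7
      exact absurd (by simpa using hU) h7

/-- The value of an inductive invariant at the restriction of `χ` to the field of `W`. -/
noncomputable def val {V : Type} [CommGroup V] (D : Inductive V) (h : IsElementary p K M)
    (χ : GK K → ℂ) (W : Submodule (ZMod p) A) : V :=
  D.d (m.fld W) (res (m.K_le_fld h W) χ)

theorem val_rel {V : Type} [CommGroup V] (D : Inductive V) (h : IsElementary p K M)
    (W : Submodule (ZMod p) A) (hW : W ∈ codim p A 2) {χ : GK K → ℂ} (hχ : IsArtinChar K χ) :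
    D.d K χ ^ p * m.val D h χ W = ∏ U ∈ (Set.toFinite (above W)).toFinset, m.val D h χ U := by
  have hK : FiniteDimensional ℚ K := fin_of_le h.le h.fin
  have h1 := congrArg (D.d K) (m.brauer h W hW hχ)
  rw [D.add K _ _ hK (hχ.nsmul p) ((m.nrm h W).isChar hχ), D.d_nsmul hK hχ,
    D.d_sum hK _ _ (fun U _ => (m.nrm h U).isChar hχ)] at h1
  rw [D.ind K _ (m.K_le_fld h W) _ (m.nrm h W).fin (hχ.res _) ((m.nrm h W).isChar hχ)] at h1
  rw [val, h1]
  refine Finset.prod_congr rfl fun U _ => ?_
  exact D.ind K _ (m.K_le_fld h U) _ (m.nrm h U).fin (hχ.res _) ((m.nrm h U).isChar hχ)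

end Model

/-- The fields of `layer K M n` at which the invariant of the restriction of `χ` is not trivial. -/
def badLayer {V : Type} [CommGroup V] (D : Inductive V) (K M : IntermediateField ℚ Qb)
    (χ : GK K → ℂ) (n : ℕ) : Set (IntermediateField ℚ Qb) :=
  {K' | K' ∈ layer K M n ∧ ∀ h : K ≤ K', D.d K' (res h χ) ≠ 1}

omit hp in
/-- **The proportion of bad fields.** -/
theorem proportion {V : Type} [CommGroup V] (D : Inductive V) (hp : p.Prime)
    (h : IsElementary p K M) {χ : GK K → ℂ} (hχ : IsArtinChar K χ) (hd : D.d K χ ^ p ≠ 1) :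
    (layer K M p).ncard * (layer K M (p ^ 2)).ncard ≤
      (layer K M p).ncard * (badLayer D K M χ (p ^ 2)).ncard +
        (p + 1) * (layer K M (p ^ 2)).ncard * (badLayer D K M χ p).ncard := by
  haveI : Fact p.Prime := ⟨hp⟩
  obtain ⟨A, _, _, _, ⟨m⟩⟩ := exists_model h
  have h1 : layer K M p = m.fld '' codim p A 1 := by
    have := m.layer_eq h 1
    rwa [pow_one] at this
  have h2 : layer K M (p ^ 2) = m.fld '' codim p A 2 := m.layer_eq h 2
  have hinj := m.fld_injective h
  set b : Set (Submodule (ZMod p) A) := {W | m.val D h χ W ≠ 1} with hb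
  have h3 : ∀ j, badLayer D K M χ (p ^ j) = m.fld '' (b ∩ codim p A j) := by
    intro j
    ext L
    constructor
    · rintro ⟨hL, hL'⟩
      rw [m.layer_eq h j] at hL
      obtain ⟨W, hW, rfl⟩ := hL
      exact ⟨W, ⟨hL' _, hW⟩, rfl⟩
    · rintro ⟨W, ⟨hW', hW⟩, rfl⟩
      exact ⟨(m.layer_iff h W j).2 hW, fun _ => hW'⟩
  have h4 := h3 1
  rw [pow_one] at h4
  rw [h4, h3 2, h1, h2, Set.ncard_image_of_injective _ hinj, Set.ncard_image_of_injective _ hinj,
    Set.ncard_image_of_injective _ hinj, Set.ncard_image_of_injective _ hinj]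
  refine count b b fun W hW => ?_
  by_contra hcon
  push Not at hcon
  obtain ⟨h5, h6⟩ := hcon
  have h7 : m.val D h χ W = 1 := by
    by_contra h8
    exact h5 h8
  have h8 := m.val_rel D h W hW hχ
  rw [h7, mul_one, Finset.prod_eq_one] at h8
  · exact hd h8
  · intro U hU
    have hU' : U ∈ above W := by simpa using hU
    by_contra h9
    exact h6 U hU' h9

end Pool.Agent.X208.BR
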