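import Pool.Agent.X208.BR.STDefs
import Pool.Agent.X208.BR.Mean

/-!
# The discrepancies of the Frobenius classes
-/

set_option autoImplicit false

open Filter Topology Module
open scoped ENNReal

namespace Pool.Agent.X208.BR.Pk

theorem limsup_add_le' {u v : ℝ → ℝ≥0∞} :
    limsup (fun x => u x + v x) atTop ≤ limsup u atTop + limsup v atTop := by
  refine ENNReal.le_of_forall_pos_le_add fun ε hε hlt => ?_
  have hu : limsup u atTop ≠ ⊤ := fun h => by rw [h, top_add] at hlt; exact lt_irrefl _ hlt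
  have hv : limsup v atTop ≠ ⊤ := fun h => by rw [h, add_top] at hlt; exact lt_irrefl _ hlt
  have hε2 : (ε : ℝ≥0∞) / 2 ≠ 0 := by
    simp only [ne_eq, ENNReal.div_eq_zero_iff, ENNReal.coe_eq_zero, not_or]
    exact ⟨hε.ne', by norm_num⟩
  have h1 : ∀ᶠ x in atTop, u x < limsup u atTop + ε / 2 :=
    eventually_lt_of_limsup_lt (ENNReal.lt_add_right hu hε2)
  have h2 : ∀ᶠ x in atTop, v x < limsup v atTop + ε / 2 :=
    eventually_lt_of_limsup_lt (ENNReal.lt_add_right hv hε2)
  refine limsup_le_of_le (by isBoundedDefault) ?_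
  filter_upwards [h1, h2] with x hx hy
  calc u x + v x ≤ (limsup u atTop + ε / 2) + (limsup v atTop + ε / 2) := add_le_add hx.le hy.le
    _ = limsup u atTop + limsup v atTop + (ε / 2 + ε / 2) := by ring
    _ = _ := by rw [ENNReal.add_halves]

/-- The functions which tend to `0`. -/
def nullFun : AddSubgroup (ℝ → ℂ) where
  carrier := {u | Tendsto u atTop (𝓝 0)}
  zero_mem' := tendsto_const_nhds
  add_mem' := fun {a b} ha hb => by
    have := Tendsto.add (show Tendsto a atTop (𝓝 0) from ha) (show Tendsto b atTop (𝓝 0) from hb)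
    rw [add_zero] at this
    exact this
  neg_mem' := fun {a} ha => by
    have := Tendsto.neg (show Tendsto a atTop (𝓝 0) from ha)
    rw [neg_zero] at this
    exact this

theorem mem_nullFun {u : ℝ → ℂ} : u ∈ nullFun ↔ Tendsto u atTop (𝓝 0) := Iff.rfl

/-- The functions modulo those which tend to `0`. -/
abbrev FunQ : Type := (ℝ → ℂ) ⧸ nullFun

/-- The upper limit of the absolute value. -/
noncomputable def lim (u : ℝ → ℂ) : ℝ≥0∞ := limsup (fun x => ‖u x‖ₑ) atTop

theorem lim_add (u v : ℝ → ℂ) : lim (u + v) ≤ lim u + lim v := by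
  refine le_trans ?_ limsup_add_le'
  exact limsup_le_limsup (Eventually.of_forall fun x => enorm_add_le _ _)

theorem lim_eq_zero {u : ℝ → ℂ} : lim u = 0 ↔ Tendsto u atTop (𝓝 0) := by
  rw [tendsto_zero_iff_enorm_tendsto_zero]
  constructor
  · intro h
    exact tendsto_of_le_liminf_of_limsup_le bot_le (le_of_eq h)
  · intro h
    exact h.limsup_eq

theorem lim_congr {u v : ℝ → ℂ} (h : Tendsto (u - v) atTop (𝓝 0)) : lim u = lim v := by
  have key : ∀ {u v : ℝ → ℂ}, Tendsto (u - v) atTop (𝓝 0) → lim u ≤ lim v := by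
    intro u v h
    have h1 := lim_add (u - v) v
    rw [sub_add_cancel, lim_eq_zero.2 h, zero_add] at h1
    exact h1
  refine le_antisymm (key h) (key ?_)
  have := h.neg
  rw [neg_zero] at this
  refine this.congr fun x => ?_
  simp

theorem lim_neg (u : ℝ → ℂ) : lim (-u) = lim u := by
  unfold lim
  simp

theorem lim_nsmul (n : ℕ) (u : ℝ → ℂ) : lim (n • u) = n * lim u := by
  unfold lim
  rw [← ENNReal.limsup_const_mul_of_ne_top (ENNReal.natCast_ne_top n)]
  congr 1
  ext x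
  rw [Pi.smul_apply, nsmul_eq_mul, enorm_mul]
  congr 1
  simp [enorm_eq_nnnorm]

/-- The upper limit of the absolute value, on classes. -/
noncomputable def semQ (v : FunQ) : ℝ≥0∞ := lim (Quotient.out v)

theorem semQ_mk (u : ℝ → ℂ) : semQ (QuotientAddGroup.mk u) = lim u := by
  unfold semQ
  apply lim_congr
  have h1 : (QuotientAddGroup.mk (Quotient.out (QuotientAddGroup.mk u : FunQ)) : FunQ) =
      QuotientAddGroup.mk u := Quotient.out_eq _
  have h2 := QuotientAddGroup.eq.1 h1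
  have h3 := mem_nullFun.1 h2
  have h4 := h3.neg
  rw [neg_zero] at h4
  refine h4.congr fun x => ?_
  simp only [Pi.neg_apply, Pi.add_apply, Pi.sub_apply]
  ring

theorem isSem_semQ : IsSem semQ where
  add := by
    intro a b
    obtain ⟨u, rfl⟩ := QuotientAddGroup.mk_surjective a
    obtain ⟨v, rfl⟩ := QuotientAddGroup.mk_surjective b
    rw [← QuotientAddGroup.mk_add, semQ_mk, semQ_mk, semQ_mk]
    exact lim_add u v
  neg := by
    intro a
    obtain ⟨u, rfl⟩ := QuotientAddGroup.mk_surjective a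
    rw [← QuotientAddGroup.mk_neg, semQ_mk, semQ_mk]
    exact lim_neg u
  nsmul := by
    intro n a
    obtain ⟨u, rfl⟩ := QuotientAddGroup.mk_surjective a
    have : n • (QuotientAddGroup.mk u : FunQ) = QuotientAddGroup.mk (n • u) := rfl
    rw [this, semQ_mk, semQ_mk]
    exact lim_nsmul n u

/-- The degree of an elementary abelian extension. -/
theorem exists_deg {p : ℕ} {K M : Fld} (hp : p.Prime) (h : IsElementary p K M) :
    0 < deg K ∧ ∃ k, deg M = p ^ k * deg K := by
  haveI : Fact p.Prime := ⟨hp⟩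
  have h' := (elem_iff p K M).1 h
  obtain ⟨A, _, _, _, ⟨m⟩⟩ := exists_model h'
  have hK : 0 < deg K := by
    have : FiniteDimensional ℚ (show IntermediateField ℚ Qb from K) := fin_of_le h'.le h'.fin
    exact Module.finrank_pos (R := ℚ) (M := (show IntermediateField ℚ Qb from K))
  obtain ⟨W, hW⟩ := m.exists_fld h' h'.le le_rfl
  have h1 := m.finrank_fld h' W
  rw [hW] at h1
  exact ⟨hK, _, h1⟩

namespace FrobeniusMeans

variable {K : Fld} (A : FrobeniusMeans K)

/-- The class of the deviation. -/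
def cls (t : A.Test) (K' : Fld) : FunQ := QuotientAddGroup.mk (A.dev t K')

theorem semQ_cls (t : A.Test) (K' : Fld) : semQ (A.cls t K') = A.disc t K' := semQ_mk _

theorem cls_eq_zero (t : A.Test) (K' : Fld) :
    A.cls t K' = 0 ↔ Tendsto (A.dev t K') atTop (𝓝 0) :=
  QuotientAddGroup.eq_zero_iff _

theorem disc_eq_zero (t : A.Test) (K' : Fld) :
    A.disc t K' = 0 ↔ Tendsto (A.dev t K') atTop (𝓝 0) := lim_eq_zero

theorem respects {p : ℕ} {M : Fld} (hM : A.Good p M) (t : A.Test) : Respects K M (A.cls t) := by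
  intro ι κ _ _ B C hBC
  have h1 := A.brauer p M hM.1 hM.2.1 hM.2.2 t ι κ _ _ B C hBC
  have h2 : ∀ {ι : Type} [Fintype ι] (B : ι → Fld),
      ∑ i, A.cls t (B i) = QuotientAddGroup.mk (∑ i, A.dev t (B i)) := by
    intro ι _ B
    have := (map_sum (QuotientAddGroup.mk' nullFun) (fun i => A.dev t (B i)) Finset.univ)
    exact this.symm
  rw [h2, h2, QuotientAddGroup.eq]
  have h3 := h1.neg
  rw [neg_zero] at h3
  refine mem_nullFun.2 (h3.congr fun x => ?_)
  simp only [Pi.add_apply, Pi.neg_apply, Finset.sum_apply]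
  ring

theorem nsmul_ne {t : A.Test} (h : A.disc t K ≠ 0) : ∀ n : ℕ, 0 < n → n • A.cls t K ≠ 0 := by
  intro n hn h0
  have h1 := isSem_semQ.nsmul n (A.cls t K)
  rw [h0, isSem_semQ.zero, A.semQ_cls] at h1
  have h2 := (mul_eq_zero.1 h1.symm)
  rcases h2 with h2 | h2
  · exact hn.ne' (by exact_mod_cast h2)
  · exact h h2

/-- The mean law for the discrepancies. -/
theorem mean {p : ℕ} {M : Fld} (hM : A.Good p M) (t : A.Test) {j k : ℕ} (hjk : j < k)
    (hd : deg M = p ^ k * deg K) :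
    ((layer K M (p ^ j)).ncard : ℝ≥0∞) * ((p ^ (k - j) - 1 : ℕ) : ℝ≥0∞) * A.disc t K ≤
      ((p ^ (k - j) : ℕ) : ℝ≥0∞) * ∑ᶠ K' ∈ layer K M (p ^ j), A.disc t K' +
        ((layer K M (p ^ j)).ncard : ℝ≥0∞) * A.disc t M := by
  have h := mean_law hM.1 hM.2.1 (A.respects hM t) isSem_semQ hjk hd
  simp only [A.semQ_cls] at h
  exact h

theorem disc_le {t : A.Test} {C : ℝ} (hC : ∀ K' x, ‖A.dev t K' x‖ ≤ C) (K' : Fld) :
    A.disc t K' ≤ ENNReal.ofReal C := by
  refine limsup_le_of_le (by isBoundedDefault) (Eventually.of_forall fun x => ?_)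
  rw [← ofReal_norm_eq_enorm]
  exact ENNReal.ofReal_le_ofReal (hC K' x)

/-- The positive proportion. -/
theorem positive (h : ¬ A.Law K) : ∃ c : ℝ, 0 < c ∧ ∃ q₀ : ℕ, ∀ (p : ℕ) (M : Fld) (j : ℕ),
    A.Good p M → q₀ * p ^ j * deg K ≤ deg M →
      c * (layer K M (p ^ j)).ncard ≤ (A.failing M (p ^ j)).ncard := by
  classical
  unfold Law at h
  push Not at h
  obtain ⟨t, ht⟩ := h
  obtain ⟨C₀, hC₀⟩ := A.bounded t
  set C := max C₀ 1 with hCdef
  have hC : ∀ K' x, ‖A.dev t K' x‖ ≤ C := fun K' x => (hC₀ K' x).trans (le_max_left _ _)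
  have hCpos : 0 < C := lt_of_lt_of_le one_pos (le_max_right _ _)
  have hδ0 : A.disc t K ≠ 0 := fun h => ht ((A.disc_eq_zero t K).1 h)
  have hδtop : A.disc t K ≠ ⊤ := ne_top_of_le_ne_top ENNReal.ofReal_ne_top (A.disc_le hC K)
  set δ := (A.disc t K).toReal with hδ
  have hδpos : 0 < δ := ENNReal.toReal_pos hδ0 hδtop
  have hδC : δ ≤ C := by
    have := ENNReal.toReal_mono ENNReal.ofReal_ne_top (A.disc_le hC K)
    rwa [ENNReal.toReal_ofReal hCpos.le] at this
  refine ⟨δ / (2 * C), by positivity, ⌈2 + 2 * C / δ⌉₊, fun p M j hM hd => ?_⟩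
  obtain ⟨hK, k, hk⟩ := exists_deg hM.1 hM.2.1
  have hp := hM.1
  set q₀ := ⌈2 + 2 * C / δ⌉₊ with hq₀
  have hq₀' : 2 + 2 * C / δ ≤ q₀ := Nat.le_ceil _
  have hq2 : 2 ≤ q₀ := by
    have h1 : (0 : ℝ) ≤ 2 * C / δ := by positivity
    have : (2 : ℝ) ≤ q₀ := by linarith
    exact_mod_cast this
  rw [hk] at hd
  have h1 : q₀ * p ^ j ≤ p ^ k := Nat.le_of_mul_le_mul_right hd hK
  have hpj : 0 < p ^ j := pow_pos hp.pos j
  have hjk : j < k := by
    rw [← Nat.pow_lt_pow_iff_right hp.one_lt]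
    nlinarith
  have h2 : q₀ ≤ p ^ (k - j) := by
    have h3 : p ^ k = p ^ (k - j) * p ^ j := by
      rw [← pow_add]
      congr 1
      omega
    rw [h3] at h1
    exact Nat.le_of_mul_le_mul_right h1 hpj
  have hmean := A.mean hM t hjk hk
  have hfinl : (layer K M (p ^ j)).Finite := layer_finite' hp hM.2.1 j
  set L := hfinl.toFinset with hL
  have hsum : ∑ᶠ K' ∈ layer K M (p ^ j), A.disc t K' ≤
      ((A.failing M (p ^ j)).ncard : ℝ≥0∞) * ENNReal.ofReal C := by
    rw [finsum_mem_eq_finite_toFinset_sum _ hfinl]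
    have hfinf : (A.failing M (p ^ j)).Finite := hfinl.subset fun L hL => hL.1
    rw [Set.ncard_eq_toFinset_card _ hfinf, ← nsmul_eq_mul, ← Finset.sum_const]
    rw [← Finset.sum_subset (s₁ := hfinf.toFinset)]
    · exact Finset.sum_le_sum fun K' _ => A.disc_le hC K'
    · intro K' hK'
      rw [Set.Finite.mem_toFinset] at hK' ⊢
      exact hK'.1
    · intro K' hK' hnot
      rw [Set.Finite.mem_toFinset] at hK' hnot
      have : A.Law K' := by
        by_contra hcon
        exact hnot ⟨hK', hcon⟩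
      exact (A.disc_eq_zero t K').2 (this t)
  have hmain : ((layer K M (p ^ j)).ncard : ℝ≥0∞) * ((p ^ (k - j) - 1 : ℕ) : ℝ≥0∞) * A.disc t K ≤
      ((p ^ (k - j) : ℕ) : ℝ≥0∞) * (((A.failing M (p ^ j)).ncard : ℝ≥0∞) * ENNReal.ofReal C) +
        ((layer K M (p ^ j)).ncard : ℝ≥0∞) * ENNReal.ofReal C :=
    hmean.trans (add_le_add (mul_le_mul_right hsum _) (mul_le_mul_right (A.disc_le hC M) _))
  have hreal := ENNReal.toReal_mono (by
    refine ENNReal.add_ne_top.2 ⟨?_, ?_⟩
    · exact ENNReal.mul_ne_top (ENNReal.natCast_ne_top _)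
        (ENNReal.mul_ne_top (ENNReal.natCast_ne_top _) ENNReal.ofReal_ne_top)
    · exact ENNReal.mul_ne_top (ENNReal.natCast_ne_top _) ENNReal.ofReal_ne_top) hmain
  rw [ENNReal.toReal_add (ENNReal.mul_ne_top (ENNReal.natCast_ne_top _)
        (ENNReal.mul_ne_top (ENNReal.natCast_ne_top _) ENNReal.ofReal_ne_top))
      (ENNReal.mul_ne_top (ENNReal.natCast_ne_top _) ENNReal.ofReal_ne_top)] at hreal
  simp only [ENNReal.toReal_mul, ENNReal.toReal_natCast, ENNReal.toReal_ofReal hCpos.le] at hreal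
  rw [← hδ, Nat.cast_sub (Nat.one_le_pow _ _ hp.pos)] at hreal
  set N : ℝ := ((layer K M (p ^ j)).ncard : ℝ) with hN
  set F : ℝ := ((A.failing M (p ^ j)).ncard : ℝ) with hF
  have hN0 : 0 ≤ N := by positivity
  have hF0 : 0 ≤ F := by positivity
  have hq : 2 + 2 * C / δ ≤ ((p ^ (k - j) : ℕ) : ℝ) := hq₀'.trans (by exact_mod_cast h2)
  set q : ℝ := ((p ^ (k - j) : ℕ) : ℝ) with hqd
  have hqpos : 0 < q := by
    have h1 : (0 : ℝ) ≤ 2 * C / δ := by positivity
    linarith
  have hqδ : 2 * δ + 2 * C ≤ q * δ := by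
    have h3 : 2 * C / δ * δ = 2 * C := by field_simp
    nlinarith
  have h4 : N * (q * δ / 2) ≤ q * F * C := by
    have h5 : N * (q * δ / 2) ≤ N * ((q - 1) * δ) - N * C := by
      have : N * (q * δ / 2) ≤ N * ((q - 1) * δ - C) := by
        apply mul_le_mul_of_nonneg_left _ hN0
        nlinarith
      linarith
    simp only [Nat.cast_one] at hreal
    nlinarith
  have h6 : δ / (2 * C) * N = N * (q * δ / 2) / (q * C) := by
    field_simp
  rw [h6, div_le_iff₀ (by positivity)]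
  nlinarith

end FrobeniusMeans

end Pool.Agent.X208.BR.Pk
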