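import Pool.Agent.X208.BR.PermDefs

/-!
# Means over the Frobenius classes of an abelian variety
-/

set_option autoImplicit false

open Filter Topology
open scoped ENNReal

namespace Pool.Agent.X208.BR.Pk

/-- **The means over the Frobenius classes of an abelian variety `A`** over the number field `K`.
`Test` are the continuous complex class functions on the Sato–Tate group `ST(A)`; `Same M` means that
`ST(A_M) = ST(A)`; for such `M` and `K ≤ K' ≤ M`, `dev t K' x` is the mean of `t` over the Frobenius
classes of `A` at the primes of `K'` of good reduction of norm at most `x`, minus the integral of `t`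
against the Haar measure. They are bounded, and respect Brauer relations in the limit (count the primes of
degree one of `K'` over `K`, and use the prime ideal theorem). -/
structure FrobeniusMeans (K : Fld) where
  Test : Type
  Same : Fld → Prop
  dev : Test → Fld → ℝ → ℂ
  bounded : ∀ t, ∃ C : ℝ, ∀ K' x, ‖dev t K' x‖ ≤ C
  brauer : ∀ (p : ℕ) (M : Fld), p.Prime → IsElementary p K M → Same M →
    ∀ (t : Test) (ι κ : Type) (_ : Fintype ι) (_ : Fintype κ) (A : ι → Fld) (B : κ → Fld),
      BrauerRel K M A B →
        Tendsto (fun x => ∑ i, dev t (A i) x - ∑ j, dev t (B j) x) atTop (𝓝 0)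

namespace FrobeniusMeans

variable {K : Fld} (A : FrobeniusMeans K)

/-- The Sato–Tate law for `A` over `K'`. -/
def Law (K' : Fld) : Prop := ∀ t, Tendsto (A.dev t K') atTop (𝓝 0)

/-- The discrepancy of the test function `t` over `K'`: the upper limit of the absolute value of the
difference of the mean and the integral. -/
noncomputable def disc (t : A.Test) (K' : Fld) : ℝ≥0∞ := limsup (fun x => ‖A.dev t K' x‖ₑ) atTop

/-- `M/K` is elementary abelian of exponent `p`, and `ST(A_M) = ST(A)`. -/
def Good (p : ℕ) (M : Fld) : Prop := p.Prime ∧ IsElementary p K M ∧ A.Same M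

/-- The fields of the layer over which the Sato–Tate law fails. -/
def failing (M : Fld) (n : ℕ) : Set Fld := {K' | K' ∈ layer K M n ∧ ¬ A.Law K'}

end FrobeniusMeans

end Pool.Agent.X208.BR.Pk
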