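import Pool.Agent.X208.BR.SouDefs
import Pool.Agent.X208.BR.Mean

/-!
# Two integer invariants which respect Brauer relations
-/

set_option autoImplicit false

open scoped ENNReal

namespace Pool.Agent.X208.BR.Pk

/-- The absolute value of an integer, as a seminorm. -/
noncomputable def absSem (v : ℤ) : ℝ≥0∞ := (v.natAbs : ℝ≥0∞)

theorem isSem_absSem : IsSem absSem where
  add a b := by
    unfold absSem
    exact_mod_cast Int.natAbs_add_le a b
  neg a := by
    unfold absSem
    rw [Int.natAbs_neg]
  nsmul n a := by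
    unfold absSem
    rw [nsmul_eq_mul, Int.natAbs_mul, Int.natAbs_natCast]
    push_cast
    rfl

/-- The mean law for an integer invariant. -/
theorem int_mean {p : ℕ} {K M : Fld} {f : Fld → ℤ} (hp : p.Prime) (h : IsElementary p K M)
    (hf : Respects K M f) {j k : ℕ} (hjk : j < k) (hd : deg M = p ^ k * deg K) :
    (layer K M (p ^ j)).ncard * (p ^ (k - j) - 1) * (f K).natAbs ≤
      p ^ (k - j) * ∑ᶠ K' ∈ layer K M (p ^ j), (f K').natAbs +
        (layer K M (p ^ j)).ncard * (f M).natAbs := by
  have h1 := mean_law hp h hf isSem_absSem hjk hd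
  have hfin := layer_finite' hp h j
  rw [finsum_mem_eq_finite_toFinset_sum _ hfin] at h1 ⊢
  unfold absSem at h1
  rw [← Nat.cast_sum] at h1
  exact_mod_cast h1

namespace ZetaOrders

variable {K : Fld} (X : ZetaOrders K)

/-- The difference. -/
def diff (K' : Fld) : ℤ := X.ordz K' - X.chi K'

theorem respects {p : ℕ} {M : Fld} (hp : p.Prime) (h : IsElementary p K M) :
    Respects K M X.diff := by
  intro ι κ _ _ A B hAB
  have h1 := X.descent p M hp h ι κ _ _ A B hAB
  have h2 := X.artin p M hp h ι κ _ _ A B hAB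
  simp only [diff, Finset.sum_sub_distrib]
  rw [h1, h2]

theorem diff_ne (K' : Fld) : X.diff K' ≠ 0 ↔ X.ordz K' ≠ X.chi K' := by
  unfold diff
  rw [ne_eq, sub_eq_zero]

theorem bad_eq (M : Fld) (n : ℕ) : bad K M X.diff n = X.failing M n := by
  ext L
  exact and_congr_right fun _ => X.diff_ne L

theorem nsmul_ne (h : X.ordz K ≠ X.chi K) : ∀ n : ℕ, 0 < n → n • X.diff K ≠ 0 := by
  intro n hn
  rw [nsmul_eq_mul]
  exact mul_ne_zero (by exact_mod_cast hn.ne') ((X.diff_ne K).2 h)

end ZetaOrders

end Pool.Agent.X208.BR.Pk
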