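import Pool.Agent.X208.BR.PermDefs

/-!
# Two integer invariants of the base changes of an arithmetic scheme
-/

set_option autoImplicit false

namespace Pool.Agent.X208.BR.Pk

/-- **Soulé's two invariants.** Let `X` be smooth and projective over the ring of integers of the number
field `K`, of Krull dimension `d`, and for a finite extension `K'` of `K` let `X_{K'}` be its base change to
the ring of integers of `K'`: `ordz K' = ord_{s=0} ζ(X_{K'}, s)` and
`chi K' = ∑_i (-1)^{i+1} dim H^{2d-i}(X_{K'}, ℚ(d))` (assumed to be defined for all the fields in question).
Both respect Brauer relations: the first by Artin's formalism, the second by Galois descent. -/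
structure ZetaOrders (K : Fld) where
  ordz : Fld → ℤ
  chi : Fld → ℤ
  artin : ∀ (p : ℕ) (M : Fld), p.Prime → IsElementary p K M → Respects K M ordz
  descent : ∀ (p : ℕ) (M : Fld), p.Prime → IsElementary p K M → Respects K M chi

namespace ZetaOrders

variable {K : Fld} (X : ZetaOrders K)

/-- The absolute value of the difference of the two sides of Soulé's formula. -/
def defect (K' : Fld) : ℕ := (X.ordz K' - X.chi K').natAbs

/-- The fields of the layer over which Soulé's formula fails. -/
def failing (M : Fld) (n : ℕ) : Set Fld := {K' | K' ∈ layer K M n ∧ X.ordz K' ≠ X.chi K'}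

end ZetaOrders

end Pool.Agent.X208.BR.Pk
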