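import Pool.Agent.X208.BR.StarkDefs
import Pool.Agent.X208.BR.Rel

/-!
# The Stark defect is an inductive invariant
-/

set_option autoImplicit false

open Module

namespace Pool.Agent.X208.BR

variable {K : IntermediateField ℚ Qb}

theorem IsCharOf.artin {L : IntermediateField ℚ Qb} {χ : GK K → ℂ} (hL : FiniteDimensional ℚ L)
    (h : IsCharOf L K χ) : IsArtinChar K χ := by
  obtain ⟨ι, i1, i2, ρ, h1, h2⟩ := h
  exact ⟨ι, i1, i2, ρ, ⟨L, hL, h1⟩, h2⟩

theorem IsCharOf.mono {L L' : IntermediateField ℚ Qb} {χ : GK K → ℂ} (hL : L ≤ L')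
    (h : IsCharOf L K χ) : IsCharOf L' K χ := by
  obtain ⟨ι, i1, i2, ρ, h1, h2⟩ := h
  exact ⟨ι, i1, i2, ρ, fun g hg => h1 g (IntermediateField.fixingSubgroup_antitone hL hg), h2⟩

theorem IsCharOf.conj {L : IntermediateField ℚ Qb} {χ : GK K → ℂ} (σ : ℂ ≃+* ℂ)
    (h : IsCharOf L K χ) : IsCharOf L K (fun g => σ (χ g)) := by
  obtain ⟨ι, i1, i2, ρ, h1, h2⟩ := h
  refine ⟨ι, i1, i2, ((σ : ℂ →+* ℂ).mapMatrix : Matrix ι ι ℂ →+* Matrix ι ι ℂ).toMonoidHom.comp ρ,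
    fun g hg => ?_, fun g => ?_⟩
  · simp [h1 g hg]
  · change σ (χ g) = _
    rw [h2 g]
    simp [Matrix.trace, map_sum]

theorem exists_over (L K : IntermediateField ℚ Qb) (hL : FiniteDimensional ℚ L)
    (hK : FiniteDimensional ℚ K) : ∃ L', Over L' K ∧ L ≤ L' := by
  have := IntermediateField.finiteDimensional_sup L K
  have hn : Normal ℚ (IntermediateField.normalClosure ℚ (L ⊔ K : IntermediateField ℚ Qb) Qb) := by
    have h := normalClosure.normal (F := ℚ) (K := (L ⊔ K : IntermediateField ℚ Qb)) (L := Qb)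
    exact h
  refine ⟨IntermediateField.normalClosure ℚ (L ⊔ K : IntermediateField ℚ Qb) Qb,
    ⟨?_, inferInstance, hn⟩, ?_⟩
  · exact le_sup_right.trans (IntermediateField.le_normalClosure _)
  · exact le_sup_left.trans (IntermediateField.le_normalClosure _)

theorem exists_charOf {χ : GK K → ℂ} (hK : FiniteDimensional ℚ K) (h : IsArtinChar K χ) :
    ∃ L, Over L K ∧ IsCharOf L K χ := by
  obtain ⟨ι, i1, i2, ρ, ⟨L, hL, h1⟩, h2⟩ := h
  obtain ⟨L', hL', hle⟩ := exists_over L K hL hK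
  exact ⟨L', hL', IsCharOf.mono hle ⟨ι, i1, i2, ρ, h1, h2⟩⟩

namespace StarkSystem

variable (T : StarkSystem)

open Classical in
/-- The Stark defect `A(χ)^σ / A(χ^σ)`. -/
noncomputable def defect (σ : ℂ ≃+* ℂ) (K : IntermediateField ℚ Qb) (χ : GK K → ℂ) : ℂˣ :=
  if h : ∃ L, Over L K ∧ IsCharOf L K χ then
    Units.map (σ : ℂ →+* ℂ).toMonoidHom (T.A h.choose K χ) /
      T.A h.choose K (fun g => σ (χ g))
  else 1

/-- The defect at the level `L`. -/
noncomputable def dL (σ : ℂ ≃+* ℂ) (L K : IntermediateField ℚ Qb) (χ : GK K → ℂ) : ℂˣ :=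
  Units.map (σ : ℂ →+* ℂ).toMonoidHom (T.A L K χ) / T.A L K (fun g => σ (χ g))

theorem dL_coe (σ : ℂ ≃+* ℂ) (L K : IntermediateField ℚ Qb) (χ : GK K → ℂ) :
    ((T.dL σ L K χ : ℂˣ) : ℂ) = σ (T.A L K χ) / T.A L K (fun g => σ (χ g)) := by
  simp [dL]

theorem dL_mono (σ : ℂ ≃+* ℂ) {L L' K : IntermediateField ℚ Qb} {χ : GK K → ℂ} (h : Over L K)
    (h' : Over L' K) (hle : L ≤ L') (hχ : IsCharOf L K χ) : T.dL σ L K χ = T.dL σ L' K χ := by
  apply Units.ext
  rw [dL_coe, dL_coe]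
  exact T.indep L L' K χ σ h h' hle hχ

theorem exists_common {L L' K : IntermediateField ℚ Qb} (h : Over L K) (h' : Over L' K) :
    ∃ L'', Over L'' K ∧ L ≤ L'' ∧ L' ≤ L'' := by
  have h1 := h.fin
  have h2 := h'.fin
  have h3 : FiniteDimensional ℚ K := fin_of_le h.le h.fin
  have := IntermediateField.finiteDimensional_sup L L'
  obtain ⟨L'', h4, h5⟩ := exists_over (L ⊔ L') K this h3
  exact ⟨L'', h4, le_sup_left.trans h5, le_sup_right.trans h5⟩

theorem defect_eq (σ : ℂ ≃+* ℂ) {L K : IntermediateField ℚ Qb} {χ : GK K → ℂ} (h : Over L K)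
    (hχ : IsCharOf L K χ) : T.defect σ K χ = T.dL σ L K χ := by
  classical
  have hex : ∃ L, Over L K ∧ IsCharOf L K χ := ⟨L, h, hχ⟩
  have h1 : T.defect σ K χ = T.dL σ hex.choose K χ := by
    unfold defect
    rw [dif_pos hex]
    rfl
  obtain ⟨h2, h3⟩ := hex.choose_spec
  obtain ⟨L'', h4, h5, h6⟩ := exists_common h2 h
  rw [h1, T.dL_mono σ h2 h4 h5 h3, T.dL_mono σ h h4 h6 hχ]

theorem IsCharOf_add {L : IntermediateField ℚ Qb} {χ ψ : GK K → ℂ} (h₁ : IsCharOf L K χ)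
    (h₂ : IsCharOf L K ψ) : IsCharOf L K (χ + ψ) := by
  obtain ⟨ι, _, _, ρ, hρ, hχ⟩ := h₁
  obtain ⟨κ, _, _, τ, hτ, hψ⟩ := h₂
  refine ⟨ι ⊕ κ, inferInstance, inferInstance,
    { toFun := fun g => Matrix.fromBlocks (ρ g) 0 0 (τ g)
      map_one' := by rw [map_one, map_one, Matrix.fromBlocks_one]
      map_mul' := fun g h => by
        rw [map_mul, map_mul, Matrix.fromBlocks_multiply]
        simp }, fun g hg => ?_, fun g => ?_⟩
  · simp only [MonoidHom.coe_mk, OneHom.coe_mk, hρ g hg, hτ g hg, Matrix.fromBlocks_one]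
  · simp [Matrix.trace, Fintype.sum_sum_type, hχ g, hψ g]

theorem ind_conj {K K' : IntermediateField ℚ Qb} (h : K ≤ K') (hK' : FiniteDimensional ℚ K')
    (χ : GK K' → ℂ) (σ : ℂ ≃+* ℂ) :
    (fun g => σ (BR.ind h χ g)) = BR.ind h (fun g => σ (χ g)) := by
  classical
  have hi : ((GK K').subgroupOf (GK K)).index ≠ 0 := by
    change (GK K').relIndex (GK K) ≠ 0
    intro h3
    have h4 := Subgroup.relIndex_mul_index (IntermediateField.fixingSubgroup_antitone h)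
    rw [h3, zero_mul] at h4
    exact index_ne_zero hK' h4.symm
  have : Finite (GK K ⧸ (GK K').subgroupOf (GK K)) := Nat.finite_of_card_ne_zero hi
  have : Fintype (GK K ⧸ (GK K').subgroupOf (GK K)) := Fintype.ofFinite _
  funext g
  unfold BR.ind
  rw [finsum_eq_sum_of_fintype, finsum_eq_sum_of_fintype, map_sum]
  refine Finset.sum_congr rfl fun x _ => ?_
  split_ifs with hx
  · rfl
  · exact map_zero σ

theorem defect_add (σ : ℂ ≃+* ℂ) (K : IntermediateField ℚ Qb) (χ ψ : GK K → ℂ)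
    (hK : FiniteDimensional ℚ K) (hχ : IsArtinChar K χ) (hψ : IsArtinChar K ψ) :
    T.defect σ K (χ + ψ) = T.defect σ K χ * T.defect σ K ψ := by
  obtain ⟨L, h1, h2⟩ := exists_charOf hK hχ
  obtain ⟨L', h3, h4⟩ := exists_charOf hK hψ
  obtain ⟨L'', h5, h6, h7⟩ := exists_common h1 h3
  have h8 := h2.mono h6
  have h9 := h4.mono h7
  rw [T.defect_eq σ h5 h8, T.defect_eq σ h5 h9, T.defect_eq σ h5 (IsCharOf_add h8 h9)]
  have h10 : (fun g => σ ((χ + ψ) g)) = (fun g => σ (χ g)) + fun g => σ (ψ g) := by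
    funext g
    simp
  unfold dL
  rw [h10, T.add L'' K _ _ h5 h8 h9, T.add L'' K _ _ h5 (h8.conj σ) (h9.conj σ), map_mul]
  exact mul_div_mul_comm _ _ _ _

theorem defect_ind (σ : ℂ ≃+* ℂ) (K K' : IntermediateField ℚ Qb) (h : K ≤ K') (χ : GK K' → ℂ)
    (hK' : FiniteDimensional ℚ K') (hχ : IsArtinChar K' χ) (hi : IsArtinChar K (BR.ind h χ)) :
    T.defect σ K (BR.ind h χ) = T.defect σ K' χ := by
  obtain ⟨L, h1, h2⟩ := exists_charOf (fin_of_le h hK') hi
  obtain ⟨L', h3, h4⟩ := exists_charOf hK' hχ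
  obtain ⟨L'', h5, h6, h7⟩ := exists_common (K := K) h1 ⟨h.trans h3.le, h3.fin, h3.normal⟩
  have h8 : Over L'' K' := ⟨h3.le.trans h7, h5.fin, h5.normal⟩
  have h9 := h2.mono h6
  have h10 := h4.mono h7
  rw [T.defect_eq σ h5 h9, T.defect_eq σ h8 h10]
  unfold dL
  rw [ind_conj h hK' χ σ, T.ind L'' K K' h χ h8 h10, T.ind L'' K K' h _ h8 (h10.conj σ)]

/-- The Stark defect as an inductive invariant. -/
noncomputable def inv (σ : ℂ ≃+* ℂ) : Inductive ℂˣ where
  d := T.defect σ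
  add := fun K χ ψ hK h₁ h₂ => T.defect_add σ K χ ψ hK h₁ h₂
  ind := fun K K' h χ hK' hχ hi => T.defect_ind σ K K' h χ hK' hχ hi

theorem holds_iff (K : IntermediateField ℚ Qb) (χ : GK K → ℂ) (hK : FiniteDimensional ℚ K)
    (hχ : IsArtinChar K χ) : T.Holds K χ ↔ ∀ σ, T.defect σ K χ = 1 := by
  constructor
  · intro h σ
    obtain ⟨L, h1, h2⟩ := exists_charOf hK hχ
    rw [T.defect_eq σ h1 h2]
    apply Units.ext
    rw [dL_coe, h L σ h1 h2]
    simp
  · intro h L σ h1 h2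
    have h3 := h σ
    rw [T.defect_eq σ h1 h2] at h3
    have h4 := congrArg (Units.val) h3
    rw [dL_coe] at h4
    simpa using (div_eq_one_iff_eq (Units.ne_zero _)).1 h4

end StarkSystem

end Pool.Agent.X208.BR
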