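import Pool.Agent.X208.BR.Defs

/-!
# Stark quotients

The formal properties of Stark's quotients `A_S(χ, φ_S) = R_S(χ, φ_S) / L_S^*(0, χ)`.
-/

set_option autoImplicit false

open Module

namespace Pool.Agent.X208.BR

/-- `χ` is the character of a complex representation of finite dimension of `GK K` which is trivial on
`GK L`, i.e. (for `L/K` Galois) of `Gal(L/K)`. -/
def IsCharOf (L K : IntermediateField ℚ Qb) (χ : GK K → ℂ) : Prop :=
  ∃ (ι : Type) (_ : Fintype ι) (_ : DecidableEq ι) (ρ : GK K →* Matrix ι ι ℂ),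
    (∀ g : GK K, (g : Gal(Qb/ℚ)) ∈ GK L → ρ g = 1) ∧ ∀ g, χ g = (ρ g).trace

/-- `L` is a finite Galois extension of `ℚ` which contains `K`. -/
structure Over (L K : IntermediateField ℚ Qb) : Prop where
  le : K ≤ L
  fin : FiniteDimensional ℚ L
  normal : Normal ℚ L

/-- **A system of Stark quotients.** For every finite Galois extension `L/ℚ` a finite set `S` of places
of `ℚ` (with `∞ ∈ S`) and a `ℚ[Gal(L/ℚ)]`-isomorphism `φ` are fixed; `A L K χ` is the quotient
`A_S(χ, φ) = R_S(χ, φ) / L_S^*(0, χ)` for the extension `L/K` and the character `χ` of `Gal(L/K)`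
(and the places of `K` above `S`). It is additive in `χ` and invariant under induction, and the quotients
`A(χ)^σ / A(χ^σ)` do not depend on the choices of `L`, `S`, `φ`. -/
structure StarkSystem where
  A : (L K : IntermediateField ℚ Qb) → (GK K → ℂ) → ℂˣ
  add : ∀ (L K : IntermediateField ℚ Qb) (χ ψ : GK K → ℂ), Over L K → IsCharOf L K χ →
    IsCharOf L K ψ → A L K (χ + ψ) = A L K χ * A L K ψ
  ind : ∀ (L K K' : IntermediateField ℚ Qb) (h : K ≤ K') (χ : GK K' → ℂ), Over L K' →
    IsCharOf L K' χ → A L K (ind h χ) = A L K' χ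
  indep : ∀ (L L' K : IntermediateField ℚ Qb) (χ : GK K → ℂ) (σ : ℂ ≃+* ℂ), Over L K → Over L' K →
    L ≤ L' → IsCharOf L K χ →
    σ (A L K χ) / A L K (fun g => σ (χ g)) = σ (A L' K χ) / A L' K (fun g => σ (χ g))

/-- **Stark's conjecture** for the character `χ` of the number field `K`: `A(χ)^σ = A(χ^σ)` for all
automorphisms `σ` of `ℂ` (and all the extensions `L/K` of which `χ` is a character). -/
def StarkSystem.Holds (T : StarkSystem) (K : IntermediateField ℚ Qb) (χ : GK K → ℂ) : Prop :=
  ∀ (L : IntermediateField ℚ Qb) (σ : ℂ ≃+* ℂ), Over L K → IsCharOf L K χ →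
    σ (T.A L K χ) = T.A L K (fun g => σ (χ g))

/-- The fields of the layer `layer K M n` over which Stark's conjecture fails for the restriction
of `χ`. -/
def StarkSystem.failing (T : StarkSystem) (K M : IntermediateField ℚ Qb) (χ : GK K → ℂ) (n : ℕ) :
    Set (IntermediateField ℚ Qb) :=
  {K' | K' ∈ layer K M n ∧ ∀ h : K ≤ K', ¬ T.Holds K' (res h χ)}

end Pool.Agent.X208.BR
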