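import Pool.Agent.X208.BR.Mean

/-!
# Two consecutive layers, for functions with values in groups with torsion
-/

set_option autoImplicit false

open Module

namespace Pool.Agent.X208.BR.Pk

variable {p : ℕ} {K M : Fld}

theorem adj_law' [hp : Fact p.Prime] {A : Type} [AddCommGroup A] [Module (ZMod p) A] [Finite A]
    {V : Type} [AddCommGroup V] {f : Fld → V} (m : Model p K M A)
    (h' : BR.IsElementary p K M) (hf : Respects K M f) {j : ℕ} (hne : p ^ (j + 1) • f K ≠ 0) :
    (layer K M (p ^ j)).ncard * (layer K M (p ^ (j + 1))).ncard ≤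
      (layer K M (p ^ j)).ncard * (bad K M f (p ^ (j + 1))).ncard +
        (∑ i ∈ Finset.range (j + 1), p ^ i) * (layer K M (p ^ (j + 1))).ncard *
          (bad K M f (p ^ j)).ncard := by
  classical
  have hinj : Function.Injective (phi m) := m.fld_injective h'
  have hl : ∀ i, layer K M (p ^ i) = phi m '' codim p A i := fun i => m.layer_eq h' i
  set b : Set (Submodule (ZMod p) A) := {W | f (phi m W) ≠ 0} with hb
  have hbad : ∀ i, bad K M f (p ^ i) = phi m '' (b ∩ codim p A i) := by
    intro i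
    ext L
    constructor
    · rintro ⟨hL, hL'⟩
      rw [hl] at hL
      obtain ⟨W, hW, rfl⟩ := hL
      exact ⟨W, ⟨hL', hW⟩, rfl⟩
    · rintro ⟨W, ⟨hW', hW⟩, rfl⟩
      refine ⟨?_, hW'⟩
      rw [hl]
      exact ⟨W, hW, rfl⟩
  have hN : ∀ W ∈ codim p A (j + 1), (aboveJ W j).ncard = ∑ i ∈ Finset.range (j + 1), p ^ i := by
    intro W hW
    obtain ⟨c, -, -, hc1, hcount, -⟩ := relationC m h' (show j < j + 1 by omega) hW
    rw [hc1 rfl, one_mul, Nat.add_sub_cancel_left, pow_one] at hcount
    have h2 : (∑ i ∈ Finset.range (j + 1), p ^ i) * (p - 1) = p ^ (j + 1) - 1 := by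
      have := Nat.geomSum_eq hp.out.two_le (j + 1)
      rw [this]
      exact Nat.div_mul_cancel (Nat.sub_one_dvd_pow_sub_one _ _)
    have h3 : 0 < p - 1 := by
      have := hp.out.two_le
      omega
    exact Nat.eq_of_mul_eq_mul_right h3 (hcount.symm.trans h2.symm)
  rw [hbad, hbad, hl, hl, Set.ncard_image_of_injective _ hinj, Set.ncard_image_of_injective _ hinj,
    Set.ncard_image_of_injective _ hinj, Set.ncard_image_of_injective _ hinj]
  refine count2 b b (fun W hW => ?_) _ hN
  by_contra hcon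
  push Not at hcon
  obtain ⟨h5, h6⟩ := hcon
  have h7 : f (phi m W) = 0 := by
    by_contra h8
    exact h5 h8
  obtain ⟨c, -, -, hc1, -, hrel⟩ := relationC m h' (show j < j + 1 by omega) hW
  have h8 : p ^ (j + 1 - j) • ∑ᶠ U ∈ aboveJ W j, f (phi m U) =
      (p ^ (j + 1) * c) • f K + ((aboveJ W j).ncard - c) • f (phi m W) := hrel f hf
  rw [h7, smul_zero, add_zero, hc1 rfl, mul_one] at h8
  have h9 : ∑ᶠ U ∈ aboveJ W j, f (phi m U) = 0 := by
    apply finsum_mem_eq_zero_of_forall_eq_zero
    intro U hU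
    by_contra h10
    exact h6 U hU h10
  rw [h9, smul_zero] at h8
  exact hne h8.symm

/-- **The law of two consecutive layers.** -/
theorem adj_law {V : Type} [AddCommGroup V] {f : Fld → V} (hp : p.Prime)
    (h : IsElementary p K M) (hf : Respects K M f) {j : ℕ} (hne : p ^ (j + 1) • f K ≠ 0) :
    (layer K M (p ^ j)).ncard * (layer K M (p ^ (j + 1))).ncard ≤
      (layer K M (p ^ j)).ncard * (bad K M f (p ^ (j + 1))).ncard +
        (∑ i ∈ Finset.range (j + 1), p ^ i) * (layer K M (p ^ (j + 1))).ncard *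
          (bad K M f (p ^ j)).ncard := by
  haveI : Fact p.Prime := ⟨hp⟩
  have h' := (elem_iff p K M).1 h
  obtain ⟨A, _, _, _, ⟨m⟩⟩ := exists_model h'
  exact adj_law' m h' hf hne

theorem adj_exists {V : Type} [AddCommGroup V] {f : Fld → V} (hp : p.Prime)
    (h : IsElementary p K M) (hf : Respects K M f) {j : ℕ} (hne : p ^ (j + 1) • f K ≠ 0)
    (hd : p ^ (j + 1) * deg K ≤ deg M) :
    (bad K M f (p ^ j)).Nonempty ∨ (bad K M f (p ^ (j + 1))).Nonempty := by
  have h1 := adj_law hp h hf hne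
  have h2 := (Set.ncard_pos (layer_finite' hp h j)).2 (layer_nonempty' hp h (Nat.le_succ j) hd)
  have h3 := (Set.ncard_pos (layer_finite' hp h (j + 1))).2 (layer_nonempty' hp h le_rfl hd)
  by_contra hcon
  push Not at hcon
  obtain ⟨h6, h7⟩ := hcon
  rw [h6, h7, Set.ncard_empty, mul_zero, mul_zero, add_zero] at h1
  have := Nat.mul_pos h2 h3
  omega

end Pool.Agent.X208.BR.Pk
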